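import Pool.Agent.Lib.RBR.Blue
import Pool.Agent.Lib.DK.Blue

/-! Project ku: the context of the trunk. Objects. -/

open scoped Classical Topology ContDiff ComplexOrder Matrix ENNReal
open Set MeasureTheory Complex Metric Filter

noncomputable section

namespace Pool.Agent.Lib.KU

open Pool.Agent.Lib.SV (E nsq)
open Pool.Agent.Lib.HS32
open Pool.Agent.Lib.KH (OnK SmK HoK HqB Jo Pol)
open Pool.Agent.Lib.KJ (tq hp PsK Iv)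
open Pool.Agent.Lib.RB9 (Pz)
open Pool.Agent.Lib.RBR (Bq Tm Nz O0 Oz Frm Adj Mo)

variable {n : ℕ} (M : Mf n)

/-- The family of potentials without Lelong numbers. -/
structure Ze (H Θ : M.Fam (Mat n)) (a : ℝ → M.X → ℝ) : Prop where
  env : ∀ e ∈ Ioc (0 : ℝ) 1, ZK.Env M (Θ + e • H) (a e) e
  mono : ∀ e ∈ Ioc (0 : ℝ) 1, ∀ e' ∈ Ioc 0 e, ∀ x, a e' x ≤ a e x + e
  mom : ∀ m : ℝ, 0 < m → ∃ C : ℝ, ∀ e ∈ Ioc (0 : ℝ) 1, ∫ x, Real.exp (-(m * a e x)) ∂M.mu H ≤ C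

/-- The context: `Θ` is the curvature of the nef class `N`, `Λ = d N`, `τ` is a meromorphic section
of `Λ`. -/
structure Tk where
  k : ℕ
  H : M.Fam (Mat n)
  p : M.X → ℝ
  σ : M.X → ℝ
  z : M.X → E k
  θ : M.X → ℂ
  m : Pz k
  D : MvPolynomial (Fin k) ℂ
  C : ℝ
  d : ℕ
  κ : M.X → ℝ
  ε : ℕ → ℝ
  φ : ℕ → M.X → ℝ
  Θ : M.Fam (Mat n)
  Λ : M.Co
  ψ : M.Fam ℝ
  τ : M.Fam ℂ
  a : ℝ → M.X → ℝ
  fr : Frm H p σ z θ (M.nrC ψ τ) m D C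
  ad : Adj H p σ (M.nrC ψ τ) d κ ε φ
  clo : M.Clo Θ
  wt : M.WtC Λ ψ
  cur : M.All fun e y => M.hw ψ e y = (d : ℝ) • Θ e y
  hτ : OnK M {x | 0 < p x} fun e y => HolN (τ e) y ∧ τ e y ≠ 0
  lτ : M.Ov fun e e' x => x ∈ {x | 0 < p x} → τ e' (e' x) = τ e (e x) * Λ.c e e' x
  ze : Ze M H Θ a
  zar : ∀ (j : ℕ) (F : M.X → ℂ), 0 < j → Tm p F →
    Jo M H (O0 p σ) (fun x => normSq (F x) * M.nrC ψ τ x ^ j * κ x) ≠ ⊤ → Bq p (M.nrC ψ τ) j 0 F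
  sec : ∀ (j : ℕ) (F : M.X → ℂ), Bq p (M.nrC ψ τ) j 0 F → ∃ t, M.HSecC (Λ.pw j) t ∧
    OnK M {x | 0 < p x} fun e y => t e y = F (e.symm y) * τ e y ^ j
  dom : ∀ (ι : Type) [Fintype ι] [Nonempty ι] (g : ι → M.X → ℂ), (∀ i, Tm p (g i)) →
    DK.Dom M H Θ {x | 0 < p x} fun x => 1 + ∑ i, normSq (g i x)

variable {M}

/-- The norm of `τ`. -/
abbrev Tk.T (X : Tk M) : M.X → ℝ := M.nrC X.ψ X.τ

/-- The numerical dimension is at most `δ`. -/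
def Tk.Nu (X : Tk M) (δ : ℕ) : Prop := ∃ C : ℝ, ∀ ε ∈ Ioc (0 : ℝ) 1,
  ∫ x, M.dq X.H (X.Θ + ε • X.H) x ∂M.mu X.H ≤ C * ε ^ (n - δ)

/-- Linear independence on `O`. -/
def Io {Y : Type} (O : Set Y) {m : ℕ} (g : Fin m → Y → ℂ) : Prop :=
  ∀ c : Fin m → ℂ, (∀ x ∈ O, ∑ s, c s * g s x = 0) → c = 0

/-- Growth of order `δ` at the cost `c`, on the levels that are multiples of `N`. -/
def Gro (p T : M.X → ℝ) (N c δ : ℕ) : Prop := ∃ C : ℕ, {j : ℕ | ∃ (m : ℕ) (g : Fin m → M.X → ℂ),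
  (j + 1) ^ δ ≤ C * m ∧ Io {x | 0 < p x} g ∧ ∀ s, Bq p T (N * j) c (g s)}.Infinite

/-- Bounded below on `O` by the norm of a tensor without zeros on `O`. -/
def Lw (p : M.X → ℝ) (O : Set M.X) (v : M.X → ℝ) : Prop := ∃ (η : M.X → ℂ) (s : ℕ) (c : ℝ),
  Tm p η ∧ 0 < c ∧ ∀ x ∈ O, η x ≠ 0 ∧ c * (normSq (η x) * p x ^ s) ≤ v x

/-- Potentials that dominate the logarithm of `N` and almost decrease. -/
structure Du (H Θ : M.Fam (Mat n)) (O : Set M.X) (N : M.X → ℝ) (δ α C : ℝ) (ε : ℕ → ℝ)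
    (u : ℕ → M.X → ℝ) : Prop where
  δ0 : 0 < δ
  α0 : 0 < α
  e0 : ∀ i, 0 ≤ ε i
  lim : Tendsto ε atTop (𝓝 0)
  sm : ∀ i, SmK M O (u i)
  pos : ∀ i, OnK M O fun e w => (M.hs (u i) e w + Θ e w + ε i • H e w).PosSemidef
  up : ∀ i, ∀ x ∈ O, u i x ≤ C
  mom : ∀ i, Jo M H O (fun x => Real.exp (-(α * u i x))) ≤ ENNReal.ofReal C
  dom : ∀ x ∈ O, ∀ᶠ i in atTop, u i x + δ * Real.log (N x) ≤ C
  am : ∀ i, ∃ A, ∀ x ∈ O, ∀ j ≥ i, u j x ≤ u i x + A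

variable {k r r₁ r₂ : ℕ}

/-- The model belongs to the context. -/
structure Tk.Is (X : Tk M) (Y : Mo M X.k r r₁ r₂) : Prop where
  H : Y.H = X.H
  p : Y.p = X.p
  σ : Y.σ = X.σ
  z : Y.z = X.z
  θ : Y.θ = X.θ
  T : Y.T = X.T
  d : Y.d = X.d
  κ : Y.κ = X.κ

/-- What the model inherits from the context. -/
structure Ex (X : Mo M k r r₁ r₂) (Θ : M.Fam (Mat n)) (a : ℝ → M.X → ℝ) : Prop where
  clo : M.Clo Θ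
  cur : OnK M {x | 0 < X.p x} fun e w =>
    M.hs (fun x => Real.log (X.T x)) e w = -((X.d : ℝ) • Θ e w)
  ze : Ze M X.H Θ a
  zar : ∀ (j : ℕ) (F : M.X → ℂ), 0 < j → Tm X.p F →
    Jo M X.H (O0 X.p X.σ) (fun x => normSq (F x) * X.T x ^ j * X.κ x) ≠ ⊤ → Bq X.p X.T j 0 F
  dom : ∀ (ι : Type) [Fintype ι] [Nonempty ι] (g : ι → M.X → ℂ), (∀ i, Tm X.p (g i)) →
    DK.Dom M X.H Θ {x | 0 < X.p x} fun x => 1 + ∑ i, normSq (g i x)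

/-- The open set is the complement of the zeros of `g` and lies in the open set of the model. -/
structure Sb (X : Mo M k r r₁ r₂) (g : M.X → ℂ) : Prop where
  tm : Tm X.p g
  nz : Nz X.p g
  sub : Oz X.p X.σ g ⊆ X.O

/-- The ample function. -/
structure Am (X : Mo M k r r₁ r₂) (g : M.X → ℂ) (A : M.X → ℝ) (η : M.X → ℂ) : Prop
    extends Sb X g where
  tη : Tm X.p η
  lo : ∀ x ∈ Oz X.p X.σ g, η x ≠ 0 ∧ normSq (η x) ^ 2 * hp X.a X.b x ≤ A x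
  hi : Lw X.p (Oz X.p X.σ g) fun x => (A x)⁻¹
  ct : ContinuousOn A (Oz X.p X.σ g)

/-- The property of the measure that is kept. -/
def Pk (X : Mo M k r r₁ r₂) (O : Set M.X) (ν : Measure M.X) (A : M.X → ℝ) (x θ : ℝ) : Prop :=
  ∃ g η, Am X g A η ∧ O = Oz X.p X.σ g ∧ ∀ f : M.X → ℝ, AEMeasurable f (M.mu X.H) →
    (∀ y, 0 ≤ f y) → (∀ t : ℕ, Iv ν (fun y => tq X.a X.b y ^ x * A y ^ (-θ) * f y ^ t) ≠ ⊤) →
    ∀ t : ℕ, Jo M X.H O (fun y => f y ^ t) ≠ ⊤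

/-- The sections with all negative moments. -/
structure Sg (X : Mo M k r r₁ r₂) (g : M.X → ℂ) (A : M.X → ℝ) (η : M.X → ℂ) (N₁ : ℕ) {r₀ : ℕ}
    (s : Fin r₀ → M.X → ℂ) : Prop extends Am X g A η where
  N0 : 0 < N₁
  sec : ∀ l, Bq X.p X.T (X.N * N₁) 0 (s l)
  pos : ∀ x ∈ Oz X.p X.σ g, 0 < nsq (s · x)
  mom : ∀ t : ℕ, Jo M X.H (Oz X.p X.σ g) (fun x => (tq X.a X.b x ^ N₁ / nsq (s · x)) ^ t) ≠ ⊤
  adm : ∀ w ≥ (0 : ℝ), ∀ c > (0 : ℝ), ∃ φ C, PsK M (Oz X.p X.σ g) φ ∧ ∀ x ∈ Oz X.p X.σ g,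
    |φ x - (w * Real.log (tq X.a X.b x) + c * Real.log (A x))| ≤ C

/-- The density of the flat measure times the root of the reference metric. -/
def md (X : Mo M k r r₁ r₂) (x : M.X) : ℝ :=
  tq X.a X.b x ^ ((1 : ℝ) / (X.d * X.N)) * (X.κ x * X.T x ^ ((1 : ℝ) / X.d))

/-- The Kodaira dimension. -/
def St_K6 : Prop := ∀ (n : ℕ) (M : Mf n) [M.Cpt] (X : Tk M) (c δ : ℕ),
  Gro X.p X.T 1 c δ → Gro X.p X.T 1 0 δ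

/-- The export of the trunk. -/
def St_TR : Prop := ∀ (n : ℕ) (M : Mf n) [M.Cpt] (X : Tk M), ∃ (r r₁ r₂ : ℕ)
  (Y : Mo M X.k r r₁ r₂) (g : M.X → ℂ) (A : M.X → ℝ) (η : M.X → ℂ) (N₁ r₀ : ℕ)
  (s : Fin r₀ → M.X → ℂ), X.Is Y ∧ Sg Y g A η N₁ s

/-- Semi-ampleness. -/
def St_K5 : Prop := ∀ (n : ℕ) (M : Mf n) [M.Cpt] (X : Tk M) (c δ : ℕ), Gro X.p X.T 1 c δ →
  X.Nu δ → ∃ j > 0, ∀ y, ∃ t, M.HSecC (X.Λ.pw j) t ∧ M.ev t y ≠ 0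

end Pool.Agent.Lib.KU
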