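import Pool.Agent.Lib.KU.Blue

/-! Project ku, row AM: the ample function of a family of forms. -/

open scoped Classical Topology ContDiff ComplexOrder Matrix ENNReal
open Set MeasureTheory Complex Metric Filter

noncomputable section

namespace Pool.Agent.Lib.KU

open Pool.Agent.Lib.SV (E nsq)
open Pool.Agent.Lib.HS32
open Pool.Agent.Lib.KJ (tq hp Oq)
open Pool.Agent.Lib.RBR (Bq Tm Nz O0 Oz Mo Os)
open Pool.Agent.Lib.NV6.J (pv)

namespace AM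

theorem trip {I J : Type} [Fintype I] [Fintype J] (u : I → ℂ) (v : J → ℂ) :
    nsq u * nsq v ^ 2 = nsq fun t : I × J × J => u t.1 * v t.2.1 * v t.2.2 := by
  unfold nsq
  rw [Fintype.sum_prod_type, Finset.sum_mul]
  refine Finset.sum_congr rfl fun a _ => ?_
  rw [Fintype.sum_prod_type, sq, Finset.sum_mul_sum, Finset.mul_sum]
  refine Finset.sum_congr rfl fun b _ => ?_
  rw [Finset.mul_sum]
  refine Finset.sum_congr rfl fun c _ => ?_
  rw [map_mul, map_mul, mul_assoc]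

theorem one_le {I : Type} [Fintype I] (u : I → ℂ) (i : I) : normSq (u i) ≤ nsq u :=
  Finset.single_le_sum (f := fun j => normSq (u j)) (fun _ _ => normSq_nonneg _) (Finset.mem_univ i)

end AM

theorem uAM (hLW : St_LW) (rKIT : RBR.St_KIT) (rMB : RBR.St_MB) : St_AM := by
  intro n k r r₁ r₂ M _ X m e Q A hF hA
  obtain ⟨-, -, -, -, -, -, -, -, k2, k3, -⟩ := rKIT n k M X.H X.p X.σ X.z X.θ X.T X.m X.D X.C X.fr
  obtain ⟨-, -, -, -, -, -, b1, b2, b3, -⟩ := rMB n k r r₁ r₂ M X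
  have tq : ∀ i, Tm X.p (pv X.h (Q i)) := fun i => (k3 _ X.h fun β => (b1 β).1).2.2.1 (Q i)
  have nq : ∀ i, Nz X.p (pv X.h (Q i)) := fun i => by
    obtain ⟨x, hx, h⟩ := hF.ne i
    exact ⟨x, hx.1, h⟩
  have ha := k3 _ X.a fun i => (X.ro.ta i).1
  have hb := k3 _ X.b fun i => (X.ro.tb i).1
  have hq := k3 _ (fun i => pv X.h (Q i)) tq
  have hab := k2 _ _ ha.1 hb.1
  have hg := k2 _ _ hab.2.1 hq.1
  set g : M.X → ℂ := fun x => ((∏ i, X.a i x) * ∏ j, X.b j x) * ∏ i, pv X.h (Q i) x with hgd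
  have hO : Oq X.O X.h Q = Oz X.p X.σ g := by
    ext x
    constructor
    · rintro ⟨⟨h1, h2, h3⟩, h4⟩
      exact ⟨h1, h2, mul_ne_zero h3 (Finset.prod_ne_zero_iff.2 fun i _ => h4 i)⟩
    · rintro ⟨h1, h2, h3⟩
      exact ⟨⟨h1, h2, left_ne_zero_of_mul h3⟩, fun i =>
        Finset.prod_ne_zero_iff.1 (right_ne_zero_of_mul h3) i (Finset.mem_univ i)⟩
  have hm : ∀ x ∈ Oz X.p X.σ g, x ∈ X.O ∧ ∀ i, pv X.h (Q i) x ≠ 0 := fun x hx => by
    rw [← hO] at hx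
    exact hx
  have hS : Sb X g := ⟨hg.2.1, hg.2.2 (hab.2.2 (ha.2.1 fun i => (X.ro.ta i).2)
    (hb.2.1 fun i => (X.ro.tb i).2)) (hq.2.1 nq), fun x hx => (hm x hx).1⟩
  let f : Fin r × Fin m × Fin m → M.X → ℂ := fun t y =>
    X.h t.1 y * pv X.h (Q t.2.1) y * pv X.h (Q t.2.2) y
  have tf : ∀ t, Tm X.p (f t) := fun t =>
    (k2 _ _ (k2 _ _ (b1 t.1).1 (tq t.2.1)).2.1 (tq t.2.2)).2.1
  have hAf : A = fun y => nsq (f · y) := funext fun y => (hA y).trans (AM.trip _ _)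
  let i₀ : Fin m := ⟨0, hF.m0⟩
  let t₀ : Fin r × Fin m × Fin m := (X.e.symm (0, 0), i₀, i₀)
  have f0 : ∀ x ∈ Oz X.p X.σ g, f t₀ x ≠ 0 := fun x hx =>
    mul_ne_zero (mul_ne_zero ((b2 x (hm x hx).1).2.2.2.1 _) ((hm x hx).2 _)) ((hm x hx).2 _)
  obtain ⟨-, -, -, l4, -⟩ := hLW n k r r₁ r₂ M X g hS
  obtain ⟨l5, l6⟩ := l4 _ f tf
  refine ⟨⟨g, pv X.h (Q i₀), ⟨hS, tq i₀, fun x hx => ⟨(hm x hx).2 _, ?_⟩, ?_, ?_⟩, hO, ?_⟩,
    _, inferInstance, ⟨t₀⟩, f, tf, fun y => congrFun hAf y⟩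
  · rw [hA x, b3 x, mul_comm]
    exact mul_le_mul_of_nonneg_left (pow_le_pow_left₀ (normSq_nonneg _)
      (AM.one_le (fun i => pv X.h (Q i) x) i₀) 2)
      (mul_nonneg (Finset.sum_nonneg fun _ _ => normSq_nonneg _)
        (Finset.sum_nonneg fun _ _ => normSq_nonneg _))
  · rw [hAf]
    exact l5 fun x hx => (normSq_pos.2 (f0 x hx)).trans_le (AM.one_le (f · x) t₀)
  · rw [hAf]
    exact (k3 _ f tf).2.2.2.1.mono fun x hx => hx.1
  · rw [hAf]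
    exact l6 t₀ f0

end Pool.Agent.Lib.KU
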