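import Pool.Agent.Lib.KU.Blue
import Pool.Agent.Lib.KJ.B_KIT

/-! Project ku, row B1: the multiplier. -/

open scoped Classical Topology ContDiff ComplexOrder Matrix ENNReal
open Set MeasureTheory Complex Metric Filter

noncomputable section

namespace Pool.Agent.Lib.KU

open Pool.Agent.Lib.SV (E nsq)
open Pool.Agent.Lib.HS32
open Pool.Agent.Lib.KH (OnK SmK HoK Jo)
open Pool.Agent.Lib.KJ (tq hp)
open Pool.Agent.Lib.RBR (Bq Tm Nz O0 Oz Frm Adj Mo Ul)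

namespace B1

theorem jo_le {n : ℕ} {M : Mf n} {H : M.Fam (Mat n)} {O : Set M.X} (hO : IsOpen O)
    {f f' : M.X → ℝ} {C : ℝ} (hC : 0 ≤ C) (h : ∀ x ∈ O, f x ≤ C * f' x) (h' : Jo M H O f' ≠ ⊤) :
    Jo M H O f ≠ ⊤ := by
  refine ne_top_of_le_ne_top (ENNReal.mul_ne_top (ENNReal.ofReal_ne_top (r := C)) h') ?_
  rw [Jo, Jo, ← lintegral_const_mul' _ _ ENNReal.ofReal_ne_top]
  refine setLIntegral_mono' hO.measurableSet fun x hx => ?_
  rw [← ENNReal.ofReal_mul hC]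
  exact ENNReal.ofReal_le_ofReal (h x hx)

theorem quo {a N h : ℝ} (ha : 0 ≤ a) (hN : 0 < N) (hh : 0 < h) (e : a * N ≤ h) (J : ℕ) :
    a ^ J * (h ^ J)⁻¹ ≤ (N ^ J)⁻¹ := by
  rw [← div_eq_mul_inv, ← one_div, div_le_div_iff₀ (pow_pos hh J) (pow_pos hN J), one_mul,
    ← mul_pow]
  exact pow_le_pow_left₀ (mul_nonneg ha hN.le) e J

theorem two {u v C D N a h : ℝ} {b c : ℕ} (hv : 0 ≤ v) (hu : 0 ≤ u) (ha : 0 ≤ a) (hN : 0 < N)
    (h1 : u ≤ C * N ^ b) (h2 : v ≤ D * N ^ c) (e : a * N ≤ h) :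
    u * v * a ^ (b + c) ≤ |C * D| * h ^ (b + c) := by
  have h3 := mul_le_mul h1 h2 hv (hu.trans h1)
  have h4 := pow_le_pow_left₀ (mul_nonneg ha hN.le) e (b + c)
  have h5 : 0 ≤ (a * N) ^ (b + c) := by positivity
  calc u * v * a ^ (b + c) ≤ C * N ^ b * (D * N ^ c) * a ^ (b + c) :=
        mul_le_mul_of_nonneg_right h3 (pow_nonneg ha _)
    _ = C * D * (a * N) ^ (b + c) := by rw [mul_pow, pow_add N]; ring
    _ ≤ |C * D| * h ^ (b + c) := mul_le_mul (le_abs_self _) h4 h5 (abs_nonneg _)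

end B1

open B1 in
theorem uB1 (hPK : St_PK) (hGRW : St_GRW) (hLW : St_LW) (hKIT : St_KIT) (hREM : St_REM)
    (rKIT : RBR.St_KIT) : St_B1 := by
  intro n k r r₁ r₂ M _ X g l sb hl
  obtain ⟨F, J, hF, ⟨x₀, hx₀, F0⟩, hI⟩ := hPK n k r r₁ r₂ M X g l sb hl
  obtain ⟨hO, -, -, -, -, -, -, -, -, -, -, -, -, C, -, kit⟩ := hKIT n k r r₁ r₂ M X g sb
  obtain ⟨-, lm, lv, -, lk, lt⟩ := hLW n k r r₁ r₂ M X g sb
  obtain ⟨-, -, -, -, -, -, -, -, tm, tp, -⟩ := rKIT n k M _ _ _ _ _ _ _ _ _ X.fr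
  have kj := KJ.bKIT n M _ hO
  have t0 := (tm _ _ (X.ro.ta 0).1 (X.ro.tb 0).1).2
  have th := t0.1
  have nh := t0.2 (X.ro.ta 0).2 (X.ro.tb 0).2
  have N0 : ∀ x, 0 < 1 + nsq (X.z x) := fun x => by have := SV.nsq_nonneg (X.z x); linarith
  have W1 : ∀ x, 1 ≤ Real.exp (-(l * Ul X.U (X.z x))) := fun x => by
    refine Real.one_le_exp (neg_nonneg.2 (mul_nonpos_of_nonneg_of_nonpos hl ?_))
    refine Real.iInf_nonpos' ⟨0, ?_⟩
    have h1 := X.ro.up.up (X.z x)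
    have h2 := Real.log_nonneg (le_add_of_nonneg_right (a := 1) (SV.nsq_nonneg (X.z x)))
    simp only [Nat.cast_zero, zero_add, div_one]
    linarith
  have lw : Lw X.p (Oz X.p X.σ g) fun x => hp X.a X.b x ^ (-((J + 1 : ℕ) : ℝ)) * md X x :=
    lm _ _ (lt _).2.2.1 (lm _ _ (lt _).2.1 (lm _ _ lk (lt _).1))
  obtain ⟨η, tη, η0, rem⟩ := (hREM n k r r₁ r₂ M X g _ sb lw).1
  have hh : HoK M (Oz X.p X.σ g) fun x => X.a 0 x * X.b 0 x :=
    fun e he z hz h => th.1 e he z hz h.1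
  have hF1 := (kj.2.1 _ _ hF ((kj.2.1 _ _ hh hh).2.2.2.1 J)).2.2.1
  have key : ∀ x ∈ Oz X.p X.σ g, normSq (F x * (X.a 0 x * X.b 0 x) ^ J) *
      ((hp X.a X.b x ^ (J + 1))⁻¹ * md X x) ≤ normSq (F x) * (((1 + nsq (X.z x)) ^ J)⁻¹ *
        ((hp X.a X.b x)⁻¹ * md X x)) := fun x hx => by
    obtain ⟨-, -, -, h1, h2, -, -, h3⟩ := kit x hx
    have h4 := mul_le_mul_of_nonneg_right (mul_le_mul_of_nonneg_left
      (quo (normSq_nonneg _) (N0 x) h1 h3 J) (normSq_nonneg (F x)))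
      (mul_pos (inv_pos.2 h1) h2).le
    rw [normSq_mul, map_pow, pow_succ, mul_inv]
    exact le_of_eq_of_le (by ring) (h4.trans_eq (by ring))
  obtain ⟨G, tG, eG⟩ := rem _ hF1 (jo_le hO zero_le_one (fun x hx => by
    obtain ⟨-, -, -, h1, h2, -⟩ := kit x hx
    rw [Real.rpow_neg h1.le, Real.rpow_natCast, one_mul]
    refine (key x hx).trans (mul_le_mul_of_nonneg_left ?_ (normSq_nonneg _))
    rw [mul_assoc]
    exact le_mul_of_one_le_left (mul_pos (inv_pos.2 (pow_pos (N0 x) J))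
      (mul_pos (inv_pos.2 h1) h2)).le (W1 x)) hI)
  obtain ⟨Q₁, b₁, C₁, q1, g1⟩ := hGRW n k r r₁ r₂ M X η tη
  obtain ⟨Q₂, b₂, C₂, q2, g2⟩ := hGRW n k r r₁ r₂ M X G tG
  have tQ := (tp (Fin k) (fun i x => X.z x i) X.fr.tz).2.2.1
  have tw := tp (Fin (b₁ + b₂)) (fun _ x => X.a 0 x * X.b 0 x) fun _ => th
  simp only [Finset.prod_const, Finset.card_univ, Fintype.card_fin] at tw
  have nG : Nz X.p G := ⟨x₀, hx₀.1, by
    have h := mul_ne_zero_iff.1 (sb.sub hx₀).2.2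
    rw [eG x₀ hx₀]
    exact mul_ne_zero (mul_ne_zero F0 (pow_ne_zero _ (mul_ne_zero
      (Finset.prod_ne_zero_iff.1 h.1 0 (Finset.mem_univ _))
      (Finset.prod_ne_zero_iff.1 h.2 0 (Finset.mem_univ _))))) (η0 x₀ hx₀)⟩
  have s1 := (tm _ _ (tQ Q₂) tG).2
  have s2 := (tm _ _ (tQ Q₁) s1.1).2
  have s3 := (tm _ _ s2.1 tw.1).2
  refine ⟨_, b₁ + b₂, b₁ + b₂ + (J + 1), |C₁ * C₂|, s3.1,
    s3.2 (s2.2 (X.fr.ind _ q1) (s1.2 (X.fr.ind _ q2) nG)) (tw.2.1 fun _ => nh),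
    by omega, fun x hx => ?_, jo_le hO (abs_nonneg (C₁ * C₂)) (fun x hx => ?_) hI⟩
  · rw [normSq_mul, normSq_mul, map_pow]
    exact two (normSq_nonneg _) (normSq_nonneg _) (normSq_nonneg _) (N0 x) (g1 x hx.1).1
      (g2 x hx.1).2 (kit x hx).2.2.2.2.2.2.2
  · obtain ⟨-, -, -, h1, h2, -, -, h3⟩ := kit x hx
    have h4 := two (normSq_nonneg _) (normSq_nonneg _) (normSq_nonneg _) (N0 x) (g1 x hx.1).2
      (g2 x hx.1).1 h3
    have h5 := mul_le_mul h4 (key x hx) (mul_nonneg (normSq_nonneg _)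
      (mul_pos (inv_pos.2 (pow_pos h1 _)) h2).le) (mul_nonneg (abs_nonneg _) (pow_pos h1 _).le)
    have h6 := mul_le_mul_of_nonneg_right h5 (mul_pos (Real.exp_pos (-(l * Ul X.U (X.z x))))
      (inv_pos.2 (pow_pos h1 (b₁ + b₂)))).le
    have h7 := mul_inv_cancel₀ (pow_pos h1 (b₁ + b₂)).ne'
    rw [eG x hx, pow_add _ (b₁ + b₂), mul_inv]
    simp only [normSq_mul, map_pow] at h6 ⊢
    refine le_of_eq_of_le (by ring) (h6.trans_eq ?_)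
    linear_combination (|C₁ * C₂| * normSq (F x) * Real.exp (-(l * Ul X.U (X.z x))) *
      ((1 + nsq (X.z x)) ^ J)⁻¹ * (hp X.a X.b x)⁻¹ * md X x) * h7

end Pool.Agent.Lib.KU
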