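import Pool.Agent.Lib.KU.Blue

/-! Project ku, row CNT: the count. -/

open scoped Classical
open Set

namespace Pool.Agent.Lib.KU

open Pool.Agent.Lib.NV6.J (mon)

namespace CNT

theorem io {Y : Type} {O : Set Y} {m : ℕ} {g : Fin m → Y → ℂ} :
    Io O g ↔ LinearIndependent ℂ fun i (y : O) => g i y := by
  rw [Fintype.linearIndependent_iff]
  refine forall_congr' fun c => imp_congr ?_ funext_iff
  simp only [funext_iff, Finset.sum_apply, Pi.smul_apply, smul_eq_mul, Pi.zero_apply,
    Subtype.forall]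

end CNT

theorem uCNT : St_CNT := by
  intro Y O r q m s V f hV hf hD
  obtain ⟨b, -, -, h1, h2⟩ := exists_linearIndepOn_extension
    (linearIndepOn_empty ℂ fun (I : Fin q → Fin r) (y : O) => mon s I y) (empty_subset univ)
  let β := Module.finBasis ℂ V
  let ρ : (Y → ℂ) →ₗ[ℂ] O → ℂ := LinearMap.funLeft ℂ ℂ Subtype.val
  let g : Fin (Module.finrank ℂ V) × b → O → ℂ :=
    fun p => (fun y : O => mon s p.2.1 y) * ρ (β p.1)
  refine ⟨Fintype.card b, fun l => ((Fintype.equivFin b).symm l).1, ?_,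
    CNT.io.2 (h2.comp _ (Fintype.equivFin b).symm.injective)⟩
  have k := (linearIndependent_le_span_aux' _ (CNT.io.1 hf) (range g) ?_).trans
    (Fintype.card_range_le g)
  · simpa only [Fintype.card_fin, Fintype.card_prod] using k
  rintro _ ⟨i, rfl⟩
  obtain ⟨H, h3, h4⟩ := hD i
  have e : (fun y : O => f i y) = ∑ I, (fun y : O => mon s I y) * ρ (H I) := funext fun y => by
    rw [Finset.sum_apply]
    exact h4 y y.2
  have h5 : ∀ I, ρ (H I) ∈ Submodule.span ℂ (range fun j => ρ (β j)) := fun I => by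
    rw [show H I = _ from congrArg Subtype.val (β.sum_repr ⟨H I, h3 I⟩).symm, Submodule.coe_sum,
      map_sum]
    refine Submodule.sum_mem _ fun j _ => ?_
    rw [Submodule.coe_smul, map_smul]
    exact Submodule.smul_mem _ _ (Submodule.subset_span ⟨j, rfl⟩)
  beta_reduce
  rw [e]
  refine Submodule.sum_mem _ fun I _ => ?_
  have h6 := Submodule.mul_mem_mul (h1 ⟨I, mem_univ I, rfl⟩) (h5 I)
  rw [Submodule.span_mul_span] at h6
  refine Submodule.span_mono ?_ h6
  rintro _ ⟨_, ⟨J, hJ, rfl⟩, _, ⟨j, rfl⟩, rfl⟩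
  exact ⟨(j, ⟨J, hJ⟩), rfl⟩

end Pool.Agent.Lib.KU
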