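import Pool.Agent.Lib.KU.Blue

/-! Project ku: the division. -/

open scoped Classical Topology ContDiff ComplexOrder Matrix ENNReal
open Set MeasureTheory Complex Metric Filter

set_option linter.unusedVariables false

noncomputable section

namespace Pool.Agent.Lib.KU

open Pool.Agent.Lib.SV (E nsq)
open Pool.Agent.Lib.HS32
open Pool.Agent.Lib.KH (OnK SmK HoK HqB Jo Pol Cmp Wq Lb lden)
open Pool.Agent.Lib.KJ (tq hp PsK Iv Fd wj L2)
open Pool.Agent.Lib.RBR (Bq Tm Nz O0 Oz Frm Adj Mo Ul)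
open Pool.Agent.Lib.NV6.J (mon pv Dv)

namespace DIV

theorem two {t A w c φ C : ℝ} (ht : 0 < t) (hA : 0 < A)
    (h : |φ - (w * Real.log t + c * Real.log A)| ≤ C) :
    Real.exp (-φ) ≤ Real.exp C * (t ^ (-w) * A⁻¹ ^ c) ∧
      t ^ (-w) * A⁻¹ ^ c ≤ Real.exp C * Real.exp (-φ) := by
  rw [Real.rpow_def_of_pos ht, Real.rpow_def_of_pos (inv_pos.2 hA), Real.log_inv, ← Real.exp_add,
    ← Real.exp_add, ← Real.exp_add, Real.exp_le_exp, Real.exp_le_exp]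
  obtain ⟨h1, h2⟩ := abs_le.1 h
  constructor <;> linarith

theorem alg {t A c S y m : ℝ} (ht : 0 < t) (hA : 0 < A) (N j i : ℕ) :
    (t ^ (N * j + i))⁻¹ * A ^ (-c) * (t ^ N / S) ^ j * (t ^ y * m) =
      m * (t ^ (-(i - y)) * A⁻¹ ^ c / S ^ j) := by
  rw [neg_sub, Real.rpow_sub ht, Real.rpow_natCast, Real.rpow_neg hA.le, Real.inv_rpow hA.le,
    div_pow, pow_add, pow_mul]
  have := ht.ne'
  field_simp

end DIV

open DIV in
/-- The division. -/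
theorem uDIV (hFIN : St_FIN) (hLW : St_LW) (hKIT : St_KIT) (hREM : St_REM) (rHQA : RBR.St_HQA)
    (rKIT : RBR.St_KIT) (aKIT : KJ.St_KIT) (aSKK : KJ.St_SKK) : St_DIV := by
  intro n k r r₁ r₂ r₀ M _ X g η A N₁ s c S
  obtain ⟨b₀, c₂, tb, nb, c0, hF⟩ := hFIN n k r r₁ r₂ r₀ M X g η A N₁ s c S
  have sb : Sb X g := S.toSb
  obtain ⟨-, l2, l3, l4, l5, l6⟩ := hLW n k r r₁ r₂ M X g sb
  obtain ⟨k1, k2, -, -, k5, k6, -, k8, k9, -, -, -, -, C₀, -, k0⟩ := hKIT n k r r₁ r₂ M X g sb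
  obtain ⟨-, -, q3, -, -, -, -, -, q9, -, q11, -, -, -, q15⟩ :=
    rKIT n k M X.H X.p X.σ X.z X.θ X.T X.m X.D X.C X.fr
  obtain ⟨-, -, -, j4, j5, j6, j7, -⟩ := aKIT n M _ k1
  have so : Oz X.p X.σ g ⊆ {x | 0 < X.p x} := fun x hx => hx.1
  have res : ∀ F, Tm X.p F → HoK M (Oz X.p X.σ g) F := fun F h e he z hz ho =>
    h.1 e he z hz (so ho)
  have tq' : ∀ j c F, Bq X.p X.T j c F → Tm X.p F := fun j c F h =>
    ((q11 j c).choose_spec F h).2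
  have ts : ∀ l, Tm X.p (s l) := fun l => tq' _ _ _ (S.sec l)
  have A0 : ∀ x ∈ Oz X.p X.σ g, 0 < A x := fun x hx => inv_pos.1 ((l3 _ S.hi).1 x hx)
  set m : M.X → ℝ := fun x => X.κ x * X.T x ^ ((1 : ℝ) / X.d) with hm
  have lm : Lw X.p (Oz X.p X.σ g) m := l2 _ _ l5 (l6 _).1
  have m0 := (l3 _ lm).1
  have cm : ContinuousOn m (Oz X.p X.σ g) :=
    k8.mul ((k9.mono so).rpow_const fun x hx => Or.inl (q3 x (so hx)).ne')
  have hq := rHQA n M X.H X.p X.σ X.T X.d X.κ X.ε X.φ _ 0 (fun _ _ => 0) X.fr.kae X.ad q3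
    (q15 g sb.tm sb.nz).2.1 (fun x hx => ⟨hx.1, hx.2.1⟩) le_rfl (fun _ => j7 0) fun _ _ _ => le_rfl
  simp only [lden, zero_mul, add_zero, neg_zero, Real.exp_zero, ENNReal.ofReal_one, liminf_const,
    mul_one] at hq
  obtain ⟨ms, -, iv⟩ := k6 (fun x => ENNReal.ofReal (m x)) m (k5 m cm).ennreal_ofReal lm
    (ae_of_all _ fun _ => le_rfl)
  set ν := ((M.mu X.H).restrict (Oz X.p X.σ g)).withDensity fun x => ENNReal.ofReal (m x)
  have cs := (j5 _ s fun l => res _ (ts l)).2.2.1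
  have iv' : ∀ φ j F, PsK M (Oz X.p X.σ g) φ → HoK M (Oz X.p X.σ g) F →
      Iv ν (fun x => normSq (F x) * wj s φ j x) =
        Jo M X.H (Oz X.p X.σ g) fun x => normSq (F x) * (m x * wj s φ j x) := fun φ j F h1 h2 => by
    rw [iv (fun x => normSq (F x) * wj s φ j x) (k5 _ ((continuous_normSq.comp_continuousOn (j4 F h2).1).mul
      ((j6 φ h1).1.neg.rexp.div (cs.pow j) fun x hx => (pow_pos (S.pos x hx) j).ne')))]
    refine setLIntegral_congr_fun k1.measurableSet fun x hx => ?_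
    beta_reduce
    rw [← ENNReal.ofReal_mul (m0 x hx).le, mul_left_comm]
  have dN : (1 : ℝ) / (X.d * X.N) ≤ 1 := by
    refine div_le_one_of_le₀ ?_ (by positivity)
    exact_mod_cast Nat.mul_pos X.ad.d0 X.ro.N0
  have ad : ∀ i : Fin N₁, ∃ φ C, PsK M (Oz X.p X.σ g) φ ∧ ∀ x ∈ Oz X.p X.σ g,
      |φ x - ((((i : ℕ) + 1 : ℕ) - (1 : ℝ) / (X.d * X.N)) * Real.log (tq X.a X.b x) +
        c₂ * Real.log (A x))| ≤ C := fun i => S.adm _ (by
      have : (0 : ℝ) ≤ (i : ℕ) := Nat.cast_nonneg _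
      push_cast
      linarith) c₂ c0
  choose φ C p1 p2 using ad
  have tw := fun i x hx => two (k0 x hx).2.2.1 (A0 x hx) (p2 i x hx)
  have fd : ∀ i j, Fd (L2 M (Oz X.p X.σ g) ν (wj s (φ i) j)) := fun i j => by
    have a1 := l2 _ _ lm (l2 _ _ (l2 _ _ (l6 (-(((i : ℕ) + 1 : ℕ) - (1 : ℝ) / (X.d * X.N)))).2.1
      ((l3 _ S.hi).2.1 c₂ c0.le)) ((l3 _ ((l4 _ s ts).1 S.pos)).2.1 j (Nat.cast_nonneg j)))
    have a2 : Lw X.p (Oz X.p X.σ g) fun x => m x * wj s (φ i) j x := by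
      refine (l3 _ a1).2.2.1 _ (Real.exp (C i)) fun x hx => ?_
      have b1 := m0 x hx
      have b2 := pow_pos (S.pos x hx) j
      refine ⟨mul_nonneg b1.le (div_nonneg (Real.exp_pos _).le b2.le), ?_⟩
      rw [Real.rpow_natCast, inv_pow, wj, mul_left_comm (Real.exp _), div_eq_mul_inv (Real.exp _),
        ← mul_assoc (Real.exp _)]
      exact mul_le_mul_of_nonneg_left
        (mul_le_mul_of_nonneg_right (tw i x hx).2 (inv_pos.2 b2).le) b1.le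
    obtain ⟨V, v1, v2⟩ := (hREM n k r r₁ r₂ M X g _ sb a2).2
    exact ⟨V, v1, fun F h => v2 ⟨h.1, h.2.1, iv' _ j F (p1 i) h.1 ▸ h.2.2⟩⟩
  choose V v1 v2 using fun i => fd i (4 * r₀ + 1)
  refine ⟨b₀, ⨆ i, V i, 4 * r₀ + 1, tb, nb, inferInstance, fun Q q γ h1 h2 hγ => ?_⟩
  obtain ⟨i, rfl⟩ : ∃ i : Fin N₁, Q = N₁ * (4 * r₀ + 1 + q) + (i + 1) :=
    ⟨⟨Q - N₁ * (4 * r₀ + 1 + q) - 1, by rw [mul_add_one] at h2; omega⟩, by simp only; omega⟩
  have hγ' := res _ (q9 _ _ (tq' _ _ _ hγ) tb).2.1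
  obtain ⟨G, g1, g2⟩ := aSKK n r₀ M _ ν s (φ i) (4 * r₀ + 1) q _ ms hq
    ⟨fun l => res _ (ts l), S.pos⟩ (p1 i) (Nat.lt_succ_self _) (fun _ => fd i _) hγ' (by
      rw [iv' _ _ _ (p1 i) hγ']
      refine ne_top_of_le_ne_top (ENNReal.mul_ne_top (ENNReal.ofReal_ne_top (r := Real.exp (C i)))
        (hF _ (4 * r₀ + 1 + q) γ (by omega) hγ)) ?_
      rw [Jo, Jo, ← lintegral_const_mul' _ _ ENNReal.ofReal_ne_top]
      refine setLIntegral_mono' k1.measurableSet fun x hx => ?_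
      rw [← ENNReal.ofReal_mul (Real.exp_pos _).le, md, alg (k0 x hx).2.2.1 (A0 x hx),
        mul_left_comm (Real.exp _), mul_left_comm (Real.exp _), ← mul_div_assoc (Real.exp _)]
      exact ENNReal.ofReal_le_ofReal (mul_le_mul_of_nonneg_left (mul_le_mul_of_nonneg_left
        (div_le_div_of_nonneg_right (tw i x hx).1 (pow_pos (S.pos x hx) _).le) (m0 x hx).le)
        (normSq_nonneg _)))
  exact ⟨G, fun I => le_iSup V i (v2 i (g1 I)), g2⟩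

end Pool.Agent.Lib.KU
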