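import Pool.Agent.Lib.KU.Blue

/-! Row DM: domination. -/

open scoped Classical Topology ContDiff ComplexOrder Matrix ENNReal
open Set MeasureTheory Complex Metric Filter

noncomputable section

namespace Pool.Agent.Lib.KU

open Pool.Agent.Lib.HS32

theorem uDM (hDM2 : St_DM2) (hAM : St_AM) (hDQ : St_DQ) (hEXT : St_EXT) (hVAN : St_VAN)
    (rKIT : RBR.St_KIT) : St_DM := by
  intro n k r r₁ r₂ M _ X Θ a hE m e Q hQ A hA
  obtain ⟨⟨g, η, hAm, hO, hL⟩, ι, i1, i2, f, hf, hs⟩ := hAM n k r r₁ r₂ M X m e Q A hQ hA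
  have hp := (rKIT n k M X.H X.p X.σ X.z X.θ X.T X.m X.D X.C X.fr).2.1
  have hD : DK.Dom M X.H Θ {x | 0 < X.p x} fun y => 1 + A y := by
    have h := hE.dom ι f hf
    simp only [← hs] at h
    exact h
  obtain ⟨δ, α, C, ε, u, hu⟩ := hDM2 n M X.H Θ X.p _ a X.fr.kae hE.clo hp X.fr.pol.nn hE.ze hD
  have h0 : ∀ y, 0 ≤ A y := fun y => by
    rw [hs]
    exact Finset.sum_nonneg fun _ _ => normSq_nonneg _
  obtain ⟨ν, x, θ, h1, h2, h3⟩ := hDQ n k r r₁ r₂ M X Θ a g η A δ α C ε u hE hAm hL h0 hu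
  rw [hO]
  exact ⟨ν, x, θ, h1, h2, fun j => (hEXT n k r r₁ r₂ M X g j hAm.toSb).2, fun j hj hx F hF hI =>
    hVAN n k r r₁ r₂ M X Θ a g F j hE hAm.toSb hj hF (h3 j hx F hF hI)⟩

end Pool.Agent.Lib.KU
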