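import Pool.Agent.Lib.KU.Blue
import Pool.Agent.Lib.DK.B_SEQ
import Pool.Agent.Lib.KH.B_MAX

/-! Project ku, row DM2: potentials that dominate and almost decrease. -/

open scoped Classical Topology ContDiff ComplexOrder Matrix ENNReal
open Set MeasureTheory Metric Filter

noncomputable section

namespace Pool.Agent.Lib.KU

open Pool.Agent.Lib.HS32 Pool.Agent.Lib.HS32.Mf

theorem uDM2 : St_DM2 := by
  intro n M _ H Θ p N a hH hΘ hp p0 hz hd
  obtain ⟨δ, α, C, δ0, α0, u, hu, hK⟩ := DK.dSEQ n M H Θ _ N p hp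
    (fun x => ⟨fun h => (p0 x).lt_of_ne' h, fun h => ne_of_gt h⟩) hd
  have e0 : ∀ i : ℕ, 1 / (i + 1 : ℝ) ∈ Ioc (0 : ℝ) 1 := fun i =>
    ⟨Nat.one_div_pos_of_nat, (div_le_one (Nat.cast_add_one_pos i)).2 (by simp)⟩
  have mt : ∀ i j : ℕ, i ≤ j → M.Met (Θ + (1 / (i + 1 : ℝ)) • H + M.hs (u (j + 1))) :=
    fun i j h => ⟨((hΘ.add (hH.toClo.smul _)).add ((mHES n M).1 _ (hu _).1)).toForm,
      fun e he z hz => by
        have := (pd_rsmul (hH.pos e he z hz) (sub_pos.2 (Nat.one_div_lt_one_div (α := ℝ)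
          (Nat.lt_succ_of_le h)))).add_posSemidef ((hu (j + 1)).2.1 e he z hz)
        refine (congrArg Matrix.PosDef ?_).mp this
        simp only [Pi.add_apply, Pi.smul_apply, Pi.zero_apply, Nat.succ_eq_add_one]
        module⟩
  choose R R1 R2 R3 using fun i : ℕ => KH.bMAX n M {x | 0 < p x} (Θ + (1 / (i + 1 : ℝ)) • H) 1
    ![u (i + 1), fun x => a (1 / (i + 1 : ℝ)) x + -(i : ℝ)] 1 (isOpen_lt continuous_const hp)
    one_pos (Fin.forall_fin_two.2 ⟨⟨fun e he z hz _ => (hu _).1 e he z hz, fun e he z hz _ =>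
      (congrArg Matrix.PosSemidef (add_comm _ _)).mp ((mt i i le_rfl).pos e he z hz).posSemidef⟩,
      fun e he z h _ => ((hz.env _ (e0 i)).sm.add (sm_const _)) e he z h, fun e he z h _ => by
        obtain ⟨h1, h2, -⟩ := (mLAP n M _ _ (hz.env _ (e0 i)).sm (sm_const (-(i : ℝ)))).1
          (-(i : ℝ)) e he z h
        rw [h1, add_zero] at h2
        exact (congrArg (fun B => Matrix.PosSemidef (B + _)) h2).mpr
          ((congrArg Matrix.PosSemidef (add_comm _ _)).mp
            ((hz.env _ (e0 i)).kae.pos e he z h).posSemidef)⟩)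
  have k : ∀ i x, (u (i + 1) x ≤ R i x ∧ a (1 / (i + 1 : ℝ)) x + -(i : ℝ) ≤ R i x) ∧
      (R i x ≤ u (i + 1) x + 1 ∨ R i x ≤ a (1 / (i + 1 : ℝ)) x + -(i : ℝ) + 1) := fun i x =>
    ⟨Fin.forall_fin_two.1 (R3 i x).1, Fin.exists_fin_two.1 (R3 i x).2⟩
  have c0 := abs_nonneg C
  have c1 := le_abs_self C
  refine ⟨δ, α, |C| + 1, _, R, δ0, α0, fun i => (e0 i).1.le,
    tendsto_one_div_add_atTop_nhds_zero_nat, R1, fun i e he z hz ho => ?_, fun i x _ => ?_,
    fun i => ?_, fun x hx => ?_, fun i => ⟨i + 2, fun x _ j hj => ?_⟩⟩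
  · exact (congrArg Matrix.PosSemidef (add_assoc _ _ _)).mpr (R2 i e he z hz ho)
  · have := (hu (i + 1)).2.2.1 x
    have := (hz.env _ (e0 i)).np x
    have : (0 : ℝ) ≤ i := i.cast_nonneg
    rcases (k i x).2 with h | h <;> linarith
  · have i1 := (mMU n M H hH.toMet).2.2.2.2.1 ℝ (fun x => Real.exp (α * -u (i + 1) x))
      (Real.continuous_exp.comp (continuous_const.mul (hu _).1.continuous.neg))
    refine (setLIntegral_le_lintegral _ _).trans ((lintegral_mono fun x =>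
      ENNReal.ofReal_le_ofReal (Real.exp_le_exp.2 ?_)).trans ((ofReal_integral_eq_lintegral_ofReal
        i1 (ae_of_all _ fun x => (Real.exp_pos _).le)).ge.trans (ENNReal.ofReal_le_ofReal ?_)))
    · linarith [mul_le_mul_of_nonneg_left (k i x).1.1 α0.le]
    · linarith [(hu (i + 1)).2.2.2]
  · filter_upwards [(tendsto_add_atTop_nat 1).eventually
      (hK {x} isCompact_singleton (singleton_subset_iff.2 hx)),
      tendsto_natCast_atTop_atTop.eventually_ge_atTop (δ * Real.log (N x))] with i h1 h2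
    have := h1 x rfl
    have := (hz.env _ (e0 i)).np x
    rcases (k i x).2 with h | h <;> linarith
  · have := (hz.env _ (e0 i)).mx _ (hu _).1 (mt i j hj) (hu _).2.2.1 x
    have := hz.mono _ (e0 i) _ ⟨(e0 j).1, Nat.one_div_le_one_div hj⟩ x
    have := (e0 i).2
    have := (k i x).1.2
    have : (0 : ℝ) ≤ j := j.cast_nonneg
    rcases (k j x).2 with h | h <;> linarith

end Pool.Agent.Lib.KU
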