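import Pool.Agent.Lib.KU.Blue
import Pool.Agent.Lib.RB9.B_T10

/-! The measure of domination. -/

open scoped Classical Topology ContDiff ComplexOrder Matrix ENNReal
open Set MeasureTheory Complex Metric Filter

set_option linter.unusedVariables false

noncomputable section

namespace Pool.Agent.Lib.KU

open Pool.Agent.Lib.SV (E nsq)
open Pool.Agent.Lib.HS32
open Pool.Agent.Lib.KH (OnK SmK HoK HqB Jo Pol Cmp Wq Lb lden)
open Pool.Agent.Lib.KJ (tq hp PsK Iv Fd Pw Dq Oq)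
open Pool.Agent.Lib.RBR (Bq Tm Nz O0 Oz Frm Adj Mo Ul)

namespace DQ

theorem up {T q C x : ℝ} {N : ℕ} (hT : 0 < T) (hq : 0 < q) (h : T ^ N * q ≤ C) (hx : 0 ≤ x) :
    T ^ (N * x) * q ^ x ≤ C ^ x := by
  rw [Real.rpow_natCast_mul hT.le, ← Real.mul_rpow (by positivity) hq.le]
  exact Real.rpow_le_rpow (by positivity) h hx

theorem dn {T q C x A θ β c κ f : ℝ} {N j : ℕ} (hT : 0 < T) (hq : 0 < q) (h : T ^ N * q ≤ C)
    (hx : x ≤ j) (hA : 0 < A) (hθ : 0 ≤ θ) (hβ : θ ≤ β) (hc : 0 < c) (hκ : 0 < κ) (hf : 0 ≤ f) :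
    f * T ^ (N * j) * κ ≤ C ^ (j - x) / c *
      (κ * T ^ (N * x) * (c * (1 + A) ^ β) * (f * (q ^ (-(j - x)) * A ^ (-θ)))) := by
  have h1 := up hT hq h (sub_nonneg.2 hx)
  have h2 : A ^ θ ≤ (1 + A) ^ β := (Real.rpow_le_rpow hA.le (by linarith) hθ).trans
    (Real.rpow_le_rpow_of_exponent_le (by linarith) hβ)
  have h3 : T ^ (N * j) = T ^ (N * x) * T ^ (N * ((j : ℝ) - x)) := by
    rw [← Real.rpow_add hT, ← Real.rpow_natCast]
    congr 1
    push_cast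
    ring
  have p1 := Real.rpow_pos_of_pos hq (j - x)
  have p2 := Real.rpow_pos_of_pos hA θ
  have p3 := Real.rpow_pos_of_pos hT (N * x)
  have p4 := Real.rpow_pos_of_pos hT (N * (j - x))
  rw [h3, Real.rpow_neg hq.le, Real.rpow_neg hA.le]
  have h4 : T ^ (N * ((j : ℝ) - x)) * 1 ≤ C ^ (j - x) / q ^ (j - x) * ((1 + A) ^ β / A ^ θ) :=
    mul_le_mul ((le_div_iff₀ p1).2 h1) ((one_le_div p2).2 h2) zero_le_one
      (div_nonneg (le_trans (by positivity) h1) p1.le)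
  have h5 := mul_le_mul_of_nonneg_left h4 (show 0 ≤ f * T ^ (N * x) * κ by positivity)
  refine le_trans (le_of_eq (by ring)) (h5.trans (le_of_eq ?_))
  field_simp

end DQ

theorem uDQ (hLDU : St_LDU) (hHQD : St_HQD) (hLW : St_LW) (hKIT : St_KIT) (hHLD : St_HLD)
    (rHOL : RBR.St_HOL) : St_DQ := by
  intro n k r r₁ r₂ M _ X Θ a g η A δ α C ε u ex am lA A0 du
  have sb := am.toSb
  have met := X.fr.kae.toMet
  haveI : IsFiniteMeasure (M.mu X.H) := (mMU n M X.H met).2.1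
  obtain ⟨oO, aO, -, -, mc, kt, -, cκ, cT, cq, -, -, -, C₀, C0, pt⟩ := hKIT n k r r₁ r₂ M X g sb
  obtain ⟨l0, l1, l2, -, lκ, l3⟩ := hLW n k r r₁ r₂ M X g sb
  obtain ⟨t, t1, ht⟩ := X.ad.int
  have d0 : (0 : ℝ) < X.d := Nat.cast_pos.2 X.ad.d0
  have N0 : (0 : ℝ) < X.N := Nat.cast_pos.2 X.ro.N0
  have α0 := du.α0
  have δ0 := du.δ0
  obtain ⟨y, y0, hy⟩ : ∃ y > (0 : ℝ), 1 * t < α / (y * X.d) * (t - 1) := by
    have : 0 < t - 1 := by linarith
    refine ⟨α * (t - 1) / (2 * t * X.d), by positivity, ?_⟩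
    rw [show α / (α * (t - 1) / (2 * t * X.d) * X.d) * (t - 1) = 2 * t by field_simp]
    linarith
  have yd : 0 < y * X.d := by positivity
  obtain ⟨mL, ⟨c, c0, lL⟩, iL⟩ := hLDU n M X.H Θ _ _ δ α C ε u (y * X.d) met
    (isOpen_lt continuous_const X.fr.pol.sm.continuous) (aO.mono fun x h => h.1)
    (fun x _ => by linarith [A0 x]) du yd
  set O := Oz X.p X.σ g with hO
  set Λ := lden fun i x => y * X.d * u i x with hΛ
  have aR : ∀ᵐ x ∂(M.mu X.H).restrict O, x ∈ O := ae_restrict_of_ae aO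
  have cT' : ContinuousOn X.T O := cT.mono fun x h => h.1
  have pw : ∀ (f : M.X → ℝ) (s : ℝ), ContinuousOn f O → (∀ x ∈ O, 0 < f x) →
      ContinuousOn (fun x => f x ^ s) O := fun f s h h' => h.rpow_const fun x hx => .inl (h' x hx).ne'
  obtain ⟨Ap, -, -, s, s0, iA⟩ := l2 A lA
  have mκ := (mc _ cκ).ennreal_ofReal
  obtain ⟨t', t1', ht'⟩ := (rHOL M.X ((M.mu X.H).restrict O) (fun x => ENNReal.ofReal (X.κ x)) t
    mκ.restrict t1 (ne_top_of_le_ne_top ht (le_trans (lintegral_mono_ae (aR.mono fun x hx =>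
      (ENNReal.ofReal_rpow_of_pos (pt x hx).1).le))
      (lintegral_mono_set fun x hx => ⟨hx.1, hx.2.1⟩)))).2 Λ (α / (y * X.d)) 1 mL.restrict
    (by positivity) (ne_top_of_le_ne_top iL (setLIntegral_le_lintegral _ _)) zero_le_one hy
  obtain ⟨σ, σ0, σ1, σ2⟩ : ∃ σ > (0 : ℝ), σ * t' < 1 * (t' - 1) ∧ s * σ ≤ y * X.d * δ := by
    have : 0 < t' - 1 := by linarith
    have p : 0 < t' := by linarith
    refine ⟨min ((t' - 1) / (2 * t')) (y * X.d * δ / s), by positivity, ?_, ?_⟩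
    · have := mul_le_mul_of_nonneg_right (min_le_left ((t' - 1) / (2 * t')) (y * X.d * δ / s)) p.le
      rw [show (t' - 1) / (2 * t') * t' = (t' - 1) / 2 by field_simp] at this
      linarith
    · rw [mul_comm]; exact (le_div_iff₀ s0).1 (min_le_right _ _)
  have mA : ∀ s : ℝ, AEMeasurable (fun x => A x ^ s) (M.mu X.H) := fun s => mc _ (pw A s am.ct Ap)
  have m1 : AEMeasurable (fun x => ENNReal.ofReal (X.κ x) * Λ x ^ (1 : ℝ)) (M.mu X.H) :=
    mκ.mul (mL.pow_const _)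
  obtain ⟨t'', t1'', ht''⟩ := (rHOL M.X ((M.mu X.H).restrict O) _ t' m1.restrict t1' ht').2
    (fun x => ENNReal.ofReal (A x ^ (-s))) 1 σ (mA _).ennreal_ofReal.restrict one_pos
    (by simpa only [Jo, ENNReal.rpow_one] using iA) σ0.le σ1
  have fin := (rHOL M.X ((M.mu X.H).restrict O) _ t''
    (m1.mul ((mA (-s)).ennreal_ofReal.pow_const σ)).restrict t1'' ht'').1
  have θ0 : 0 < s * σ := by positivity
  obtain ⟨x₀, x0, hx₀⟩ : ∃ x₀ ≥ (0 : ℝ), (1 : ℝ) / X.d + y = X.N * x₀ :=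
    ⟨(1 / X.d + y) / X.N, by positivity, by field_simp⟩
  have hq := hHQD n k r r₁ r₂ M X Θ a _ δ α C ε u g y ex du sb y0
  rw [hx₀] at hq
  have cw : ContinuousOn (fun x => X.κ x * X.T x ^ (X.N * x₀)) O :=
    cκ.mul (pw _ _ cT' fun x hx => (pt x hx).2.1)
  have mρ : AEMeasurable (fun x => ENNReal.ofReal (X.κ x * X.T x ^ (X.N * x₀)) * Λ x) (M.mu X.H) :=
    (mc _ cw).ennreal_ofReal.mul mL
  have w0 : ∀ x ∈ O, 0 < X.κ x * X.T x ^ (X.N * x₀) := fun x hx =>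
    mul_pos (pt x hx).1 (Real.rpow_pos_of_pos (pt x hx).2.1 _)
  have lo : ∀ x ∈ O, ENNReal.ofReal (X.κ x * X.T x ^ (X.N * x₀) * (c * (1 + A x) ^ (y * X.d * δ))) ≤
      ENNReal.ofReal (X.κ x * X.T x ^ (X.N * x₀)) * Λ x := fun x hx => by
    rw [ENNReal.ofReal_mul (w0 x hx).le]
    exact mul_le_mul_right (lL x hx.1) _
  have lo' : ∀ x ∈ O, ENNReal.ofReal (X.κ x * X.T x ^ (X.N * x₀) * c) ≤
      ENNReal.ofReal (X.κ x * X.T x ^ (X.N * x₀)) * Λ x := fun x hx =>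
    le_trans (ENNReal.ofReal_le_ofReal (mul_le_mul_of_nonneg_left (le_mul_of_one_le_right c0.le
      (Real.one_le_rpow (by linarith [A0 x]) (by positivity))) (w0 x hx).le)) (lo x hx)
  have lv := l1 _ _ (l1 _ _ lκ (l3 (X.N * x₀)).1) (l0 c c0)
  obtain ⟨ms, -, iv⟩ := kt _ _ mρ lv (aO.mono lo')
  have mq : ∀ s : ℝ, AEMeasurable (fun x => tq X.a X.b x ^ s) (M.mu X.H) := fun s =>
    mc _ (pw _ s cq fun x hx => (pt x hx).2.2.1)
  have m2 : AEMeasurable (fun x => tq X.a X.b x ^ x₀ * A x ^ (-(s * σ))) (M.mu X.H) :=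
    (mq _).mul (mA _)
  have v0 : ∀ x ∈ O, 0 < tq X.a X.b x ^ x₀ * A x ^ (-(s * σ)) := fun x hx =>
    mul_pos (Real.rpow_pos_of_pos (pt x hx).2.2.1 _) (Real.rpow_pos_of_pos (Ap x hx) _)
  refine ⟨_, x₀, s * σ, ⟨ms, hq, x0, θ0, ?_⟩, ⟨g, η, am, rfl, fun f mf f0 hf j => ?_⟩,
    fun j hj F hF h => ?_⟩
  · rw [iv _ m2]
    refine ne_top_of_le_ne_top (ENNReal.mul_ne_top (ENNReal.ofReal_ne_top (r := C₀ ^ x₀)) fin) ?_
    rw [← lintegral_const_mul' _ _ ENNReal.ofReal_ne_top]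
    refine lintegral_mono_ae (aR.mono fun x hx => ?_)
    obtain ⟨p1, p2, p3, -, -, p4, -⟩ := pt x hx
    have b1 := DQ.up p2 p3 p4 x0
    have b2 := Real.rpow_pos_of_pos (Ap x hx) (-(s * σ))
    simp only [Pi.mul_apply]
    rw [ENNReal.rpow_one, ENNReal.ofReal_rpow_of_pos (Real.rpow_pos_of_pos (Ap x hx) _),
      ← Real.rpow_mul (Ap x hx).le, neg_mul, mul_right_comm, mul_right_comm _ (Λ x), ← mul_assoc,
      ← ENNReal.ofReal_mul (w0 x hx).le, ← ENNReal.ofReal_mul p1.le,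
      ← ENNReal.ofReal_mul (by positivity)]
    refine mul_le_mul_left (ENNReal.ofReal_le_ofReal ?_) _
    have := mul_le_mul_of_nonneg_right b1 (mul_pos p1 b2).le
    linarith
  · have lv' := l1 _ _ lv (l1 _ _ (l3 x₀).2.1 ((l2 _ am.hi).2.1 (s * σ) θ0.le))
    obtain ⟨vp, -, -, s', s0', iv'⟩ := l2 _ lv'
    have := hHLD M.X ((M.mu X.H).restrict O) (fun x => ENNReal.ofReal (X.κ x * X.T x ^ (X.N * x₀)) *
      Λ x * ENNReal.ofReal (tq X.a X.b x ^ x₀ * A x ^ (-(s * σ)))) (fun x => ENNReal.ofReal (f x))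
      _ s' (mρ.mul m2.ennreal_ofReal).restrict mf.ennreal_ofReal.restrict
      (((mc _ cw).mul_const c).mul ((mq x₀).mul (mc _ (pw _ (s * σ)
        (am.ct.inv₀ fun x hx => (Ap x hx).ne') fun x hx => inv_pos.2 (Ap x hx))))).restrict s0'
      (aR.mono fun x hx => ⟨vp x hx, by
        simp only [Pi.mul_apply, Pi.inv_apply]
        rw [ENNReal.ofReal_mul (mul_pos (w0 x hx) c0).le, Real.inv_rpow (Ap x hx).le,
          ← Real.rpow_neg (Ap x hx).le]
        exact mul_le_mul_left (lo' x hx) _⟩) iv' (fun i => by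
        have := hf i
        rw [iv (fun x => tq X.a X.b x ^ x₀ * A x ^ (-(s * σ)) * f x ^ i)
          (m2.mul (mf.pow_const i))] at this
        refine ne_top_of_le_ne_top this (lintegral_mono_ae (aR.mono fun x hx => le_of_eq ?_))
        beta_reduce
        rw [ENNReal.ofReal_mul (v0 x hx).le, ENNReal.ofReal_pow (f0 x), mul_assoc]) j
    simpa only [Jo, ENNReal.ofReal_pow (f0 _)] using this
  · have cF : ContinuousOn F O :=
      RB9.T10.cont fun d hd w hw ho => (hF d hd w hw ho).self_of_nhds.continuousAt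
    have m3 : AEMeasurable (fun x => normSq (F x) * (tq X.a X.b x ^ (-(j - x₀)) *
        A x ^ (-(s * σ)))) (M.mu X.H) :=
      (mc _ (continuous_normSq.comp_continuousOn cF)).mul ((mq _).mul (mA _))
    rw [iv _ m3] at h
    refine ne_top_of_le_ne_top (ENNReal.mul_ne_top
      (ENNReal.ofReal_ne_top (r := C₀ ^ (j - x₀) / c)) h) ?_
    rw [← lintegral_const_mul' _ _ ENNReal.ofReal_ne_top]
    refine lintegral_mono_ae (aR.mono fun x hx => ?_)
    obtain ⟨p1, p2, p3, -, -, p4, -⟩ := pt x hx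
    refine (ENNReal.ofReal_le_ofReal (DQ.dn p2 p3 p4 hj (Ap x hx) θ0.le σ2 c0 p1
      (normSq_nonneg (F x)))).trans ?_
    have := A0 x
    rw [ENNReal.ofReal_mul (by positivity), ENNReal.ofReal_mul (mul_pos (w0 x hx) (by positivity)).le]
    exact mul_le_mul_right (mul_le_mul_left (lo x hx) _) _

end Pool.Agent.Lib.KU
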