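import Pool.Agent.Lib.KU.Blue

/-! Project ku, row EXT: bounded sections extend. -/

open scoped Classical Topology ContDiff ComplexOrder Matrix ENNReal
open Set MeasureTheory Complex Metric Filter

noncomputable section

namespace Pool.Agent.Lib.KU

open Pool.Agent.Lib.SV (E nsq)
open Pool.Agent.Lib.HS32
open Pool.Agent.Lib.KH (HoK Jo)
open Pool.Agent.Lib.KJ (tq)
open Pool.Agent.Lib.RBR (O0 Oz)

theorem uEXT (hKIT : St_KIT) (hLW : St_LW) (hREM : St_REM) (rKIT : RBR.St_KIT) : St_EXT := by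
  intro n k r r₁ r₂ M _ X g j sb
  obtain ⟨-, -, -, -, -, -, -, -, -, fam, k11, -⟩ :=
    rKIT n k M X.H X.p X.σ X.z X.θ X.T X.m X.D X.C X.fr
  obtain ⟨og, -, k3, -, -, -, -, -, cT, -, -, -, -, C₀, C0, kb⟩ := hKIT n k r r₁ r₂ M X g sb
  have : IsFiniteMeasure (M.mu X.H) := (mMU n M X.H X.fr.kae.toMet).2.1
  have bd : ∀ (F : M.X → ℂ) (C : ℝ), (∀ x ∈ Oz X.p X.σ g, normSq (F x) ≤ C * tq X.a X.b x ^ j) →
      ∀ x ∈ Oz X.p X.σ g, normSq (F x) * X.T x ^ (X.N * j) ≤ |C| * C₀ ^ j := fun F C h x hx => by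
    obtain ⟨-, t0, q0, -, -, le, -⟩ := kb x hx
    have a1 : normSq (F x) ≤ |C| * tq X.a X.b x ^ j :=
      (h x hx).trans (mul_le_mul_of_nonneg_right (le_abs_self C) (pow_pos q0 j).le)
    refine (mul_le_mul_of_nonneg_right a1 (pow_pos t0 _).le).trans ?_
    rw [mul_assoc, pow_mul, ← mul_pow, mul_comm (tq X.a X.b x)]
    exact mul_le_mul_of_nonneg_left
      (pow_le_pow_left₀ (mul_pos (pow_pos t0 _) q0).le le j) (abs_nonneg C)
  have fin : ∀ (f : M.X → ℝ) (c : ℝ), (∀ x ∈ Oz X.p X.σ g, f x ≤ c) →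
      Jo M X.H (Oz X.p X.σ g) f ≠ ⊤ := fun f c h => by
    refine ne_top_of_le_ne_top (b := ∫⁻ _ in Oz X.p X.σ g, ENNReal.ofReal c ∂M.mu X.H) ?_
      (setLIntegral_mono' og.measurableSet fun x hx => ENNReal.ofReal_le_ofReal (h x hx))
    rw [setLIntegral_const]
    exact ENNReal.mul_ne_top ENNReal.ofReal_ne_top (measure_ne_top _ _)
  refine ⟨fun F hF ⟨C, hC⟩ => ?_, ?_⟩
  · obtain ⟨s₀, rem⟩ := X.fr.rem
    obtain ⟨G, b1, b2⟩ := rem g sb.tm sb.nz (X.N * j) 0 F hF (fin _ (|C| * C₀ ^ j) fun x hx => by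
      rw [pow_zero, mul_one]; exact bd F C hC x hx)
    obtain ⟨s', tm⟩ := k11 (X.N * j) (s₀ * (0 + 1))
    have cG : ContinuousOn (fun x => normSq (G x)) {x | 0 < X.p x} :=
      (fam Unit (fun _ => G) fun _ => (tm G b1).2).2.2.2.1.congr fun x _ => by simp [nsq]
    refine ⟨G, ⟨b1.1, |C| * C₀ ^ j, fun x hx => ?_⟩, b2⟩
    rw [pow_zero, mul_one]
    exact k3 (fun x => normSq (G x) * X.T x ^ (X.N * j)) (fun _ => |C| * C₀ ^ j)
      (cG.mul (cT.pow _)) continuousOn_const (fun y hy => by rw [b2 y hy]; exact bd F C hC y hy) x hx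
  · obtain ⟨-, -, -, -, -, lT⟩ := hLW n k r r₁ r₂ M X g sb
    obtain ⟨V, fV, hV⟩ := (hREM n k r r₁ r₂ M X g _ sb (lT ((X.N * j : ℕ) : ℝ)).1).2
    refine ⟨V, fV, fun F ⟨hF, z, C, hC⟩ => hV ⟨hF, z, fin _ (|C| * C₀ ^ j) fun x hx => ?_⟩⟩
    rw [Real.rpow_natCast]
    exact bd F C hC x hx

end Pool.Agent.Lib.KU
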