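import Pool.Agent.Lib.KU.Blue

/-! Project ku: the condition of Skoda. -/

open scoped Classical Topology ENNReal
open Set MeasureTheory Complex Filter

set_option linter.unusedVariables false

noncomputable section

namespace Pool.Agent.Lib.KU

open Pool.Agent.Lib.SV (E nsq)
open Pool.Agent.Lib.HS32
open Pool.Agent.Lib.KH (Jo)
open Pool.Agent.Lib.KJ (tq hp)
open Pool.Agent.Lib.RBR (Bq Tm Nz O0 Oz Mo Ul)

namespace FIN

theorem add {Y : Type} [MeasurableSpace Y] {μ : Measure Y} {f g : Y → ℝ} (hg : AEMeasurable g μ)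
    (h1 : ∫⁻ x, ENNReal.ofReal (f x) ∂μ ≠ ⊤) (h2 : ∫⁻ x, ENNReal.ofReal (g x) ∂μ ≠ ⊤) :
    ∫⁻ x, ENNReal.ofReal (f x + g x) ∂μ ≠ ⊤ := by
  refine ne_top_of_le_ne_top ?_ (lintegral_mono fun x => ENNReal.ofReal_add_le)
  rw [lintegral_add_right' _ hg.ennreal_ofReal]
  exact ENNReal.add_ne_top.2 ⟨h1, h2⟩

theorem mul {Y : Type} [MeasurableSpace Y] {μ : Measure Y} {f : Y → ℝ} {K : ℝ} (hK : 0 ≤ K)
    (h1 : ∫⁻ x, ENNReal.ofReal (f x) ∂μ ≠ ⊤) : ∫⁻ x, ENNReal.ofReal (K * f x) ∂μ ≠ ⊤ := by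
  simp only [ENNReal.ofReal_mul hK]
  rw [lintegral_const_mul' _ _ ENNReal.ofReal_ne_top]
  exact ENNReal.mul_ne_top ENNReal.ofReal_ne_top h1

theorem young {τ : ℝ} (hτ : 1 < τ) : ∃ m : ℕ, ∀ κ F : ℝ, 0 < κ → 0 ≤ F →
    κ * F ≤ κ ^ τ + (1 + F ^ m) := by
  obtain ⟨m, hm⟩ := exists_nat_ge (1 + 1 / (τ - 1))
  refine ⟨m, fun κ F hκ hF => ?_⟩
  have h0 : 0 < τ - 1 := by linarith
  have h1 : 0 ≤ κ ^ τ := Real.rpow_nonneg hκ.le _
  have h2 : 0 ≤ F ^ m := pow_nonneg hF _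
  rcases le_total F (κ ^ (τ - 1)) with h | h
  · have h3 : κ * κ ^ (τ - 1) = κ ^ τ := by
      rw [Real.rpow_sub_one hκ.ne', mul_div_cancel₀ _ hκ.ne']
    have := mul_le_mul_of_nonneg_left h hκ.le
    linarith
  · have hF0 : 0 < F := (Real.rpow_pos_of_pos hκ _).trans_le h
    have h3 : κ ≤ F ^ (1 / (τ - 1)) := by
      have := Real.rpow_le_rpow (Real.rpow_nonneg hκ.le _) h (one_div_pos.2 h0).le
      rwa [← Real.rpow_mul hκ.le, mul_one_div_cancel h0.ne', Real.rpow_one] at this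
    have h4 : κ * F ≤ F ^ (1 + 1 / (τ - 1)) := by
      rw [Real.rpow_add hF0, Real.rpow_one, mul_comm]
      exact mul_le_mul_of_nonneg_left h3 hF
    have h5 : F ^ (1 + 1 / (τ - 1)) ≤ 1 + F ^ m := by
      rcases le_total F 1 with h6 | h6
      · have := Real.rpow_le_one hF h6 (z := 1 + 1 / (τ - 1)) (by positivity)
        linarith
      · have := Real.rpow_le_rpow_of_exponent_le h6 hm
        rw [Real.rpow_natCast] at this
        linarith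
    linarith

theorem amp {N h A : ℝ} (k : ℕ) (hN : 0 < N) (hh : 0 < h) (hA : N ^ 2 * h ≤ A) :
    N ^ k * A ^ (-((k : ℝ) / 2)) ≤ (√h ^ k)⁻¹ := by
  have hr : 0 < √h := Real.sqrt_pos.2 hh
  have h1 : (N * √h) ^ 2 ≤ A := by rw [mul_pow, Real.sq_sqrt hh.le]; exact hA
  have h2 : A ^ (-((k : ℝ) / 2)) ≤ ((N * √h) ^ 2) ^ (-((k : ℝ) / 2)) :=
    Real.rpow_le_rpow_of_nonpos (by positivity) h1 (neg_nonpos.2 (by positivity))
  have h3 : ((N * √h) ^ 2) ^ (-((k : ℝ) / 2)) = ((N * √h) ^ k)⁻¹ := by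
    rw [← Real.rpow_natCast, ← Real.rpow_mul (by positivity), ← Real.rpow_natCast,
      ← Real.rpow_neg (by positivity)]
    congr 1
    push_cast
    ring
  rw [h3] at h2
  refine (mul_le_mul_of_nonneg_left h2 (by positivity)).trans (le_of_eq ?_)
  rw [mul_pow]
  field_simp

theorem core {G β N h A F d κ u A₁ C C' c₂ q : ℝ} (e a : ℕ) (hc : c₂ = ((e + a : ℕ) : ℝ) / 2)
    (hβ : 0 ≤ β) (hN : 0 < N) (hh : 0 < h) (hA : N ^ 2 * h ≤ A) (hF : 0 ≤ F) (hd : 0 < d)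
    (hu : 0 < u) (hG : G * q ≤ |A₁| * u) (hB : β ≤ C * h ^ e) (hκ : d ≤ C' * κ) :
    G * (β * N ^ (e + a)) * (q * A ^ (-c₂) * F * d) ≤
      |A₁| * (β * (u ^ 2 * ((h ^ a)⁻¹ * d)) + |C| * C' * (κ * F ^ 2)) := by
  have hr : 0 < √h := Real.sqrt_pos.2 hh
  have hA0 : 0 < A := lt_of_lt_of_le (by positivity) hA
  have h1 := amp (e + a) hN hh hA
  rw [← hc] at h1
  have h2 : G * (β * N ^ (e + a)) * (q * A ^ (-c₂) * F * d) =
      (G * q) * ((N ^ (e + a) * A ^ (-c₂)) * (β * F * d)) := by ring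
  have h3 : 0 ≤ N ^ (e + a) * A ^ (-c₂) := by positivity
  have h4 : (G * q) * ((N ^ (e + a) * A ^ (-c₂)) * (β * F * d)) ≤
      (|A₁| * u) * ((√h ^ (e + a))⁻¹ * (β * F * d)) :=
    (mul_le_mul_of_nonneg_right hG (by positivity)).trans
      (mul_le_mul_of_nonneg_left (mul_le_mul_of_nonneg_right h1 (by positivity)) (by positivity))
  have h5 : (u * (√h ^ a)⁻¹) * (F * (√h ^ e)⁻¹) ≤ u ^ 2 * (h ^ a)⁻¹ + F ^ 2 * (h ^ e)⁻¹ := by
    have e1 : ∀ j : ℕ, (h ^ j)⁻¹ = (√h ^ j)⁻¹ ^ 2 := fun j => by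
      rw [inv_pow, ← pow_mul, mul_comm, pow_mul, Real.sq_sqrt hh.le]
    rw [e1, e1, ← mul_pow, ← mul_pow]
    have p1 : 0 ≤ (u * (√h ^ a)⁻¹) * (F * (√h ^ e)⁻¹) := by positivity
    nlinarith [sq_nonneg (u * (√h ^ a)⁻¹ - F * (√h ^ e)⁻¹)]
  have h6 : β * (h ^ e)⁻¹ ≤ |C| := by
    rw [← div_eq_mul_inv, div_le_iff₀ (by positivity)]
    exact hB.trans (mul_le_mul_of_nonneg_right (le_abs_self C) (by positivity))
  have h7 : β * (h ^ e)⁻¹ * (d * F ^ 2) ≤ |C| * (C' * κ * F ^ 2) :=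
    mul_le_mul h6 (mul_le_mul_of_nonneg_right hκ (by positivity)) (by positivity) (abs_nonneg _)
  have h8 : (|A₁| * u) * ((√h ^ (e + a))⁻¹ * (β * F * d)) =
      |A₁| * ((β * d) * ((u * (√h ^ a)⁻¹) * (F * (√h ^ e)⁻¹))) := by
    rw [pow_add, mul_inv]; ring
  rw [h2]
  refine h4.trans ?_
  rw [h8]
  refine mul_le_mul_of_nonneg_left ?_ (abs_nonneg _)
  have h9 := mul_le_mul_of_nonneg_left h5 (show 0 ≤ β * d by positivity)
  have e2 : β * d * (u ^ 2 * (h ^ a)⁻¹ + F ^ 2 * (h ^ e)⁻¹) =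
      β * (u ^ 2 * ((h ^ a)⁻¹ * d)) + β * (h ^ e)⁻¹ * (d * F ^ 2) := by ring
  have e3 : |C| * (C' * κ * F ^ 2) = |C| * C' * (κ * F ^ 2) := by ring
  linarith

theorem gam {G a b u A₁ : ℝ} (Q : ℕ) (ha : 0 < a) (hb : 0 < b)
    (h : G * b ^ Q * Real.exp u ≤ A₁ * a ^ Q) : G * ((a / b) ^ Q)⁻¹ ≤ |A₁| * Real.exp (-u) := by
  have h1 : G * b ^ Q * Real.exp u ≤ |A₁| * a ^ Q :=
    h.trans (mul_le_mul_of_nonneg_right (le_abs_self _) (by positivity))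
  have hu := Real.exp_pos u
  rw [Real.exp_neg, div_pow, inv_div, ← mul_div_assoc, ← div_eq_mul_inv,
    div_le_div_iff₀ (by positivity) hu]
  exact h1

end FIN

theorem uFIN (hB1 : St_B1) (hKIT : St_KIT) (rMW : RBR.St_MW) (rKIT : RBR.St_KIT) : St_FIN := by
  intro n k r r₁ r₂ r₀ M _ X g η A N₁ s c S
  have hSb : Sb X g := S.toAm.toSb
  obtain ⟨B, e, a, C, tB, nB, a0, hB, hJ⟩ := hB1 n k r r₁ r₂ M X g (2 * (c * X.c)) hSb
    (by have := X.ro.c0; positivity)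
  obtain ⟨hO, hae, -, -, hme, -, -, cκ, -, ctq, -, -, -, C', C0, hC⟩ := hKIT n k r r₁ r₂ M X g hSb
  obtain ⟨-, -, -, -, m0, -, -, -, tm, tf, tb, -⟩ :=
    rKIT n k M X.H X.p X.σ X.z X.θ X.T X.m X.D X.C X.fr
  have hW := (rMW n k r r₁ r₂ M X).1 0 0 le_rfl (by simp)
  have nη : Nz X.p η := by
    obtain ⟨x, hx⟩ : ∃ x, x ∈ Oz X.p X.σ g := by
      have := ae_neBot.2 m0
      exact hae.exists
    exact ⟨x, hx.1, (S.lo x hx).1⟩
  have hη := tf (Fin (e + a)) (fun _ => η) fun _ => S.tη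
  simp only [Finset.prod_const, Finset.card_univ, Fintype.card_fin] at hη
  refine ⟨fun x => B x * η x ^ (e + a), ((e + a : ℕ) : ℝ) / 2, (tm _ _ tB hη.1).2.1,
    (tm _ _ tB hη.1).2.2 nB (hη.2.1 fun _ => nη), by positivity, fun Q t γ Q0 hγ => ?_⟩
  obtain ⟨A₁, hA⟩ := X.ro.r2 γ Q c Q0 hγ
  obtain ⟨τ, hτ, hint⟩ := X.ad.int
  obtain ⟨m, hm⟩ := FIN.young hτ
  have cs : ContinuousOn (fun x => nsq (s · x)) (Oz X.p X.σ g) :=
    (tf _ s fun l => (((tb _ _).choose_spec _ (S.sec l)).2)).2.2.2.1.mono fun x hx => hx.1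
  have cf : ∀ j : ℕ, ContinuousOn (fun x => (tq X.a X.b x ^ N₁ / nsq (s · x)) ^ j)
      (Oz X.p X.σ g) := fun j => ((ctq.pow _).div cs fun x hx => (S.pos x hx).ne').pow _
  have ck : ContinuousOn (fun x => X.κ x ^ τ) (Oz X.p X.σ g) :=
    cκ.rpow_const fun x hx => Or.inl (hC x hx).1.ne'
  have j1 : Jo M X.H (Oz X.p X.σ g) (fun x => X.κ x ^ τ) ≠ ⊤ :=
    ne_top_of_le_ne_top hint (lintegral_mono_set fun x hx => ⟨hx.1, hx.2.1⟩)
  have c2 := (cf 0).add (cf (t * 2 * m))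
  have j2 := FIN.add (hme _ (cf (t * 2 * m))).restrict (S.mom 0) (S.mom (t * 2 * m))
  have j3 := FIN.add (hme _ c2).restrict j1 j2
  have j4 := FIN.mul (K := |C| * C') (by positivity) j3
  have j5 := FIN.add ((hme _ (ck.add c2)).restrict.const_mul (|C| * C')) hJ j4
  refine ne_top_of_le_ne_top (FIN.mul (abs_nonneg A₁) j5) (lintegral_mono_ae ?_)
  filter_upwards [ae_restrict_mem hO.measurableSet, ae_restrict_of_ae hA,
    ae_restrict_of_ae X.ro.fin] with x hx h1 h2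
  refine ENNReal.ofReal_le_ofReal ?_
  obtain ⟨k0, -, q0, p0, d0, -, dk, -⟩ := hC x hx
  have na : 0 ≤ nsq (X.a · x) := Finset.sum_nonneg fun _ _ => normSq_nonneg _
  have nb : 0 ≤ nsq (X.b · x) := Finset.sum_nonneg fun _ _ => normSq_nonneg _
  have pa : 0 < nsq (X.a · x) := lt_of_le_of_ne na fun h => by
    rw [hp, ← h, zero_mul] at p0
    exact lt_irrefl _ p0
  have pb : 0 < nsq (X.b · x) := lt_of_le_of_ne nb fun h => by
    rw [hp, ← h, mul_zero] at p0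
    exact lt_irrefl _ p0
  have hG := FIN.gam Q pa pb (h1 _ ((hW.2 x (hSb.sub hx)).2 h2).2.1)
  have f0 : 0 ≤ (tq X.a X.b x ^ N₁ / nsq (s · x)) ^ t :=
    pow_nonneg (div_pos (pow_pos q0 _) (S.pos x hx)).le _
  have h3 := FIN.core (κ := X.κ x) e a rfl (normSq_nonneg (B x)) (normSq_pos.2 (S.lo x hx).1) p0
    (S.lo x hx).2 f0 d0 (Real.exp_pos _) hG (hB x hx) dk
  have h4 := hm _ _ k0 (sq_nonneg ((tq X.a X.b x ^ N₁ / nsq (s · x)) ^ t))
  rw [← Real.exp_nat_mul] at h3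
  rw [map_mul, map_mul, map_pow]
  refine h3.trans (mul_le_mul_of_nonneg_left (add_le_add (le_of_eq ?_)
    (mul_le_mul_of_nonneg_left ?_ (by positivity))) (abs_nonneg _))
  · have : ((2 : ℕ) : ℝ) * -(c * X.c * Ul X.U (X.z x)) = -(2 * (c * X.c) * Ul X.U (X.z x)) := by
      push_cast
      ring
    rw [this, mul_assoc]
  · simpa only [pow_zero, pow_mul, Pi.add_apply] using h4

end Pool.Agent.Lib.KU
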