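import Pool.Agent.Lib.KU.Blue

/-! Project ku, row GRN: the levels may be taken divisible by `N`. -/

open scoped Classical Topology ContDiff ComplexOrder Matrix ENNReal
open Set MeasureTheory Complex Metric Filter

noncomputable section

namespace Pool.Agent.Lib.KU

open Pool.Agent.Lib.HS32
open Pool.Agent.Lib.RBR (Bq Tm Nz Mo)

theorem uGRN (rKIT : RBR.St_KIT) : St_GRN := by
  intro n k r r₁ r₂ M _ X c δ hG
  obtain ⟨-, -, hT, -, -, -, -, hc, hop, hfin, hbt, -⟩ :=
    rKIT n k M X.H X.p X.σ X.z X.θ X.T X.m X.D X.C X.fr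
  have tm : ∀ j s f, Bq X.p X.T j s f → Tm X.p f := fun j s f h => by
    obtain ⟨s', h'⟩ := hbt j s
    exact (h' f h).2
  have mul : ∀ j s j' s' f f', Bq X.p X.T j s f → Bq X.p X.T j' s' f' →
      Bq X.p X.T (j + j') (s + s') fun x => f x * f' x := fun j s j' s' f f' h h' => by
    refine ⟨(hop f f' (tm _ _ _ h) (tm _ _ _ h')).2.1.1, ?_⟩
    obtain ⟨C, hC⟩ := h.2
    obtain ⟨C', hC'⟩ := h'.2
    refine ⟨C * C', fun x hx => ?_⟩
    have h0 : ∀ (a b : ℕ) (w : ℂ), 0 ≤ normSq w * (X.T x ^ a * X.p x ^ b) := fun a b w =>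
      mul_nonneg (normSq_nonneg _) (mul_nonneg (pow_nonneg (hT x hx).le _) (pow_nonneg hx.le _))
    calc normSq (f x * f' x) * (X.T x ^ (j + j') * X.p x ^ (s + s'))
        = normSq (f x) * (X.T x ^ j * X.p x ^ s) * (normSq (f' x) * (X.T x ^ j' * X.p x ^ s')) := by
          rw [map_mul, pow_add, pow_add]; ring
      _ ≤ C * C' := mul_le_mul (hC x hx) (hC' x hx) (h0 _ _ _) ((h0 _ _ _).trans (hC x hx))
  have pw : ∀ j f γ, Bq X.p X.T j c f → Bq X.p X.T j c γ → ∀ i : ℕ,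
      Bq X.p X.T ((i + 1) * j) ((i + 1) * c) fun x => f x * γ x ^ i := fun j f γ h h' i => by
    induction i with
    | zero => simpa using h
    | succ i ih =>
      have h2 := mul _ _ _ _ _ _ ih h'
      have e : (fun x => f x * γ x ^ (i + 1)) = fun x => f x * γ x ^ i * γ x := by
        funext x; ring
      rw [e, add_mul (i + 1) 1 j, add_mul (i + 1) 1 c, one_mul, one_mul]
      exact h2
  have sm : ∀ (m : ℕ) (f : Fin m → M.X → ℂ) (a : Fin m → ℂ), (∀ s, Tm X.p (f s)) →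
      ∀ t : Finset (Fin m), Tm X.p fun x => ∑ s ∈ t, a s * f s x := fun m f a hf t => by
    induction t using Finset.induction_on with
    | empty => simpa using hc 0
    | insert s t hs ih =>
      simp only [Finset.sum_insert hs]
      exact (hop _ _ (hop _ _ (hc (a s)) (hf s)).2.1 ih).1
  obtain ⟨C, hC⟩ := hG
  obtain ⟨i, hi⟩ : ∃ i, X.N = i + 1 := ⟨X.N - 1, by have := X.ro.N0; omega⟩
  refine ⟨(i + 1) * c, C, hC.mono ?_⟩
  rintro j ⟨m, g, h1, h2, h3⟩
  simp only [one_mul] at h3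
  have hm : 0 < m := by
    rcases Nat.eq_zero_or_pos m with h | h
    · rw [h, mul_zero] at h1
      exact absurd h1 (not_le.2 (pow_pos (Nat.succ_pos j) δ))
    · exact h
  have hz : Nz X.p (g ⟨0, hm⟩) := by
    by_contra hn
    have h4 := h2 (Pi.single ⟨0, hm⟩ 1) fun x hx => by
      rw [Finset.sum_eq_single ⟨0, hm⟩ (fun s _ hs => by rw [Pi.single_eq_of_ne hs, zero_mul])
        (fun h => absurd (Finset.mem_univ _) h), Pi.single_eq_same, one_mul]
      by_contra h5
      exact hn ⟨x, hx, h5⟩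
    have h6 := congrFun h4 ⟨0, hm⟩
    rw [Pi.single_eq_same] at h6
    exact one_ne_zero h6
  have hp := hfin (Fin i) (fun _ => g ⟨0, hm⟩) fun _ => tm _ _ _ (h3 _)
  refine ⟨m, fun s x => g s x * g ⟨0, hm⟩ x ^ i, h1, fun a ha => h2 a fun x hx => ?_, fun s => ?_⟩
  · by_contra h5
    obtain ⟨y, hy, h6⟩ := (hop _ _ (sm m g a (fun s => tm _ _ _ (h3 s)) Finset.univ) hp.1).2.2
      ⟨x, hx, h5⟩ (hp.2.1 fun _ => hz)
    apply h6
    have h7 := ha y hy
    simp only [Finset.prod_const, Finset.card_univ, Fintype.card_fin, Finset.sum_mul, mul_assoc]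
    exact h7
  · rw [hi]
    exact pw j _ _ (h3 s) (h3 _) i

end Pool.Agent.Lib.KU
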