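import Pool.Agent.Lib.KU.Blue

/-! Project ku, row GRW: a tame function has polynomial growth on the base. -/

open scoped Classical Topology ContDiff ComplexOrder Matrix ENNReal
open Set MeasureTheory Complex Metric Filter

noncomputable section

namespace Pool.Agent.Lib.KU

open Pool.Agent.Lib.SV (E nsq)
open Pool.Agent.Lib.HS32
open Pool.Agent.Lib.RB9 (Pz ev)

namespace GRW

variable {Y : Type} {O : Set Y} {w : Y → ℝ} {f g : Y → ℝ} {k : ℕ}

/-- Polynomial growth in `w`. -/
def Pg (O : Set Y) (w f : Y → ℝ) : Prop := ∃ (b : ℕ) (C : ℝ), 0 ≤ C ∧ ∀ x ∈ O, f x ≤ C * w x ^ b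

theorem Pg.le (h : Pg O w g) (h' : ∀ x ∈ O, f x ≤ g x) : Pg O w f :=
  let ⟨b, C, h0, h1⟩ := h
  ⟨b, C, h0, fun x hx => (h' x hx).trans (h1 x hx)⟩

theorem pg_const (c : ℝ) : Pg O w fun _ => c := ⟨0, |c|, abs_nonneg c, fun _ _ => by
  simpa using le_abs_self c⟩

theorem Pg.add (hw : ∀ x, 1 ≤ w x) (h : Pg O w f) (h' : Pg O w g) : Pg O w fun x => f x + g x := by
  obtain ⟨b, C, h0, h1⟩ := h
  obtain ⟨b', C', h0', h1'⟩ := h'
  refine ⟨b + b', C + C', by positivity, fun x hx => ?_⟩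
  rw [add_mul]
  exact add_le_add ((h1 x hx).trans (mul_le_mul_of_nonneg_left
    (pow_le_pow_right₀ (hw x) (Nat.le_add_right _ _)) h0)) ((h1' x hx).trans
      (mul_le_mul_of_nonneg_left (pow_le_pow_right₀ (hw x) (Nat.le_add_left _ _)) h0'))

theorem Pg.mul (hw : ∀ x, 1 ≤ w x) (h : Pg O w f) (h' : Pg O w g) (hg : ∀ x, 0 ≤ g x) :
    Pg O w fun x => f x * g x := by
  obtain ⟨b, C, h0, h1⟩ := h
  obtain ⟨b', C', h0', h1'⟩ := h'
  refine ⟨b + b', C * C', by positivity, fun x hx => (mul_le_mul (h1 x hx) (h1' x hx) (hg x)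
    (mul_nonneg h0 (pow_nonneg (zero_le_one.trans (hw x)) _))).trans_eq (by ring)⟩

theorem one_le (y : E k) : 1 ≤ 1 + nsq y :=
  le_add_of_nonneg_right (Finset.sum_nonneg fun _ _ => normSq_nonneg _)

theorem pg_eval (z : Y → E k) (Q : MvPolynomial (Fin k) ℂ) :
    Pg O (fun x => 1 + nsq (z x)) fun x => ‖MvPolynomial.eval (z x) Q‖ := by
  induction Q using MvPolynomial.induction_on with
  | C a => simpa using pg_const ‖a‖
  | add p q hp hq =>
    exact (hp.add (fun _ => one_le _) hq).le fun x _ => by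
      rw [map_add]
      exact norm_add_le _ _
  | mul_X p i hp =>
    refine (hp.mul (g := fun x => ‖z x i‖) (fun _ => one_le _) ⟨1, 1, zero_le_one, fun x _ => ?_⟩
      fun _ => norm_nonneg _).le fun x _ => by rw [map_mul, MvPolynomial.eval_X, norm_mul]
    have : normSq (z x i) ≤ nsq (z x) :=
      Finset.single_le_sum (fun j _ => normSq_nonneg (z x j)) (Finset.mem_univ i)
    rw [normSq_eq_norm_sq] at this
    nlinarith [sq_nonneg (‖z x i‖ - 1), sq_nonneg ‖z x i‖]

theorem pg_root {z : Y → E k} {θ : Y → ℂ} {m : Pz k} (hm : m.Monic)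
    (h : ∀ x ∈ O, ev m (z x) (θ x) = 0) : Pg O (fun x => 1 + nsq (z x)) fun x => ‖θ x‖ := by
  have s : ∀ s : Finset ℕ, Pg O (fun x => 1 + nsq (z x))
      fun x => ∑ i ∈ s, ‖MvPolynomial.eval (z x) (m.coeff i)‖ := fun s => by
    induction s using Finset.induction_on with
    | empty => simpa using pg_const 0
    | insert a s ha ih =>
      simpa only [Finset.sum_insert ha] using (pg_eval z _).add (fun _ => one_le _) ih
  refine ((s (Finset.range m.natDegree)).add (fun _ => one_le _) (pg_const 1)).le fun x hx => ?_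
  have h1 := hm.map (MvPolynomial.eval (z x))
  have h2 := Polynomial.IsRoot.norm_lt_cauchyBound h1.ne_zero (a := θ x)
    ((Polynomial.eval_map _ _).trans (h x hx))
  rw [Polynomial.cauchyBound, h1.leadingCoeff, nnnorm_one, div_one, hm.natDegree_map] at h2
  have h3 : (Finset.range m.natDegree).sup (fun i => ‖(m.map (MvPolynomial.eval (z x))).coeff i‖₊) ≤
      ∑ i ∈ Finset.range m.natDegree, ‖MvPolynomial.eval (z x) (m.coeff i)‖₊ :=
    Finset.sup_le fun i hi => by
      rw [Polynomial.coeff_map]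
      exact Finset.single_le_sum (f := fun i => ‖MvPolynomial.eval (z x) (m.coeff i)‖₊)
        (fun _ _ => zero_le) hi
  simpa using NNReal.coe_le_coe.2 (h2.le.trans (add_le_add_left h3 1))

theorem pg_ev {z : Y → E k} {θ : Y → ℂ} (h : Pg O (fun x => 1 + nsq (z x)) fun x => ‖θ x‖)
    (R : Pz k) : Pg O (fun x => 1 + nsq (z x)) fun x => ‖ev R (z x) (θ x)‖ := by
  induction R using Polynomial.induction_on with
  | C a => simpa only [ev, Polynomial.eval₂_C] using pg_eval z a
  | add p q hp hq =>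
    exact (hp.add (fun _ => one_le _) hq).le fun x _ => by
      rw [ev, Polynomial.eval₂_add]
      exact norm_add_le _ _
  | monomial i a hp =>
    exact (hp.mul (fun _ => one_le _) h fun _ => norm_nonneg _).le fun x _ => by
      rw [ev, pow_succ, ← mul_assoc, Polynomial.eval₂_mul_X, norm_mul, ev]

end GRW

open GRW in
theorem uGRW : St_GRW := by
  intro n k r r₁ r₂ M _ X F hF
  obtain ⟨Q, R, hQ, h⟩ := X.fr.fn F hF
  have h1 := pg_eval (O := {x | 0 < X.p x}) X.z Q
  have h2 := pg_ev (pg_root (O := {x | 0 < X.p x}) X.fr.al.mon X.fr.al.rt) R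
  obtain ⟨b, C, -, h3⟩ := (h1.mul (fun _ => one_le _) h1 fun _ => norm_nonneg _).add
    (fun _ => one_le _) (h2.mul (fun _ => one_le _) h2 fun _ => norm_nonneg _)
  refine ⟨Q, b, C, hQ, fun x hx => ?_⟩
  rw [h x hx, normSq_eq_norm_sq, normSq_eq_norm_sq, sq, sq]
  exact ⟨(le_add_of_nonneg_right (mul_self_nonneg _)).trans (h3 x hx),
    (le_add_of_nonneg_left (mul_self_nonneg _)).trans (h3 x hx)⟩

end Pool.Agent.Lib.KU
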