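import Pool.Agent.Lib.KU.Blue

/-! Row HLD: the moments do not depend on the density. -/

open scoped ENNReal
open MeasureTheory

namespace Pool.Agent.Lib.KU

namespace HLD

theorem pt {W f : ℝ≥0∞} {v s : ℝ} {t u : ℕ} (hs : 0 < s) (hu : (t : ℝ) ≤ u * s) (hv : 0 < v)
    (hW : ENNReal.ofReal v ≤ W) :
    f ^ t ≤ 1 + W * f ^ (u + t) + ENNReal.ofReal (v ^ (-s)) := by
  rcases le_total f 1 with h | h
  · exact (pow_le_one' h t).trans (le_self_add.trans le_self_add)
  rcases le_total 1 (ENNReal.ofReal v * f ^ u) with h' | h'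
  · refine le_trans ?_ (le_add_self.trans le_self_add)
    rw [pow_add, ← mul_assoc]
    refine (one_mul _).symm.trans_le ?_
    gcongr
    exact h'.trans (by gcongr)
  · refine le_trans ?_ le_add_self
    rw [← ENNReal.ofReal_rpow_of_pos hv, ENNReal.rpow_neg, ← ENNReal.inv_rpow,
      ← ENNReal.rpow_natCast]
    refine (ENNReal.rpow_le_rpow_of_exponent_le h hu).trans ?_
    rw [ENNReal.rpow_mul, ENNReal.rpow_natCast]
    refine ENNReal.rpow_le_rpow ?_ hs.le
    rw [ENNReal.le_inv_iff_mul_le, mul_comm]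
    exact h'

end HLD

theorem uHLD : St_HLD := by
  intro Y _ μ _ W f v s hW hf _ hs hv hi hm t
  obtain ⟨u, hu⟩ := exists_nat_ge (t / s)
  refine ne_top_of_le_ne_top ?_ (lintegral_mono_ae (hv.mono fun y hy =>
    HLD.pt (f := f y) hs ((div_le_iff₀ hs).1 hu) hy.1 hy.2))
  rw [lintegral_add_left' (f := fun y => 1 + W y * f y ^ (u + t))
    (aemeasurable_const.add (hW.mul (hf.pow_const _))), lintegral_add_left measurable_const,
    lintegral_one]
  exact ENNReal.add_ne_top.2 ⟨ENNReal.add_ne_top.2 ⟨measure_ne_top _ _, hm _⟩, hi⟩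

end Pool.Agent.Lib.KU
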