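import Pool.Agent.Lib.KU.Blue
import Pool.Agent.Lib.KH.B_KIT
import Pool.Agent.Lib.RBR.B_HQA

/-! Project ku: the theorem of Hörmander for the measure of domination. -/

open scoped Classical Topology ContDiff ComplexOrder Matrix ENNReal
open Set MeasureTheory Complex Metric Filter

noncomputable section

namespace Pool.Agent.Lib.KU

open Pool.Agent.Lib.HS32
open Pool.Agent.Lib.KH (OnK SmK lden)
open Pool.Agent.Lib.RBR (O0 Oz)

open RBR.HQA in
theorem uHQD (hHQ1 : St_HQ1) (rKIT : RBR.St_KIT) : St_HQD := by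
  intro n k r r₁ r₂ M _ X Θ a N δ α C ε u g y hE D hS y0
  have A := X.ad
  have hK := X.fr.kae
  obtain ⟨-, -, hT, -, -, -, -, -, -, -, -, -, -, -, hZ⟩ :=
    rKIT n k M X.H X.p X.σ X.z X.θ X.T X.m X.D X.C X.fr
  have hC := (hZ g hS.tm hS.nz).2.1
  have k := KH.bKIT n M X.H _ hK.toMet hC.1
  have k6 := k.2.2.2.2.2
  have hO : Oz X.p X.σ g ⊆ O0 X.p X.σ := fun x hx => ⟨hx.1, hx.2.1⟩
  have hp : Oz X.p X.σ g ⊆ {x | 0 < X.p x} := fun x hx => hx.1
  have d0 : (0 : ℝ) < X.d := Nat.cast_pos.2 A.d0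
  have yd : 0 ≤ y * X.d := mul_nonneg y0.le d0.le
  obtain ⟨a1, a2⟩ := smul (-1) (sub hO A.sk)
  obtain ⟨b1, b2⟩ := smul (-((1 : ℝ) / X.d + y)) (sub hp A.sT)
  obtain ⟨c1, c2⟩ := k6 _ _ a1 b1
  have h := hHQ1 n M X.H _ (fun i => y * X.d * ε i) (fun i x => (-1 * Real.log (X.κ x) +
    -((1 : ℝ) / X.d + y) * Real.log (X.T x)) + y * X.d * u i x) hK hC
    ⟨fun i => mul_nonneg yd (D.e0 i), by simpa using D.lim.const_mul (y * X.d), fun i =>
      (k6 _ _ c1 (smul (y * X.d) (sub hp (D.sm i))).1).1,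
      fun i e he z hz ho => by
        obtain ⟨f1, f2⟩ := smul (y * X.d) (sub hp (D.sm i))
        have q := (D.pos i e he z hz (hp ho)).smul yd
        refine (congrArg Matrix.PosSemidef ?_).mpr q
        have r := A.ric e he z hz (hO ho)
        have c := hE.cur e he z hz (hp ho)
        beta_reduce at r c ⊢
        rw [(k6 _ _ c1 f1).2 e he z hz ho, c2 e he z hz ho, a2 e he z hz ho,
          b2 e he z hz ho, f2 e he z hz ho, ← r, c]
        module⟩
    (fun x hx => by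
      have ct := ((k.1 ℝ _ c1).1 x hx).continuousAt (hC.1.mem_nhds hx)
      refine ⟨_ + y * X.d * C, ((ct.eventually (gt_mem_nhds (lt_add_one _))).and
        (hC.1.mem_nhds hx)).mono fun w hw i => add_le_add hw.1.le ?_⟩
      exact mul_le_mul_of_nonneg_left (D.up i w (hp hw.2)) yd)
    fun i => by
      obtain ⟨B, hB⟩ := D.am i
      refine ⟨y * X.d * B, fun x hx j hj => ?_⟩
      have := mul_le_mul_of_nonneg_left (hB x (hp hx) j hj) yd
      linarith
  refine (congrArg (KH.HqB M _) (withDensity_congr_ae ?_)).mp h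
  refine (ae_restrict_mem hC.1.measurableSet).mono fun x hx => ?_
  have k0 := A.k0 x (hO hx)
  have t0 := hT x (hp hx)
  have e : ∀ a : ℝ, ENNReal.ofReal (Real.exp (-(-1 * Real.log (X.κ x) +
      -((1 : ℝ) / X.d + y) * Real.log (X.T x) + a))) =
      ENNReal.ofReal (X.κ x * X.T x ^ ((1 : ℝ) / X.d + y)) * ENNReal.ofReal (Real.exp (-a)) :=
    fun a => by
    rw [← ENNReal.ofReal_mul (by positivity), Real.rpow_def_of_pos t0]
    nth_rewrite 2 [← Real.exp_log k0]
    rw [← Real.exp_add, ← Real.exp_add]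
    congr 2
    ring
  simp only [lden, e]
  exact ENNReal.liminf_const_mul_of_ne_top ENNReal.ofReal_ne_top

end Pool.Agent.Lib.KU
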