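import Pool.Agent.Lib.KU.Blue
import Pool.Agent.Lib.KJ.B_KIT

/-! Project ku: the inverse of a tame function has polynomial growth on the base. -/

open scoped Classical Topology ContDiff ComplexOrder Matrix ENNReal
open Set MeasureTheory Complex Metric Filter

set_option linter.unusedVariables false

noncomputable section

namespace Pool.Agent.Lib.KU

open Pool.Agent.Lib.SV (E nsq)
open Pool.Agent.Lib.HS32
open Pool.Agent.Lib.RB9 (Pz ev)
open Pool.Agent.Lib.RBR (Bq Tm Nz O0 Oz Frm Adj Mo Ul)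

namespace INV

variable {Y : Type} {k : ℕ}

/-- Polynomial growth on `S`. -/
def Pg (S : Set Y) (z : Y → E k) (f : Y → ℂ) : Prop :=
  ∃ (b : ℕ) (C : ℝ), 0 ≤ C ∧ ∀ x ∈ S, normSq (f x) ≤ C * (1 + nsq (z x)) ^ b

variable {S : Set Y} {z : Y → E k}

theorem one_le (y : E k) : 1 ≤ 1 + nsq y :=
  le_add_of_nonneg_right (Finset.sum_nonneg fun _ _ => normSq_nonneg _)

theorem bdd {f : Y → ℂ} (C : ℝ) (hC : 0 ≤ C) (h : ∀ x ∈ S, normSq (f x) ≤ C) : Pg S z f :=
  ⟨0, C, hC, fun x hx => by rw [pow_zero, mul_one]; exact h x hx⟩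

theorem cst (c : ℂ) : Pg S z fun _ => c := bdd _ (normSq_nonneg c) fun _ _ => le_rfl

theorem crd (i : Fin k) : Pg S z fun x => z x i := by
  refine ⟨1, 1, zero_le_one, fun x hx => ?_⟩
  rw [pow_one, one_mul]
  have : normSq (z x i) ≤ nsq (z x) :=
    Finset.single_le_sum (f := fun j => normSq (z x j)) (fun _ _ => normSq_nonneg _)
      (Finset.mem_univ i)
  linarith

theorem mul {f g : Y → ℂ} (hf : Pg S z f) (hg : Pg S z g) : Pg S z fun x => f x * g x := by
  obtain ⟨b, C, hC, h⟩ := hf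
  obtain ⟨b', C', hC', h'⟩ := hg
  refine ⟨b + b', C * C', mul_nonneg hC hC', fun x hx => ?_⟩
  have h0 : 0 ≤ 1 + nsq (z x) := zero_le_one.trans (one_le _)
  rw [map_mul, pow_add]
  calc normSq (f x) * normSq (g x)
      ≤ (C * (1 + nsq (z x)) ^ b) * (C' * (1 + nsq (z x)) ^ b') :=
        mul_le_mul (h x hx) (h' x hx) (normSq_nonneg _) (by positivity)
    _ = _ := by ring

theorem sq_add (u v : ℂ) : normSq (u + v) ≤ 2 * normSq u + 2 * normSq v := by
  simp only [normSq_apply, add_re, add_im]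
  nlinarith [sq_nonneg (u.re - v.re), sq_nonneg (u.im - v.im)]

theorem add {f g : Y → ℂ} (hf : Pg S z f) (hg : Pg S z g) : Pg S z fun x => f x + g x := by
  obtain ⟨b, C, hC, h⟩ := hf
  obtain ⟨b', C', hC', h'⟩ := hg
  refine ⟨b + b', 2 * C + 2 * C', by positivity, fun x hx => ?_⟩
  have h1 := one_le (z x)
  have h2 : (1 + nsq (z x)) ^ b ≤ (1 + nsq (z x)) ^ (b + b') :=
    pow_le_pow_right₀ h1 (Nat.le_add_right _ _)
  have h3 : (1 + nsq (z x)) ^ b' ≤ (1 + nsq (z x)) ^ (b + b') :=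
    pow_le_pow_right₀ h1 (Nat.le_add_left _ _)
  have h4 := mul_le_mul_of_nonneg_left h2 hC
  have h5 := mul_le_mul_of_nonneg_left h3 hC'
  have h6 := sq_add (f x) (g x)
  have h7 := h x hx
  have h8 := h' x hx
  linarith

theorem pow {f : Y → ℂ} (hf : Pg S z f) (d : ℕ) : Pg S z fun x => f x ^ d := by
  induction d with
  | zero => simpa only [pow_zero] using cst (S := S) (z := z) 1
  | succ d ih => simpa only [pow_succ] using mul ih hf

theorem mv (Q : MvPolynomial (Fin k) ℂ) : Pg S z fun x => MvPolynomial.eval (z x) Q := by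
  induction Q using MvPolynomial.induction_on with
  | C c => simpa only [MvPolynomial.eval_C] using cst (S := S) (z := z) c
  | add P Q hP hQ => simpa only [map_add] using add hP hQ
  | mul_X P i hP => simpa only [map_mul, MvPolynomial.eval_X] using mul hP (crd i)

theorem pz {θ : Y → ℂ} (hθ : Pg S z θ) (R : Pz k) : Pg S z fun x => ev R (z x) (θ x) := by
  unfold ev
  induction R using Polynomial.induction_on' with
  | add P Q hP hQ => simpa only [Polynomial.eval₂_add] using add hP hQ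
  | monomial d Q => simpa only [Polynomial.eval₂_monomial] using mul (mv Q) (pow hθ d)

/-- Evaluation on the set. -/
def ph (S : Set Y) (z : Y → E k) : MvPolynomial (Fin k) ℂ →+* (S → ℂ) :=
  RingHom.pi fun x : S => MvPolynomial.eval (z x)

theorem ph_ev (R : Pz k) (θ : S → ℂ) (x : S) :
    R.eval₂ (ph S z) θ x = ev R (z x) (θ x) := by
  have h := Polynomial.hom_eval₂ R (ph S z) (Pi.evalRingHom (fun _ : S => ℂ) x) θ
  exact h

theorem itg {θ : S → ℂ} (hθ : (ph S z).IsIntegralElem θ) (R : Pz k) :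
    (ph S z).IsIntegralElem (R.eval₂ (ph S z) θ) := by
  induction R using Polynomial.induction_on with
  | C Q =>
    rw [Polynomial.eval₂_C]
    exact RingHom.isIntegralElem_map _
  | add P Q hP hQ =>
    rw [Polynomial.eval₂_add]
    exact RingHom.IsIntegralElem.add _ hP hQ
  | monomial d Q h =>
    rw [pow_succ, ← mul_assoc, Polynomial.eval₂_mul, Polynomial.eval₂_X]
    exact RingHom.IsIntegralElem.mul _ h hθ

/-- The relation with a constant term that is not zero. -/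
theorem rel {θ G : Y → ℂ} {m R : Pz k} (hm : m.Monic) (hr : ∀ x ∈ S, ev m (z x) (θ x) = 0)
    (hG : ∀ x ∈ S, G x = ev R (z x) (θ x)) :
    ∃ (P₀ : MvPolynomial (Fin k) ℂ) (P₂ : Pz k), P₀ ≠ 0 ∧ ∀ x ∈ S, G x ≠ 0 →
      MvPolynomial.eval (z x) P₀ = -(G x * ev P₂ (z x) (G x)) := by
  have h1 : (ph S z).IsIntegralElem fun x : S => θ x :=
    ⟨m, hm, funext fun x => by rw [ph_ev]; exact hr x x.2⟩
  obtain ⟨P, hP, hP0⟩ := itg h1 R
  obtain ⟨P₁, hP₁, hnd⟩ := Polynomial.exists_eq_pow_rootMultiplicity_mul_and_not_dvd P hP.ne_zero 0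
  rw [map_zero, sub_zero] at hP₁ hnd
  refine ⟨P₁.coeff 0, P₁.divX, fun h => hnd (Polynomial.X_dvd_iff.2 h), fun x hx hx0 => ?_⟩
  have h2 := congrFun hP0 ⟨x, hx⟩
  rw [ph_ev, ph_ev] at h2
  have h3 : ev P (z x) (G x) = 0 := by rw [hG x hx]; exact h2
  rw [hP₁] at h3
  unfold ev at h3 ⊢
  rw [Polynomial.eval₂_mul, Polynomial.eval₂_pow, Polynomial.eval₂_X] at h3
  have h4 := (mul_eq_zero.1 h3).resolve_left (pow_ne_zero _ hx0)
  rw [← Polynomial.X_mul_divX_add P₁, Polynomial.eval₂_add, Polynomial.eval₂_mul,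
    Polynomial.eval₂_X, Polynomial.eval₂_C] at h4
  linear_combination h4

end INV

open INV in
theorem uINV (hKIT : St_KIT) (rKIT : RBR.St_KIT) : St_INV := by
  intro n k r r₁ r₂ M _ X F hF hN
  obtain ⟨hop, -, -, -, -, -, -, -, hmul, hpoly, -⟩ :=
    rKIT n k M X.H X.p X.σ X.z X.θ X.T X.m X.D X.C X.fr
  have hct := (KJ.bKIT n M _ hop).2.2.2.1
  obtain ⟨Q, R, hQ, hQR⟩ := X.fr.fn F hF
  have hz := hpoly (Fin k) (fun i x => X.z x i) X.fr.tz
  have hQt := hz.2.2.1 Q
  have hG := (hmul _ _ hQt hF).2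
  have ha := hpoly _ X.a fun i => (X.ro.ta i).1
  have hb := hpoly _ X.b fun i => (X.ro.tb i).1
  have hab := (hmul _ _ ha.1 hb.1).2
  have hS : Sb X fun x => (∏ i, X.a i x) * ∏ j, X.b j x :=
    ⟨hab.1, hab.2 (ha.2.1 fun i => (X.ro.ta i).2) (hb.2.1 fun i => (X.ro.tb i).2), subset_rfl⟩
  obtain ⟨hS', hO⟩ := (hKIT n k r r₁ r₂ M X _ hS).2.2.2.2.2.2.1 _ hG.1
    (hG.2 (X.fr.ind Q hQ) hN)
  have hden := (hKIT n k r r₁ r₂ M X _ hS').2.2.1
  obtain ⟨P₀, P₂, hP₀, hrel⟩ := rel (S := {x | 0 < X.p x}) (z := X.z) (θ := X.θ)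
    (G := fun x => MvPolynomial.eval (X.z x) Q * F x) X.fr.al.mon X.fr.al.rt hQR
  obtain ⟨b, C, hC, h1⟩ := mv (S := univ) (z := X.z) P₀
  have hF1 : Pg {x | normSq (F x) ≤ 1} X.z F := bdd 1 zero_le_one fun _ hx => hx
  obtain ⟨b', C', hC', h2⟩ := mul (mv Q) (pz (mul (mv Q) hF1) P₂)
  refine ⟨P₀, b + b', C + C', hP₀, hden _ _ ?_ ?_ fun x hx => ?_⟩
  · exact continuous_normSq.comp_continuousOn (hct _ (hz.2.2.1 P₀).1).1
  · exact (continuousOn_const.mul ((continuousOn_const.add hz.2.2.2.1).pow _)).mul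
      (continuous_normSq.comp_continuousOn (hct _ hF.1).1)
  · have hp : 0 < X.p x := hx.1
    rw [hO] at hx
    have h3 := one_le (X.z x)
    have h4 : (1 + nsq (X.z x)) ^ b ≤ (1 + nsq (X.z x)) ^ (b + b') :=
      pow_le_pow_right₀ h3 (Nat.le_add_right _ _)
    have h5 : (1 + nsq (X.z x)) ^ b' ≤ (1 + nsq (X.z x)) ^ (b + b') :=
      pow_le_pow_right₀ h3 (Nat.le_add_left _ _)
    have h6 : 0 ≤ (1 + nsq (X.z x)) ^ (b + b') := by positivity
    have h7 := normSq_nonneg (F x)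
    have h8 := mul_le_mul_of_nonneg_left h4 hC
    have h9 := mul_le_mul_of_nonneg_left h5 hC'
    have h10 := mul_nonneg hC h6
    have h11 := mul_nonneg hC' h6
    rcases le_total (normSq (F x)) 1 with h | h
    · have e : MvPolynomial.eval (X.z x) P₀ = -(F x * (MvPolynomial.eval (X.z x) Q *
          ev P₂ (X.z x) (MvPolynomial.eval (X.z x) Q * F x))) := by
        rw [hrel x hp hx.2]
        ring
      rw [e, normSq_neg, map_mul, mul_comm]
      refine mul_le_mul_of_nonneg_right ?_ h7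
      have := h2 x h
      linarith
    · have := h1 x (mem_univ x)
      nlinarith

end Pool.Agent.Lib.KU
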