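import Pool.Agent.Lib.KU.Blue

/-! Project ku, row K6M: the Kodaira dimension on the model. -/

open scoped Classical Topology
open Set MeasureTheory Complex Filter

noncomputable section

namespace Pool.Agent.Lib.KU

open Pool.Agent.Lib.RBR (Bq Tm Nz Oz)
open Pool.Agent.Lib.NV6.J (mon)

theorem uK6M (hDIV : St_DIV) (hCNT : St_CNT) (rKIT : RBR.St_KIT) : St_K6M := by
  intro n k r r₁ r₂ r₀ M _ X g η A N₁ s c δ hs ⟨C, hC⟩
  obtain ⟨b₀, V, j₀, tb, nb, fd, hD⟩ := hDIV n k r r₁ r₂ r₀ M X g η A N₁ s c hs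
  obtain ⟨-, -, T0, ae, ne, -, -, -, -, pr, bt, -, -, -, nz⟩ :=
    rKIT n k M _ _ _ _ _ _ _ _ _ X.fr
  have tm : ∀ {j c f}, Bq X.p X.T j c f → Tm X.p f := fun {j c f} h =>
    (bt j c).elim fun _ h' => (h' f h).2
  refine ⟨(X.N + 1) ^ δ * (C * Module.finrank ℂ V), infinite_of_forall_exists_gt fun B => ?_⟩
  obtain ⟨Q, ⟨m, γ, h1, h2, h3⟩, hQ⟩ := hC.exists_gt (N₁ * (j₀ + B + 1))
  obtain ⟨q, q1, q2⟩ : ∃ q, N₁ * (j₀ + q) < Q ∧ Q ≤ N₁ * (j₀ + q + 1) := by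
    have a := Nat.div_add_mod (Q - 1) N₁
    have a' := Nat.mod_lt (Q - 1) hs.N0
    have b : j₀ ≤ (Q - 1) / N₁ := (Nat.le_div_iff_mul_le hs.N0).2 (by
      rw [mul_add, mul_add, mul_comm] at hQ
      omega)
    refine ⟨(Q - 1) / N₁ - j₀, ?_⟩
    rw [Nat.add_sub_cancel' b, mul_add_one]
    omega
  obtain ⟨m', I, i1, i2⟩ := hCNT _ (Oz X.p X.σ g) r₀ q m s V (fun i x => γ i x * b₀ x) fd
    (fun a ha => h2 a fun x hx => by
      by_contra h
      have t := (pr _ γ fun i => tm (h3 i)).2.2.1 (∑ i, MvPolynomial.C (a i) * MvPolynomial.X i)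
      simp only [map_sum, map_mul, MvPolynomial.eval_C, MvPolynomial.eval_X] at t
      have := ae_neBot.2 ne
      obtain ⟨y, ⟨y1, y2⟩, y3, y4⟩ := ((ae.and (nz g hs.tm hs.nz).1).and
        ((nz _ t ⟨x, hx, h⟩).1.and (nz _ tb nb).1)).exists
      refine mul_ne_zero y3 y4 ?_
      simpa only [Finset.sum_mul, mul_assoc] using ha y ⟨y1.1, y1.2, y2⟩)
    fun i => hD Q q _ q1 q2 (h3 i)
  refine ⟨X.N * N₁ * q, ⟨m', _, ?_, fun a ha => i2 a fun x hx => ha x hx.1, fun l => ?_⟩, ?_⟩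
  · have a : X.N * N₁ * q + 1 ≤ (X.N + 1) * (Q + 1) := by
      have : N₁ * q ≤ Q := (Nat.mul_le_mul_left _ (Nat.le_add_left _ _)).trans q1.le
      nlinarith [Nat.mul_le_mul_left X.N this]
    refine (Nat.pow_le_pow_left a δ).trans ?_
    rw [mul_pow, mul_assoc, mul_assoc]
    exact Nat.mul_le_mul_left _ (h1.trans (Nat.mul_le_mul_left _ i1))
  · choose D hD using fun l => (hs.sec l).2
    refine ⟨(pr _ (fun i => s (I l i)) fun i => tm (hs.sec _)).1.1, ∏ i, D (I l i), fun x hx => ?_⟩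
    refine le_trans (le_of_eq ?_) (Finset.prod_le_prod (fun i _ => mul_nonneg (normSq_nonneg _)
      (mul_nonneg (pow_nonneg (T0 x hx).le _) (pow_nonneg hx.le _))) fun i _ => hD (I l i) x hx)
    rw [Finset.prod_mul_distrib, Finset.prod_const, Finset.card_univ, Fintype.card_fin, mon,
      map_prod, pow_zero, mul_one, mul_one, one_mul, pow_mul _ _ q]
  · have a : B < q := by
      have := Nat.lt_of_mul_lt_mul_left (hQ.trans_le q2)
      omega
    exact a.trans_le (Nat.le_mul_of_pos_left _ (mul_pos X.ro.N0 hs.N0))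

end Pool.Agent.Lib.KU
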