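import Pool.Agent.Lib.KU.Blue
import Pool.Agent.Lib.RBR.B_MB

/-! Project ku, row KIT: the open set, the measures and the functions of the model. -/

open scoped Classical Topology ContDiff ENNReal
open Set MeasureTheory Complex Filter

noncomputable section

namespace Pool.Agent.Lib.KU

open Pool.Agent.Lib.SV (E nsq)
open Pool.Agent.Lib.HS32
open Pool.Agent.Lib.KH (HoK)
open Pool.Agent.Lib.KJ (tq hp)
open Pool.Agent.Lib.RBR (Tm Nz O0 Oz)

theorem KIT.hc {n : ℕ} {M : Mf n} {O : Set M.X} {f : M.X → ℂ} (h : HoK M O f) :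
    ContinuousOn f O := fun x hx => by
  have h1 := (h _ (Mf.ch_mem x) _ (Mf.ch_tgt x) (by rwa [Mf.ch_symm])).self_of_nhds.continuousAt
  refine ((h1.comp ((M.ch x).continuousAt (Mf.mem_ch x))).congr ?_).continuousWithinAt
  filter_upwards [(M.ch x).open_source.mem_nhds (Mf.mem_ch x)] with y hy
  simp only [Function.comp_apply, (M.ch x).left_inv hy]

theorem uKIT (hKIT : RBR.St_KIT) (hMSR : RBR.St_MSR) : St_KIT := by
  intro n k r r₁ r₂ M _ X g hg
  obtain ⟨hO, hp', hT, hae, hne, -, -, -, hmul, hfam, -, -, -, -, hnz⟩ :=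
    hKIT n k M X.H X.p X.σ X.z X.θ X.T X.m X.D X.C X.fr
  obtain ⟨g1, hc, -⟩ := hnz g hg.tm hg.nz
  have hH := X.fr.kae.toMet
  have hz : ∀ᵐ x ∂M.mu X.H, x ∈ Oz X.p X.σ g := by
    filter_upwards [hae, g1] with x h1 h2 using ⟨h1.1, h1.2, h2⟩
  obtain ⟨m1, -, -, m4, m5, -⟩ := hMSR n M X.H {x | 0 < X.p x} (fun _ => 1) (fun _ => 1) 1 _ hH hO
    continuousOn_const (fun _ _ => one_pos) aemeasurable_const ENNReal.one_ne_top
    (Eventually.of_forall fun _ _ => by simp) rfl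
  have hr := Measure.restrict_eq_self_of_ae_mem hz
  have am : ∀ f : M.X → ℝ, ContinuousOn f (Oz X.p X.σ g) → AEMeasurable f (M.mu X.H) :=
    fun f hf => hr ▸ hf.aemeasurable hc.1.measurableSet
  have s1 : Oz X.p X.σ g ⊆ {x | 0 < X.p x} := fun x hx => hx.1
  have s2 : Oz X.p X.σ g ⊆ O0 X.p X.σ := fun x hx => ⟨hx.1, hx.2.1⟩
  have ca := (hfam _ X.a fun i => (X.ro.ta i).1).2.2.2.1
  have cb := (hfam _ X.b fun j => (X.ro.tb j).1).2.2.2.1
  have pa : ∀ x ∈ Oz X.p X.σ g, 0 < nsq (X.a · x) := fun x hx =>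
    (normSq_pos.2 (Finset.prod_ne_zero_iff.1 (left_ne_zero_of_mul (hg.sub hx).2.2) 0
      (Finset.mem_univ _))).trans_le (RBR.MB.le_nsq (X.a · x) 0)
  have pb : ∀ x ∈ Oz X.p X.σ g, 0 < nsq (X.b · x) := fun x hx =>
    (normSq_pos.2 (Finset.prod_ne_zero_iff.1 (right_ne_zero_of_mul (hg.sub hx).2.2) 0
      (Finset.mem_univ _))).trans_le (RBR.MB.le_nsq (X.b · x) 0)
  have pq : ∀ x ∈ Oz X.p X.σ g, 0 < tq X.a X.b x := fun x hx => div_pos (pa x hx) (pb x hx)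
  have ck := (RBR.MB.cont X.ad.sk X.ad.k0).mono s2
  have cq : ContinuousOn (tq X.a X.b) (Oz X.p X.σ g) :=
    (ca.mono s1).div (cb.mono s1) fun x hx => (pb x hx).ne'
  have cz : ContinuousOn X.z (Oz X.p X.σ g) :=
    (continuousOn_pi.2 fun i => KIT.hc (X.fr.tz i).1).mono s1
  have := ae_neBot.2 hne
  have c0 := X.ro.c0
  refine ⟨hc.1, hz, fun f f' h h' hl => m5 f f' h h' ((m1 _).2 (hz.mono fun x hx _ => hl x hx)),
    fun f h hl => m4 f h ((m1 _).2 (hz.mono fun x hx _ => hl x hx)), am,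
    fun ρ v hρ ⟨η, s, c, h1, h2, h3⟩ hv => ?_, fun g' t1 t2 => ?_, ck, X.fr.al.tc, cq, ca.mul cb,
    (cq.rpow_const fun x hx => Or.inl (pq x hx).ne').mul (ck.mul ((X.fr.al.tc.mono s1).rpow_const
      fun x hx => Or.inl (hT x hx.1).ne')),
    AEMeasurable.iInf fun i => am _
      ((X.ro.up.sm _ Nat.one_div_pos_of_nat).continuous.comp_continuousOn cz),
    X.c + 1 + X.c ^ ((1 : ℝ) / (X.d * X.N)), by positivity, fun x hx => ?_⟩
  · obtain ⟨l1, -, l3, l4, -, l6⟩ := hMSR n M X.H (Oz X.p X.σ g)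
      (fun x => c * (normSq (η x) * X.p x ^ s)) ρ 1 _ hH hc.1
      (continuousOn_const.mul ((continuous_normSq.comp_continuousOn ((KIT.hc h1.1).mono s1)).mul
        (hp'.pow s).continuousOn))
      (fun x hx => mul_pos h2 (mul_pos (normSq_pos.2 (h3 x hx).1) (pow_pos hx.1 s)))
      hρ.restrict ENNReal.one_ne_top (hv.mono fun x h hx =>
        ((ENNReal.ofReal_le_ofReal (h3 x hx).2).trans h).trans (one_mul _).ge) rfl
    exact ⟨⟨hc.1, hz.exists, (l1 _).2 (Eventually.of_forall fun _ h => h), l4⟩,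
      l3 _ hc.1 Subset.rfl, fun f hf => l6 _ hf.ennreal_ofReal.restrict⟩
  · have t3 := (hmul g g' hg.tm t1).2
    exact ⟨⟨t3.1, t3.2 hg.nz t2, fun x hx => hg.sub ⟨hx.1, hx.2.1, left_ne_zero_of_mul hx.2.2⟩⟩,
      Set.ext fun x => ⟨fun hx => ⟨⟨hx.1, hx.2.1, left_ne_zero_of_mul hx.2.2⟩,
        right_ne_zero_of_mul hx.2.2⟩, fun hx => ⟨hx.1.1, hx.1.2.1, mul_ne_zero hx.1.2.2 hx.2⟩⟩⟩
  · have k0 := X.ad.k0 x (s2 hx)
    have t0 := hT x hx.1
    have q0 := pq x hx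
    have h1 : X.T x ^ X.N * tq X.a X.b x ≤ X.c := by
      rw [KJ.tq, ← mul_div_assoc, div_le_iff₀ (pb x hx)]
      exact X.ro.r1 x hx.1
    have e0 : (0 : ℝ) ≤ 1 / (X.d * X.N) := by positivity
    have h2 : md X x = (X.T x ^ X.N * tq X.a X.b x) ^ ((1 : ℝ) / (X.d * X.N)) * X.κ x := by
      have d0 : (X.d : ℝ) ≠ 0 := Nat.cast_ne_zero.2 X.ad.d0.ne'
      have N0 : (X.N : ℝ) ≠ 0 := Nat.cast_ne_zero.2 X.ro.N0.ne'
      have e1 : (X.N : ℝ) * (1 / (X.d * X.N)) = 1 / X.d := by field_simp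
      rw [Real.mul_rpow (pow_pos t0 _).le q0.le, ← Real.rpow_natCast, ← Real.rpow_mul t0.le, e1, md]
      ring
    have h3 := Real.rpow_nonneg c0 ((1 : ℝ) / (X.d * X.N))
    refine ⟨k0, t0, q0, mul_pos (pa x hx) (pb x hx), by rw [h2]; positivity, by linarith, ?_,
      (mul_comm _ _).trans_le (X.en.e1 x hx.1)⟩
    rw [h2]
    exact mul_le_mul_of_nonneg_right
      ((Real.rpow_le_rpow (by positivity) h1 e0).trans (by linarith)) k0.le

end Pool.Agent.Lib.KU
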