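import Pool.Agent.Lib.KU.Blue
import Pool.Agent.Lib.KH.B_KIT

/-! Project ku, row LDU: the limit density of the potentials of domination. -/

open scoped Classical Topology ContDiff ComplexOrder Matrix ENNReal
open Set MeasureTheory Complex Metric Filter

set_option linter.unusedVariables false

noncomputable section

namespace Pool.Agent.Lib.KU

open Pool.Agent.Lib.HS32
open Pool.Agent.Lib.KH (lden)

theorem uLDU : St_LDU := by
  intro n M _ H Θ O N δ α C ε u t hH hO ae hN du t0
  have r1 : (M.mu H).restrict O = M.mu H := Measure.restrict_eq_self_of_ae_mem ae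
  have mφ : ∀ (s : ℝ) i, AEMeasurable (fun x => ENNReal.ofReal (Real.exp (-(s * u i x))))
      (M.mu H) := fun s i => r1 ▸ ((Real.continuous_exp.comp_continuousOn (continuousOn_const.mul
        (KH.KIT.cont (du.sm i))).neg).aemeasurable hO.measurableSet).ennreal_ofReal
  refine ⟨⟨_, Measurable.liminf fun i => (mφ t i).measurable_mk,
      (ae_all_iff.2 fun i => (mφ t i).ae_eq_mk).mono fun x hx =>
        congrArg (liminf · atTop) (funext hx)⟩,
    ⟨Real.exp (-(t * C)), Real.exp_pos _, fun x hx => le_liminf_of_le (by isBoundedDefault)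
      ((du.dom x hx).mono fun i hi => ENNReal.ofReal_le_ofReal ?_)⟩, ?_⟩
  · rw [Real.rpow_def_of_pos (hN x hx), ← Real.exp_add]
    exact Real.exp_le_exp.2 (by nlinarith [mul_le_mul_of_nonneg_left hi t0.le])
  · have hs : 0 < α / t := div_pos du.α0 t0
    have e : ∀ x, lden (fun i x => t * u i x) x ^ (α / t) =
        liminf (fun i => ENNReal.ofReal (Real.exp (-(α * u i x)))) atTop := fun x => by
      refine ((ENNReal.monotone_rpow_of_nonneg hs.le).map_liminf_of_continuousAt _
        ENNReal.continuous_rpow_const.continuousAt).trans (congrArg (liminf · atTop)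
          (funext fun i => ?_))
      rw [Function.comp_apply, ENNReal.ofReal_rpow_of_pos (Real.exp_pos _), ← Real.exp_mul,
        neg_mul, mul_right_comm, mul_div_cancel₀ _ t0.ne']
    simp only [e]
    refine ne_top_of_le_ne_top ENNReal.ofReal_ne_top ((lintegral_liminf_le' (mφ _)).trans
      (liminf_le_of_frequently_le' (Frequently.of_forall fun i => ?_)) : _ ≤ ENNReal.ofReal C)
    rw [← r1]
    exact du.mom i

end Pool.Agent.Lib.KU
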