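import Pool.Agent.Lib.KU.Blue
import Pool.Agent.Lib.RBR.B_MIN

/-! Project ku, row LW: lower bounds. -/

open scoped Topology ENNReal
open Set MeasureTheory Complex Filter

namespace Pool.Agent.Lib.KU

open Pool.Agent.Lib.SV (E nsq nsq_nonneg)
open Pool.Agent.Lib.HS32
open Pool.Agent.Lib.KJ (hp)
open Pool.Agent.Lib.RBR (Tm Nz Oz)

namespace LW

variable {n : ℕ} {M : Mf n} {p v v' : M.X → ℝ} {O : Set M.X}

theorem pos (h0 : ∀ x ∈ O, 0 < p x) (h : Lw p O v) : ∀ x ∈ O, 0 < v x := fun x hx => by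
  obtain ⟨η, s, c, -, c0, h⟩ := h
  exact (mul_pos c0 (mul_pos (normSq_pos.2 (h x hx).1) (pow_pos (h0 x hx) _))).trans_le (h x hx).2

theorem mono (h : Lw p O v) (C : ℝ) (h' : ∀ x ∈ O, 0 ≤ v' x ∧ v x ≤ C * v' x) : Lw p O v' := by
  obtain ⟨η, s, c, t, c0, h⟩ := h
  refine ⟨η, s, c / (|C| + 1), t, by positivity, fun x hx => ⟨(h x hx).1, ?_⟩⟩
  rw [div_mul_eq_mul_div, div_le_iff₀ (by positivity)]
  nlinarith [(h x hx).2, (h' x hx).2, (h' x hx).1, le_abs_self C]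

theorem mul (h0 : ∀ x ∈ O, 0 < p x) (km : ∀ f g, Tm p f → Tm p g → Tm p fun x => f x * g x)
    (h : Lw p O v) (h' : Lw p O v') : Lw p O fun x => v x * v' x := by
  have k := pos h0 h
  obtain ⟨η, s, c, t, c0, h⟩ := h
  obtain ⟨η', s', c', t', c0', h'⟩ := h'
  refine ⟨_, s + s', c * c', km _ _ t t', by positivity, fun x hx =>
    ⟨mul_ne_zero (h x hx).1 (h' x hx).1, le_trans (le_of_eq ?_) (mul_le_mul (h x hx).2 (h' x hx).2
      (mul_nonneg c0'.le (mul_nonneg (normSq_nonneg _) (pow_pos (h0 x hx) _).le)) (k x hx).le)⟩⟩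
  rw [map_mul, pow_add]
  ring

theorem base (k1 : Tm p fun _ => 1) (s : ℕ) {c : ℝ} (c0 : 0 < c) : Lw p O fun x => c * p x ^ s :=
  ⟨_, s, c, k1, c0, fun x _ => by simp⟩

theorem rpow (h0 : ∀ x ∈ O, 0 < p x) (h1 : ∀ x, p x ≤ 1) (k1 : Tm p fun _ => 1)
    (km : ∀ f g, Tm p f → Tm p g → Tm p fun x => f x * g x) (h : Lw p O v) {t : ℝ} (ht : 0 ≤ t) :
    Lw p O fun x => v x ^ t := by
  obtain ⟨η, s, c, ⟨t1, a, B, t2⟩, c0, h⟩ := h
  have w : Lw p O fun x => c * (normSq (η x) * p x ^ (s + a)) :=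
    ⟨η, s + a, c, ⟨t1, a, B, t2⟩, c0, fun x hx => ⟨(h x hx).1, le_rfl⟩⟩
  have wm : ∀ m : ℕ, Lw p O fun x => (c * (normSq (η x) * p x ^ (s + a))) ^ m := fun m => by
    induction m with
    | zero => simpa using base (O := O) k1 0 one_pos
    | succ m ih => simpa only [pow_succ] using mul h0 km ih w
  refine mono (wm ⌈t⌉₊) ((c * B) ^ ((⌈t⌉₊ : ℝ) - t)) fun x hx => ?_
  have q0 := pos h0 w x hx
  have p0 := h0 x hx
  have q1 : c * (normSq (η x) * p x ^ (s + a)) ≤ v x := le_trans (mul_le_mul_of_nonneg_left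
    (mul_le_mul_of_nonneg_left (pow_le_pow_of_le_one p0.le (h1 x) (by omega)) (normSq_nonneg _))
    c0.le) (h x hx).2
  have q2 : c * (normSq (η x) * p x ^ (s + a)) ≤ c * B := mul_le_mul_of_nonneg_left (le_trans
    (mul_le_mul_of_nonneg_left (pow_le_pow_of_le_one p0.le (h1 x) (by omega)) (normSq_nonneg _))
    (t2 x p0)) c0.le
  generalize c * (normSq (η x) * p x ^ (s + a)) = q at q0 q1 q2
  refine ⟨Real.rpow_nonneg (q0.le.trans q1) _, ?_⟩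
  rw [← Real.rpow_natCast, ← sub_add_cancel (⌈t⌉₊ : ℝ) t, Real.rpow_add q0, add_sub_cancel_right]
  exact mul_le_mul (Real.rpow_le_rpow q0.le q2 (sub_nonneg.2 (Nat.le_ceil t)))
    (Real.rpow_le_rpow q0.le q1 ht) (Real.rpow_nonneg q0.le _) (Real.rpow_nonneg (q0.le.trans q2) _)

end LW

open LW in
theorem uLW (rKIT : RBR.St_KIT) : St_LW := by
  intro n k r r₁ r₂ M _ X g sb
  obtain ⟨op, cp, T0, a0, m0, -, ⟨tp, tp0, htp⟩, k1, kmul, kfam, -, -, -, -, knz⟩ :=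
    rKIT n k M X.H X.p X.σ X.z X.θ X.T X.m X.D X.C X.fr
  have h0 : ∀ x ∈ Oz X.p X.σ g, 0 < X.p x := fun _ h => h.1
  have km := fun f g h h' => (kmul f g h h').2.1
  have cst : ∀ c > (0 : ℝ), Lw X.p (Oz X.p X.σ g) fun _ => c := fun c hc => by
    simpa using base (O := Oz X.p X.σ g) (k1 1) 0 hc
  have low : ∀ {v : M.X → ℝ} (s : ℕ) (c : ℝ), (∀ x ∈ Oz X.p X.σ g, 0 ≤ v x ∧ X.p x ^ s ≤ c * v x) →
      Lw X.p (Oz X.p X.σ g) v := fun s c h =>
    mono (base (k1 1) s one_pos) c fun x hx => by simpa using h x hx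
  have inv : ∀ {v : M.X → ℝ} (s : ℕ) (c : ℝ), (∀ x ∈ Oz X.p X.σ g, 0 < v x ∧ v x * X.p x ^ s ≤ c) →
      Lw X.p (Oz X.p X.σ g) fun x => (v x)⁻¹ := fun s c h => low s c fun x hx =>
    ⟨(inv_pos.2 (h x hx).1).le, by
      rw [← div_eq_mul_inv, le_div_iff₀ (h x hx).1, mul_comm]; exact (h x hx).2⟩
  have two : ∀ {v : M.X → ℝ} (t : ℝ), Lw X.p (Oz X.p X.σ g) v →
      (Lw X.p (Oz X.p X.σ g) fun x => (v x)⁻¹) → Lw X.p (Oz X.p X.σ g) fun x => v x ^ t := by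
    intro v t h h'
    rcases le_total 0 t with ht | ht
    · exact rpow h0 X.fr.p1 (k1 1) km h ht
    · refine mono (rpow h0 X.fr.p1 (k1 1) km h' (neg_nonneg.2 ht)) 1 fun x hx => ?_
      have := (pos h0 h x hx).le
      rw [Real.inv_rpow this, Real.rpow_neg this, inv_inv, one_mul]
      exact ⟨Real.rpow_nonneg this _, le_rfl⟩
  have fam : ∀ (ι : Type) [Fintype ι] (f : ι → M.X → ℂ), (∀ i, Tm X.p (f i)) →
      ((∀ x ∈ Oz X.p X.σ g, 0 < nsq (f · x)) → Lw X.p (Oz X.p X.σ g) fun x => (nsq (f · x))⁻¹) ∧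
      ∀ i, (∀ x ∈ Oz X.p X.σ g, f i x ≠ 0) → Lw X.p (Oz X.p X.σ g) fun x => nsq (f · x) := by
    intro ι _ f hf
    obtain ⟨-, -, -, -, s, c, h⟩ := kfam ι f hf
    refine ⟨fun h' => inv s c fun x hx => ⟨h' x hx, ?_⟩, fun i h' => ⟨f i, 0, 1, hf i, one_pos,
      fun x hx => ⟨h' x hx, ?_⟩⟩⟩
    · nlinarith [h x hx.1, pow_pos hx.1 s]
    · rw [pow_zero, mul_one, one_mul]
      exact Finset.single_le_sum (f := fun j => normSq (f j x)) (fun _ _ => normSq_nonneg _)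
        (Finset.mem_univ i)
  have a1 := (fam _ X.a fun i => (X.ro.ta i).1).2 0 fun x hx =>
    Finset.prod_ne_zero_iff.1 (left_ne_zero_of_mul (sb.sub hx).2.2) 0 (Finset.mem_univ _)
  have b1 := (fam _ X.b fun i => (X.ro.tb i).1).2 0 fun x hx =>
    Finset.prod_ne_zero_iff.1 (right_ne_zero_of_mul (sb.sub hx).2.2) 0 (Finset.mem_univ _)
  have a2 := (fam _ X.a fun i => (X.ro.ta i).1).1 (pos h0 a1)
  have b2 := (fam _ X.b fun i => (X.ro.tb i).1).1 (pos h0 b1)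
  refine ⟨cst, fun v v' => mul h0 km, fun v hv => ⟨pos h0 hv, fun t => rpow h0 X.fr.p1 (k1 1) km hv,
    fun v' => mono hv, ?_⟩, fam, ?_, fun t => ⟨two t ?_ ?_, two t ?_ ?_, two t (mul h0 km a1 b1) ?_,
      two t ?_ ?_⟩⟩
  · obtain ⟨η, s, c, tη, c0, h⟩ := hv
    have : IsFiniteMeasure (M.mu X.H) := (mMU n M X.H X.fr.kae.toMet).2.1
    have := ae_neBot.2 m0
    obtain ⟨x₀, h1, h2⟩ := (a0.and (knz g sb.tm sb.nz).1).exists
    have cη : ContinuousOn (fun x => normSq (η x)) {x | 0 < X.p x} := by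
      simpa [nsq] using (kfam Unit (fun _ => η) fun _ => tη).2.2.2.1
    have mη : AEMeasurable (fun x => normSq (η x)) (M.mu X.H) := (cη.aemeasurable
      op.measurableSet).mono_measure
        (Measure.restrict_eq_self_of_ae_mem (a0.mono fun x hx => hx.1)).ge
    obtain ⟨-, t, t0, ht⟩ := RBR.MIN.Sm.mul (μ := M.mu X.H) ⟨mη.ennreal_ofReal.inv,
      (knz η tη ⟨x₀, h1.1, (h x₀ ⟨h1.1, h1.2, h2⟩).1⟩).2.2⟩ (RBR.MIN.Sm.pow
        ⟨cp.measurable.aemeasurable.ennreal_ofReal.inv, tp, tp0, htp⟩ (Nat.cast_nonneg s))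
    have ct : (ENNReal.ofReal c)⁻¹ ^ t ≠ ⊤ := ENNReal.rpow_ne_top_of_nonneg t0.le
      (ENNReal.inv_ne_top.2 (ENNReal.ofReal_pos.2 c0).ne')
    refine ⟨t, t0, ne_top_of_le_ne_top (ENNReal.mul_ne_top ct ht) ?_⟩
    rw [← lintegral_const_mul' _ _ ct]
    refine le_trans (setLIntegral_mono' (knz g sb.tm sb.nz).2.1.1.measurableSet fun x hx => ?_)
      (setLIntegral_le_lintegral _ _)
    have q1 := normSq_pos.2 (h x hx).1
    have p0 := h0 x hx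
    have q0 : 0 < c * (normSq (η x) * X.p x ^ s) := by positivity
    simp only [Pi.inv_apply]
    rw [← ENNReal.ofReal_inv_of_pos c0, ← ENNReal.ofReal_inv_of_pos q1,
      ← ENNReal.ofReal_inv_of_pos p0, ENNReal.ofReal_rpow_of_pos (inv_pos.2 p0),
      ← ENNReal.mul_rpow_of_nonneg _ _ t0.le, ← ENNReal.ofReal_mul (inv_pos.2 q1).le,
      ← ENNReal.ofReal_mul (inv_pos.2 c0).le, ENNReal.ofReal_rpow_of_pos (by positivity),
      Real.rpow_natCast, inv_pow, ← mul_inv, ← mul_inv, Real.inv_rpow q0.le,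
      ← Real.rpow_neg q0.le]
    exact ENNReal.ofReal_le_ofReal
      (Real.rpow_le_rpow_of_nonpos q0 (h x hx).2 (neg_nonpos.2 t0.le))
  · obtain ⟨s, c, h⟩ := X.ad.lo
    exact low s c fun x hx => ⟨(X.ad.k0 x ⟨hx.1, hx.2.1⟩).le, h x ⟨hx.1, hx.2.1⟩⟩
  · obtain ⟨s, c, h⟩ := X.fr.low
    exact low s c fun x hx => ⟨(T0 x hx.1).le, h x hx.1⟩
  · obtain ⟨s, c, h⟩ := X.fr.al.tb
    exact inv s c fun x hx => ⟨T0 x hx.1, h x hx.1⟩
  · exact mul h0 km a1 b2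
  · simpa only [KJ.tq, div_eq_mul_inv, mul_inv, inv_inv] using mul h0 km a2 b1
  · simpa only [hp, mul_inv] using mul h0 km a2 b2
  · exact mono (cst 1 one_pos) 1 fun x _ => by constructor <;> linarith [nsq_nonneg (X.z x)]
  · obtain ⟨-, -, -, -, s, c, h⟩ := kfam _ _ X.fr.tz
    exact inv s c fun x hx => ⟨by linarith [nsq_nonneg (X.z x)], h x hx.1⟩

end Pool.Agent.Lib.KU
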