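import Pool.Agent.Lib.KU.Blue

/-! Project ku, row MO: the model of a context. -/

open scoped Classical Topology ContDiff
open Set Complex Filter

set_option linter.unusedVariables false

noncomputable section

namespace Pool.Agent.Lib.KU

open Pool.Agent.Lib.SV (E)
open Pool.Agent.Lib.HS32
open Pool.Agent.Lib.KH (OnK)

namespace MO

variable {n : ℕ} {M : Mf n} (X : Tk M)

theorem loc : OnK M {x | 0 < X.p x} fun e w =>
    Real.log (X.T (e.symm w)) = Real.log (normSq (X.τ e w)) - X.ψ e w := fun e he w hw ho => by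
  have hx := e.map_target hw
  have h1 := X.lτ e he _ (M.ch_mem _) _ hx (M.mem_ch _) ho
  have h2 := X.wt.cmp e he _ (M.ch_mem _) _ hx (M.mem_ch _)
  have h3 := normSq_pos.2 (X.Λ.ne e he _ (M.ch_mem _) _ hx (M.mem_ch _))
  have h4 := normSq_pos.2 (X.hτ e he w hw ho).2
  rw [e.right_inv hw] at h1 h2
  simp only [Tk.T, Mf.nrC, Mf.ev, h1, h2, map_mul]
  rw [Real.log_mul (mul_pos h4 h3).ne' (Real.exp_pos _).ne', Real.log_mul h4.ne' h3.ne',
    Real.log_exp]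
  ring

theorem cur : OnK M {x | 0 < X.p x} fun e w =>
    M.hs (fun x => Real.log (X.T x)) e w = -((X.d : ℝ) • X.Θ e w) := fun e he z hz ho => by
  obtain ⟨h1, h2⟩ := X.hτ e he z hz ho
  obtain ⟨a1, a2, -⟩ := ((mHOL n _ z).2.2 h1).2.2.2 h2
  have hO : IsOpen {x | 0 < X.p x} := isOpen_lt continuous_const X.fr.pol.sm.continuous
  have e1 : M.lc (fun y => Real.log (X.T y)) e =ᶠ[𝓝 z]
      fun w => ((Real.log (normSq (X.τ e w)) : ℝ) : ℂ) - (X.ψ e w : ℂ) := by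
    filter_upwards [e.open_target.mem_nhds hz,
      (e.continuousAt_symm hz).eventually (hO.mem_nhds ho)] with w w1 w2
    simp only [Mf.lc, loc X e he w w1 w2, ofReal_sub]
  rw [Mf.hs, hess_congr e1, hess_sub (cd_ofReal a1) (cd_ofReal (X.wt.sm e he z hz)), a2, zero_sub,
    ← X.cur e he z hz]
  rfl

end MO

theorem uMO (rR : RBR.St_R) : St_MO := by
  intro n M _ X
  obtain ⟨N, U, c₁, c, r₁, r₂, a, b, h1, h2⟩ := rR n X.k M _ _ _ _ _ _ _ _ _ _ _ _ _ X.fr X.ad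
  exact ⟨_, r₁, r₂, ⟨X.H, X.p, X.σ, X.z, X.θ, X.T, X.m, X.D, X.C, X.d, X.κ, X.ε, X.φ, N, U, c₁, c,
    a, b, finProdFinEquiv.symm, X.fr, X.ad, h1, h2⟩, ⟨rfl, rfl, rfl, rfl, rfl, rfl, rfl, rfl⟩,
    X.clo, MO.cur X, X.ze, X.zar, X.dom⟩

end Pool.Agent.Lib.KU
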