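import Pool.Agent.Lib.KU.Blue
import Pool.Agent.Lib.KQ.B_P0
import Pool.Agent.Lib.KQ.B_KIT
import Pool.Agent.Lib.KQ.B_PO0
import Pool.Agent.Lib.KQ.B_ONE
import Pool.Agent.Lib.KJ.B_KIT
import Pool.Agent.Lib.KJ.B_INT
import Pool.Agent.Lib.RBR.B_MHB

/-! Project ku, row PK: the peak function. -/

open scoped Classical Topology ContDiff ComplexOrder Matrix ENNReal
open Set MeasureTheory Complex Metric Filter

noncomputable section

namespace Pool.Agent.Lib.KU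

open Pool.Agent.Lib.SV (E nsq)
open Pool.Agent.Lib.HS32
open Pool.Agent.Lib.KH (OnK SmK HoK HqB Jo lden)
open Pool.Agent.Lib.KQ (HoV HqS Nm ka)
open Pool.Agent.Lib.KJ (tq hp PsK Iv L2)
open Pool.Agent.Lib.RBR (Oz Mo Ul)

namespace PK

theorem ew {A B t : ℝ} (hA : 0 < A) (hB : 0 < B) :
    Real.exp (-((1 - t) * Real.log A + (1 + t) * Real.log B)) = (A * B)⁻¹ * (A / B) ^ t := by
  rw [Real.rpow_def_of_pos (div_pos hA hB), Real.log_div hA.ne' hB.ne',
    ← Real.exp_log (mul_pos hA hB), ← Real.exp_neg, ← Real.exp_add, Real.log_mul hA.ne' hB.ne']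
  congr 1
  ring

theorem ep {s t : ℝ} (hs : 0 < s) : Real.exp (-(t * Real.log s)) = s ^ (-t) := by
  rw [Real.rpow_def_of_pos hs]
  congr 1
  ring

theorem hqs {n : ℕ} {M : Mf n} {O : Set M.X} {ν : Measure M.X} (u : M.X → ℝ)
    (hM : KJ.Ms M O ν) (h : HqB M O ν) : HqS M O O ν 0 u 1 := by
  intro κ β Γ hβ hD _ hN
  obtain ⟨F, hF, h2⟩ := h κ β Γ ((KJ.jINT n M O ν hM).2.1 ℝ β hβ)
    ⟨hD.sf, hD.sg, hD.b0, fun e he z hz hx => by simpa using hD.pos e he z hz hx,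
      fun e he z hz hx v => by simpa using hD.dom e he z hz hx v⟩ hN
  exact ⟨F, hF, by rw [one_mul]; exact h2⟩

end PK

open PK RBR.MHB in
theorem uPK (hTUB : St_TUB) (hLW : St_LW) (hKIT : St_KIT) (hREM : St_REM) (rHQA : RBR.St_HQA)
    (rCHK : RBR.St_CHK) (rMW : RBR.St_MW) (rKIT : RBR.St_KIT) : St_PK := by
  intro n k r r₁ r₂ M _ X g l hS hl
  obtain ⟨x₀, hx₀, ρ₀, hρ₀, hT⟩ := hTUB n k r r₁ r₂ M X g l hS hl
  obtain ⟨-, w2, -, -, w5, w6⟩ := hLW n k r r₁ r₂ M X g hS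
  obtain ⟨ho, hae, -, -, k5, k6, -, cκ, cT, -, -, -, mU, C₀, -, hpos⟩ := hKIT n k r r₁ r₂ M X g hS
  obtain ⟨-, -, T0, -, -, -, -, -, -, -, -, -, -, -, hC⟩ :=
    rKIT n k M X.H X.p X.σ X.z X.θ X.T X.m X.D X.C X.fr
  have hCm := (hC g hS.tm hS.nz).2.1
  have hB := ((rMW n k r r₁ r₂ M X).1 0 0 le_rfl (by simp)).2
  set O := Oz X.p X.σ g with hO
  obtain ⟨-, -, -, -, j5, j6, -⟩ := KJ.bKIT n M O ho
  have res : ∀ f : M.X → ℂ, HoK M {x | 0 < X.p x} f → HoK M O f :=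
    fun f hf e he w hw hx => hf e he w hw hx.1
  have hz : HoV M O X.z := fun i => res _ (X.fr.tz i).1
  obtain ⟨cz, -, c3, -⟩ := rCHK n k M O X.z ho hz
  have e0 : ∀ i : ℕ, (0 : ℝ) < 1 / ((i : ℝ) + 1) := fun i => by positivity
  have s0 : ∀ x, 0 < 1 + nsq (X.z x) := fun x => add_pos_of_pos_of_nonneg one_pos (nn _)
  have s1 : ∀ x, 1 ≤ 1 + nsq (X.z x) := fun x => le_add_of_nonneg_right (nn _)
  have ab : ∀ x ∈ O, 0 < nsq (X.a · x) ∧ 0 < nsq (X.b · x) := fun x hx => by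
    have h := (hpos x hx).2.2.2.1
    rcases pos_and_pos_or_neg_and_neg_of_mul_pos h with h | h
    · exact h
    · exact absurd h.1 (not_lt.2 (nn _))
  set t : ℝ := 1 / (X.d * X.N) with ht
  have t0 : 0 ≤ t := by positivity
  have t1 : t ≤ 1 := by
    have a1 : (1 : ℝ) ≤ X.d := by exact_mod_cast X.ad.d0
    have a2 : (1 : ℝ) ≤ X.N := by exact_mod_cast X.ro.N0
    rw [ht, div_le_one (by positivity)]
    nlinarith
  set w : M.X → ℝ := fun x => (1 - t) * Real.log (nsq (X.a · x)) +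
    (1 + t) * Real.log (nsq (X.b · x)) with hw
  have pw : PsK M O w := by
    have a1 := (j5 _ X.a fun i => res _ (X.ro.ta i).1.1).2.2.2.2 fun x hx => (ab x hx).1
    have a2 := (j5 _ X.b fun i => res _ (X.ro.tb i).1.1).2.2.2.2 fun x hx => (ab x hx).2
    exact (j6 _ ((j6 _ a1).2.2.1 (1 - t) (by linarith))).2.2.2.1 _
      ((j6 _ a2).2.2.1 (1 + t) (by linarith))
  have vw : ∀ x ∈ O, Real.exp (-w x) = (hp X.a X.b x)⁻¹ * tq X.a X.b x ^ t := fun x hx =>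
    ew (ab x hx).1 (ab x hx).2
  set ψ : ℕ → M.X → ℝ := fun i x => l * (X.U (1 / ((i : ℝ) + 1)) (X.z x) +
    X.c₁ * Real.log (1 + nsq (X.z x))) with hψ
  have ps : ∀ i, PsK M O (ψ i) := fun i =>
    (j6 _ ((c3 (fun w => X.U (1 / ((i : ℝ) + 1)) w + X.c₁ * Real.log (1 + nsq w))
      ((X.ro.up.sm _ (e0 i)).add (contDiff_const.mul sm_log))).2.2
        (X.ro.up.psh _ (e0 i)))).2.2.1 l hl
  have mo : ∀ i, ∀ x ∈ O, ψ (i + 1) x ≤ ψ i x := fun i x _ => by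
    have a1 := X.ro.up.mono _ _ (X.z x) (e0 (i + 1))
      (Nat.one_div_le_one_div (α := ℝ) (Nat.le_succ i))
    simp only [hψ]
    gcongr
  have H := rHQA n M X.H X.p X.σ X.T X.d X.κ X.ε X.φ O 0 ψ X.fr.kae X.ad T0 hCm
    (fun x hx => ⟨hx.1, hx.2.1⟩) le_rfl ps mo
  set v : M.X → ℝ := fun x => (1 + nsq (X.z x)) ^ (-(l * X.c₁)) *
    (X.κ x * X.T x ^ ((1 : ℝ) / X.d)) with hv
  set ρ : M.X → ℝ≥0∞ := fun x =>
    ENNReal.ofReal (Real.exp (-(l * Ul X.U (X.z x))) * v x) with hρ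
  have v0 : ∀ x ∈ O, 0 < v x := fun x hx =>
    mul_pos (Real.rpow_pos_of_pos (s0 x) _)
      (mul_pos (hpos x hx).1 (Real.rpow_pos_of_pos (hpos x hx).2.1 _))
  have cs : ContinuousOn (fun x => 1 + nsq (X.z x)) O :=
    continuousOn_const.add (sm_nsq.continuous.comp_continuousOn cz)
  have cv : ContinuousOn v O :=
    (cs.rpow_const fun x _ => Or.inl (s0 x).ne').mul (cκ.mul
      ((cT.mono fun x hx => hx.1).rpow_const fun x hx => Or.inl (hpos x hx).2.1.ne'))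
  have mρ : AEMeasurable ρ (M.mu X.H) :=
    ((Real.measurable_exp.comp_aemeasurable (mU.const_mul l).neg).mul (k5 v cv)).ennreal_ofReal
  have lv : Lw X.p O v := w2 _ _ (w6 _).2.2.2 (w2 _ _ w5 (w6 _).1)
  have e1 : ∀ᵐ x ∂M.mu X.H, x ∈ O ∧ 1 ≤ Real.exp (-(l * Ul X.U (X.z x))) := by
    filter_upwards [hae, X.ro.fin] with x hx hf
    have := ((hB x (hS.sub hx)).2 hf).1
    exact ⟨hx, Real.one_le_exp (by nlinarith)⟩
  obtain ⟨hMs, hLo, hI⟩ := k6 ρ v mρ lv (by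
    filter_upwards [e1] with x hx
    exact ENNReal.ofReal_le_ofReal (le_mul_of_one_le_left (v0 x hx.1).le hx.2))
  have E1 : ((M.mu X.H).restrict O).withDensity ρ =
      ((M.mu X.H).restrict O).withDensity fun x =>
        ENNReal.ofReal (X.κ x * X.T x ^ ((1 : ℝ) / X.d + 0)) *
          lden (fun i x => 0 * (X.d : ℝ) * X.φ i x + ψ i x) x := by
    refine withDensity_congr_ae ?_
    filter_upwards [ae_restrict_mem ho.measurableSet, ae_restrict_of_ae X.ro.fin] with x hx hf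
    have h1 := ((hB x (hS.sub hx)).2 hf).2.2.1
    have t2 : Tendsto (fun i : ℕ => 0 * (X.d : ℝ) * X.φ i x + ψ i x) atTop
        (𝓝 (l * (Ul X.U (X.z x) + X.c₁ * Real.log (1 + nsq (X.z x))))) := by
      simp only [zero_mul, zero_add, hψ]
      exact (h1.add_const _).const_mul l
    rw [add_zero, lim _ x _ t2, ← ENNReal.ofReal_mul
      (mul_pos (hpos x hx).1 (Real.rpow_pos_of_pos (hpos x hx).2.1 _)).le]
    simp only [hρ, hv]
    rw [← ep (s0 x), mul_add, neg_add, Real.exp_add, mul_assoc l]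
    congr 1
    ring
  rw [← E1] at H
  set ν := ((M.mu X.H).restrict O).withDensity ρ with hν
  obtain ⟨-, i2, -, -, i5, i6⟩ := KJ.jINT n M O ν hMs
  have vk : ∀ x ∈ O, v x * Real.exp (-ka n w X.z 1 x) =
      (1 + nsq (X.z x)) ^ (-(l * X.c₁ + (n + 1))) * ((hp X.a X.b x)⁻¹ * md X x) := fun x hx => by
    simp only [ka, hv, md, Nat.cast_one, one_mul]
    rw [neg_add, Real.exp_add, vw x hx, ep (s0 x), neg_add (l * X.c₁), Real.rpow_add (s0 x)]
    ring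
  have ck : ContinuousOn (fun x => Real.exp (-ka n w X.z 1 x)) O :=
    Real.continuous_exp.comp_continuousOn ((continuousOn_const.mul (j6 _ pw).1).add
      (continuousOn_const.mul (cs.log fun x _ => (s0 x).ne'))).neg
  have nI : ∀ F, HoK M O F → Nm ν (ka n w X.z 1) F = Jo M X.H O fun x => normSq (F x) *
      (Real.exp (-(l * Ul X.U (X.z x))) * ((1 + nsq (X.z x)) ^ (-(l * X.c₁ + (n + 1))) *
        ((hp X.a X.b x)⁻¹ * md X x))) := fun F hF => by
    have cF := ((KJ.bKIT n M O ho).2.2.2.1 F hF).1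
    refine (hI _ (k5 _ ((continuous_normSq.comp_continuousOn cF).mul ck))).trans ?_
    refine setLIntegral_congr_fun ho.measurableSet fun x hx => ?_
    simp only [hρ]
    rw [← ENNReal.ofReal_mul (mul_pos (Real.exp_pos _) (v0 x hx)).le, ← vk x hx]
    congr 1
    simp only [Function.comp, Pi.mul_apply]
    ring
  obtain ⟨V, hV⟩ := i6 (fun x => Real.exp (-ka n w X.z 1 x)) (i2 ℝ _ ck)
    (Eventually.of_forall fun x => (Real.exp_pos _).le)
  have mV : ∀ G, G ∈ V ↔ G ∈ L2 M O ν fun x => Real.exp (-ka n w X.z 1 x) := fun G => by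
    rw [← hV]
    rfl
  have lu : Lw X.p O fun x => (1 + nsq (X.z x)) ^ (-(l * X.c₁ + (n + 1))) *
      (hp X.a X.b x ^ (-1 : ℝ) * md X x) :=
    w2 _ _ (w6 _).2.2.2 (w2 _ _ (w6 _).2.2.1 (w2 _ _ (w6 _).2.1 (w2 _ _ w5 (w6 _).1)))
  obtain ⟨V', fV, hV'⟩ := (hREM n k r r₁ r₂ M X g _ hS lu).2
  have q0 : ∀ x ∈ O, 0 ≤ (hp X.a X.b x)⁻¹ * md X x := fun x hx =>
    (mul_pos (inv_pos.2 (hpos x hx).2.2.2.1) (hpos x hx).2.2.2.2.1).le
  have fd : FiniteDimensional ℂ V := by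
    refine Submodule.finiteDimensional_of_le (S₂ := V') fun G hG => hV' ?_
    obtain ⟨g1, g2, g3⟩ := (mV G).1 hG
    refine ⟨g1, g2, ne_top_of_le_ne_top g3 (le_trans ?_ (nI G g1).ge)⟩
    refine lintegral_mono_ae ?_
    filter_upwards [ae_restrict_of_ae e1] with x hx
    refine ENNReal.ofReal_le_ofReal (mul_le_mul_of_nonneg_left ?_ (normSq_nonneg _))
    rw [Real.rpow_neg_one]
    exact le_mul_of_one_le_left
      (mul_nonneg (Real.rpow_nonneg (s0 x).le _) (q0 x hx.1)) hx.2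
  have fr : KQ.Fr M O O ν V := ⟨ho, ho, Subset.rfl, hMs.ae, hLo, fd, fun G hG => ((mV G).1 hG).1,
    fun G hG h0 => funext fun x => by
      obtain ⟨g1, g2, -⟩ := (mV G).1 hG
      by_cases hx : x ∈ O
      · exact hMs.sees G ((KJ.bKIT n M O ho).2.2.2.1 G g1).1 h0 x hx
      · exact g2 x hx⟩
  have lc : 0 ≤ l * X.c₁ := mul_nonneg hl X.ro.up.c0
  have : IsFiniteMeasure (M.mu X.H) := (mMU n M X.H X.fr.kae.toMet).2.1
  obtain ⟨F, hF, h1, h2⟩ := KQ.qP0 KQ.qKIT (KQ.qPO0 KQ.qKIT) (KQ.qONE KQ.qKIT) n M O O 0 w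
    (ka n w X.z 1) k 1 X.z ν V 1 x₀ ρ₀ X.fr.n0 pw.1
    (fun e he z hz hx => by simpa using pw.2 e he z hz hx) hz fr (hqs _ hMs H) ENNReal.one_ne_top
    (fun F hF hN => ⟨_, (mV _).2 (i5 F _ hF hN), fun x hx => indicator_of_mem hx F⟩)
    ⟨0, fun x _ => by simp⟩ hx₀ hρ₀ (by
      refine ne_top_of_le_ne_top hT ?_
      have cw : ContinuousOn (fun x => Real.exp (-(((1 : ℕ) : ℝ) * w x))) O :=
        Real.continuous_exp.comp_continuousOn (continuousOn_const.mul (j6 _ pw).1).neg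
      rw [hν, restrict_withDensity', Measure.restrict_restrict' ho.measurableSet, inter_comm,
        lintegral_withDensity_eq_lintegral_mul₀ mρ.restrict (k5 _ cw).ennreal_ofReal.restrict]
      refine lintegral_mono_ae ?_
      filter_upwards [ae_restrict_of_ae hae] with x hx
      simp only [hρ, Pi.mul_apply, Nat.cast_one, one_mul]
      rw [← ENNReal.ofReal_mul (mul_pos (Real.exp_pos _) (v0 x hx)).le, vw x hx, mul_assoc]
      refine ENNReal.ofReal_le_ofReal (mul_le_mul_of_nonneg_left ?_ (Real.exp_pos _).le)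
      have a1 : (1 + nsq (X.z x)) ^ (-(l * X.c₁)) ≤ 1 :=
        Real.rpow_le_one_of_one_le_of_nonpos (s1 x) (by linarith)
      calc _ = (1 + nsq (X.z x)) ^ (-(l * X.c₁)) * ((hp X.a X.b x)⁻¹ * md X x) := by
            simp only [hv, md]
            ring
        _ ≤ _ := mul_le_of_le_one_left (q0 x hx) a1)
  have hF1 := ((mV F).1 hF).1
  refine ⟨F, ⌈l * X.c₁ + (n + 1)⌉₊, hF1, ⟨x₀, hx₀, by rw [h1]; exact one_ne_zero⟩,
    ne_top_of_le_ne_top h2 (le_trans ?_ (nI F hF1).ge)⟩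
  refine lintegral_mono_ae ?_
  filter_upwards [ae_restrict_of_ae hae] with x hx
  refine ENNReal.ofReal_le_ofReal (mul_le_mul_of_nonneg_left ?_ (normSq_nonneg _))
  rw [mul_assoc]
  refine mul_le_mul_of_nonneg_left (mul_le_mul_of_nonneg_right ?_ (q0 x hx)) (Real.exp_pos _).le
  rw [← Real.rpow_natCast, ← Real.rpow_neg (s0 x).le]
  exact Real.rpow_le_rpow_of_exponent_le (s1 x) (neg_le_neg (Nat.le_ceil _))

end Pool.Agent.Lib.KU
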