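import Pool.Agent.Lib.KU.Blue
import Pool.Agent.Lib.KJ.B_KIT

/-! Project ku, row REM: square integrable functions. -/

open scoped Classical Topology ENNReal
open Set MeasureTheory Complex Metric Filter

noncomputable section

namespace Pool.Agent.Lib.KU

open Pool.Agent.Lib.HS32
open Pool.Agent.Lib.KH (HoK Jo)
open Pool.Agent.Lib.RBR (Bq Tm Nz Oz)

namespace REM

/-- Division by `η` on the set `O`. -/
def dvd {Y : Type} (O : Set Y) (η : Y → ℂ) : (Y → ℂ) →ₗ[ℂ] Y → ℂ where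
  toFun G x := if x ∈ O then G x / η x else 0
  map_add' G G' := by
    funext x
    simp only [Pi.add_apply]
    split_ifs
    · exact add_div _ _ _
    · exact (add_zero _).symm
  map_smul' c G := by
    funext x
    simp only [Pi.smul_apply, smul_eq_mul, RingHom.id_apply]
    split_ifs
    · exact mul_div_assoc _ _ _
    · exact (mul_zero _).symm

end REM

theorem uREM (rKIT : RBR.St_KIT) : St_REM := by
  intro n k r r₁ r₂ M _ X g v hS ⟨η, s, c, hη, hc, hv⟩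
  obtain ⟨hO, -, -, -, -, -, -, -, -, -, hbt, -, hV, -, hg⟩ := rKIT n k M _ _ _ _ _ _ _ _ _ X.fr
  have hZ : IsOpen (Oz X.p X.σ g) := (hg g hS.tm hS.nz).2.1.1
  obtain ⟨-, kZ, -⟩ := KJ.bKIT n M _ hZ
  obtain ⟨-, -, kc, kr, -⟩ := KJ.bKIT n M _ hO
  obtain ⟨s₀, hrem⟩ := X.fr.rem
  have key : ∀ F, HoK M (Oz X.p X.σ g) F →
      Jo M X.H (Oz X.p X.σ g) (fun x => normSq (F x) * v x) ≠ ⊤ →
      ∃ F', Bq X.p X.T 0 (s₀ * (s + 1)) F' ∧ ∀ x ∈ Oz X.p X.σ g, F' x = F x * η x := by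
    intro F hF hJ
    refine hrem g hS.tm hS.nz 0 s (fun x => F x * η x)
      (kZ F η hF ((kr η hη.1).2.1 _ fun x hx => hx.1)).2.2.1 ?_
    refine ne_top_of_le_ne_top (ENNReal.mul_ne_top (ENNReal.ofReal_ne_top (r := c⁻¹)) hJ) ?_
    unfold Jo
    rw [← lintegral_const_mul' _ _ ENNReal.ofReal_ne_top]
    refine setLIntegral_mono' hZ.measurableSet fun x hx => ?_
    rw [← ENNReal.ofReal_mul (inv_pos.2 hc).le]
    refine ENNReal.ofReal_le_ofReal ?_
    rw [le_inv_mul_iff₀ hc]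
    simp only [map_mul, pow_zero, one_mul]
    have := mul_le_mul_of_nonneg_left (hv x hx).2 (normSq_nonneg (F x))
    linarith
  refine ⟨⟨η, hη, fun x hx => (hv x hx).1, fun F hF hJ => ?_⟩, ?_⟩
  · obtain ⟨F', h1, h2⟩ := key F hF hJ
    obtain ⟨s', hs'⟩ := hbt 0 (s₀ * (s + 1))
    exact ⟨F', (hs' F' h1).2, h2⟩
  · obtain ⟨V, hfd, hmem⟩ := hV (s₀ * (s + 1))
    refine ⟨V.map (REM.dvd (Oz X.p X.σ g) η), inferInstance, ?_⟩
    rintro F ⟨hF, h0, hJ⟩
    obtain ⟨F', ⟨h1, C, hC⟩, h2⟩ := key F hF hJ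
    refine ⟨fun x => if 0 < X.p x then F' x else 0, (hmem _).2 ⟨⟨kc F' _ h1 fun x hx => if_pos hx,
      C, fun x hx => ?_⟩, fun x hx => if_neg hx⟩, ?_⟩
    · simp only [if_pos hx]
      exact hC x hx
    · funext x
      change (if x ∈ Oz X.p X.σ g then (if 0 < X.p x then F' x else 0) / η x else 0) = F x
      by_cases hx : x ∈ Oz X.p X.σ g
      · rw [if_pos hx, if_pos hx.1, h2 x hx, mul_div_cancel_right₀ _ (hv x hx).1]
      · rw [if_neg hx, h0 x hx]

end Pool.Agent.Lib.KU
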