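import Pool.Agent.Lib.KU.Blue
import Pool.Agent.Lib.KJ.All

/-! Project ku, row SG: the sections with all negative moments. -/

open scoped Classical Topology ContDiff ComplexOrder Matrix ENNReal
open Set MeasureTheory Complex Metric Filter

noncomputable section

namespace Pool.Agent.Lib.KU

open Pool.Agent.Lib.SV (E nsq)
open Pool.Agent.Lib.HS32
open Pool.Agent.Lib.KH (OnK SmK HoK Jo)
open Pool.Agent.Lib.KJ (tq hp PsK Iv)
open Pool.Agent.Lib.RBR (Bq Tm Nz O0 Oz Frm Adj Mo)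

namespace SG

variable {n k r r₁ r₂ : ℕ} {M : Mf n}

theorem onk_sub {O O' : Set M.X} {q : M.Ch → E n → Prop} (h : OnK M O q) (hs : O' ⊆ O) :
    OnK M O' q := fun e he z hz hx => h e he z hz (hs hx)

theorem le_nsq {ι : Type} [Fintype ι] (v : ι → ℂ) (i : ι) : normSq (v i) ≤ nsq v :=
  Finset.single_le_sum (f := fun j => normSq (v j)) (fun _ _ => normSq_nonneg _) (Finset.mem_univ i)

theorem nsq_nn {ι : Type} [Fintype ι] (v : ι → ℂ) : 0 ≤ nsq v :=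
  Finset.sum_nonneg fun _ _ => normSq_nonneg _

theorem tm_bq (X : Mo M k r r₁ r₂) {j : ℕ} {f : M.X → ℂ} (h : Bq X.p X.T j 0 f) : Tm X.p f := by
  obtain ⟨h1, C, hC⟩ := h
  obtain ⟨a, c, hc⟩ := X.fr.low
  refine ⟨h1, a * j, |c| ^ j * C, fun x hx => ?_⟩
  have h2 : X.p x ^ a ≤ |c| * X.T x :=
    (hc x hx).trans (mul_le_mul_of_nonneg_right (le_abs_self c) (X.fr.al.t0 x))
  have h3 : X.p x ^ (a * j) ≤ |c| ^ j * X.T x ^ j := by
    rw [pow_mul, ← mul_pow]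
    exact pow_le_pow_left₀ (pow_pos hx a).le h2 j
  have h4 := hC x hx
  rw [pow_zero, mul_one] at h4
  calc normSq (f x) * X.p x ^ (a * j) ≤ normSq (f x) * (|c| ^ j * X.T x ^ j) :=
        mul_le_mul_of_nonneg_left h3 (normSq_nonneg _)
    _ = |c| ^ j * (normSq (f x) * X.T x ^ j) := by ring
    _ ≤ |c| ^ j * C := mul_le_mul_of_nonneg_left h4 (pow_nonneg (abs_nonneg c) j)

end SG

open SG in
theorem uSG (hDM : St_DM) (hEXT : St_EXT) (hKIT : St_KIT) (rMD : RBR.St_MD) : St_SG := by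
  intro n k r r₁ r₂ M _ X Θ a hE
  obtain ⟨hRk, l, J, hMd⟩ := rMD n k r r₁ r₂ M X
  have hO : X.O ⊆ {x | 0 < X.p x} := fun x hx => hx.1
  obtain ⟨O', ν, A, x, θ, N₁, r₀, σ, -, ⟨g, η, hAm, rfl, hPk⟩, hS⟩ :=
    KJ.aSIG n r r₁ r₂ M X.O X.μ (X.d * X.N) (J + 1) X.e X.a X.b (X.B l J) X.u (Pk X)
      (fun i => onk_sub (X.ro.ta i).1.1 hO) (fun j => onk_sub (X.ro.tb j).1.1 hO) hMd hRk
      (hDM n k r r₁ r₂ M X Θ a hE)
  obtain ⟨hop, -, -, -, hme, -, hsb, -, -, ctq, -⟩ := hKIT n k r r₁ r₂ M X g hAm.toSb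
  obtain ⟨C, hC⟩ := hS.bd
  have hs : ∀ i, ∃ F', Bq X.p X.T (X.N * N₁) 0 F' ∧ ∀ y ∈ Oz X.p X.σ g, F' y = σ i y := fun i =>
    (hEXT n k r r₁ r₂ M X g N₁ hAm.toSb).1 (σ i) (hS.hol i)
      ⟨C, fun y hy => (le_nsq (σ · y) i).trans (hC y hy)⟩
  choose s hs1 hs2 using hs
  have hν : ν ≠ 0 := (KJ.aINT n M _ ν hS.toMs).1
  have : (ae ν).NeBot := ae_neBot.2 hν
  obtain ⟨x₀, hx₀, hx₁⟩ := (hS.ae.and hS.nz).exists
  obtain ⟨i₀, hi₀⟩ : ∃ i, σ i x₀ ≠ 0 := by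
    by_contra hne
    have h0 : nsq (σ · x₀) = 0 := Finset.sum_eq_zero fun i _ => by
      have : σ i x₀ = 0 := by
        by_contra h
        exact hne ⟨i, h⟩
      simp [this]
    exact hx₁.ne' h0
  obtain ⟨hSb, hOz⟩ := hsb (s i₀) (tm_bq X (hs1 i₀)) ⟨x₀, hx₀.1, by rw [hs2 i₀ x₀ hx₀]; exact hi₀⟩
  have hsub : Oz X.p X.σ (fun y => g y * s i₀ y) ⊆ Oz X.p X.σ g := by
    rw [hOz]
    exact inter_subset_left
  have hop' : IsOpen (Oz X.p X.σ fun y => g y * s i₀ y) := (hKIT n k r r₁ r₂ M X _ hSb).1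
  have cσ : ContinuousOn (fun y => nsq (σ · y)) (Oz X.p X.σ g) :=
    ((KJ.aKIT n M _ hop).2.2.2.2.1 (Fin r₀) σ hS.hol).2.2.1
  have hm := hPk (fun y => tq X.a X.b y ^ N₁ / nsq (σ · y))
    (((hme _ ctq).pow_const N₁).div (hme _ cσ))
    (fun y => div_nonneg (pow_nonneg (div_nonneg (nsq_nn _) (nsq_nn _)) _) (nsq_nn _)) hS.mom
  obtain ⟨η', s', c', h1, h2, h3⟩ := hAm.hi
  refine ⟨fun y => g y * s i₀ y, A, η, N₁, r₀, s,
    ⟨hSb, hAm.tη, fun y hy => hAm.lo y (hsub hy), ⟨η', s', c', h1, h2, fun y hy => h3 y (hsub hy)⟩,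
      hAm.ct.mono hsub⟩, hS.N0, hs1, fun y hy => ?_, fun t => ?_, fun w hw c hc => ?_⟩
  · have hy' : s i₀ y ≠ 0 := by
      rw [hOz] at hy
      exact hy.2
    exact (normSq_pos.2 hy').trans_le (le_nsq (s · y) i₀)
  · refine ne_top_of_le_ne_top (hm t) ?_
    unfold Jo
    refine le_trans (le_of_eq ?_) (lintegral_mono_set hsub)
    refine setLIntegral_congr_fun hop'.measurableSet fun y hy => ?_
    have : (fun i => s i y) = fun i => σ i y := funext fun i => hs2 i y (hsub hy)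
    simp only [this]
  · obtain ⟨φ, C', h4, h5⟩ := hS.adm w hw c hc
    exact ⟨φ, C', ⟨onk_sub h4.1 hsub, onk_sub h4.2 hsub⟩, fun y hy => h5 y (hsub hy)⟩

end Pool.Agent.Lib.KU
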