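import Pool.Agent.Lib.KU.Blue

/-! Project ku: a tube of finite mass. -/

open scoped Classical Topology ContDiff ComplexOrder Matrix ENNReal
open Set MeasureTheory Complex Metric Filter

set_option linter.unusedVariables false

noncomputable section

namespace Pool.Agent.Lib.KU

open Pool.Agent.Lib.SV (E nsq)
open Pool.Agent.Lib.HS32
open Pool.Agent.Lib.KH (HoK Jo)
open Pool.Agent.Lib.KJ (hp)
open Pool.Agent.Lib.RBR (Tm Nz O0 Oz Mo Ul)

namespace TUB

theorem nsq0 {k : ℕ} (v : E k) : 0 ≤ nsq v := Finset.sum_nonneg fun _ _ => normSq_nonneg _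

theorem le_nsq {k : ℕ} (v : E k) : ‖v‖ ^ 2 ≤ nsq v := by
  have h : ‖v‖ ≤ √(nsq v) := (pi_norm_le_iff_of_nonneg (Real.sqrt_nonneg _)).2 fun i => by
    refine Real.le_sqrt_of_sq_le ?_
    rw [← Complex.normSq_eq_norm_sq]
    exact Finset.single_le_sum (f := fun i => normSq (v i)) (fun _ _ => normSq_nonneg _)
      (Finset.mem_univ i)
  exact (pow_le_pow_left₀ (norm_nonneg _) h 2).trans_eq (Real.sq_sqrt (nsq0 v))

theorem cnsq {k : ℕ} : Continuous (nsq : E k → ℝ) :=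
  continuous_finsetSum _ fun i _ => continuous_normSq.comp (continuous_apply i)

theorem cont {n : ℕ} {M : Mf n} {O : Set M.X} {F : M.X → ℂ} (h : HoK M O F) : ContinuousOn F O :=
  fun y hy => by
    obtain ⟨e, he, hs⟩ := M.cov y
    have h2 := (h e he _ (e.map_source hs) (by rwa [e.left_inv hs])).self_of_nhds.continuousAt
    exact ((e.symm.continuousAt_iff_continuousAt_comp_right hs).2 h2).continuousWithinAt

theorem young {κ l u t : ℝ} (hκ : 0 ≤ κ) (hu : u ≤ 0) (ht : 1 < t) :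
    Real.exp (-(l * u)) * κ ≤ κ ^ t + Real.exp (-((l * Real.conjExponent t + 1) * u)) := by
  have h := Real.HolderConjugate.conjExponent ht
  have h1 := Real.young_inequality_of_nonneg hκ (Real.exp_pos (-(l * u))).le h
  have h2 := div_le_self (Real.rpow_nonneg hκ t) ht.le
  have h3 := div_le_self (Real.rpow_nonneg (Real.exp_pos (-(l * u))).le (Real.conjExponent t))
    h.symm.lt.le
  have h4 : Real.exp (-(l * u)) ^ Real.conjExponent t ≤
      Real.exp (-((l * Real.conjExponent t + 1) * u)) := by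
    rw [← Real.exp_mul]
    exact Real.exp_le_exp.2 (by linarith)
  linarith

end TUB

theorem uTUB (hINV : St_INV) (hKIT : St_KIT) (rKIT : RBR.St_KIT) (rMW : RBR.St_MW) : St_TUB := by
  intro n k r r₁ r₂ M _ X g l hg hl
  obtain ⟨hO, hae, -, -, hm, -, -, cκ, -, -, -, -, -, C₂, hC₂, hb⟩ := hKIT n k r r₁ r₂ M X g hg
  obtain ⟨-, -, -, -, hμ, -, -, -, kmul, kpol, -, -, -, -, kae⟩ :=
    rKIT n k M X.H X.p X.σ X.z X.θ X.T X.m X.D X.C X.fr
  have hw := ((rMW n k r r₁ r₂ M X).1 0 0 le_rfl (by simp)).2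
  obtain ⟨-, m1, m2⟩ := kmul _ _ (X.ro.ta 0).1 (X.ro.tb 0).1
  obtain ⟨Q, b, C, hQ, hinv⟩ := hINV n k r r₁ r₂ M X _ m1 (m2 (X.ro.ta 0).2 (X.ro.tb 0).2)
  have hQae := (kae _ ((kpol (Fin k) (fun i x => X.z x i) X.fr.tz).2.2.1 Q) (X.fr.ind Q hQ)).1
  have := ae_neBot.2 hμ
  obtain ⟨x₀, h0, h1, h2⟩ := (hae.and (X.ro.fin.and hQae)).exists
  have zc : ContinuousOn X.z (Oz X.p X.σ g) :=
    (continuousOn_pi.2 fun i => TUB.cont (X.fr.tz i).1).mono fun x hx => hx.1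
  have pp : ∀ y : E k, 0 < (1 + nsq y) ^ b := fun y =>
    pow_pos (add_pos_of_pos_of_nonneg one_pos (TUB.nsq0 y)) b
  have qc : Continuous fun y : E k => normSq (MvPolynomial.eval y Q) / (1 + nsq y) ^ b :=
    (continuous_normSq.comp (MvPolynomial.continuous_eval Q)).div
      ((continuous_const.add TUB.cnsq).pow b) fun y => (pp y).ne'
  obtain ⟨c, hc, hc'⟩ := exists_between (div_pos (normSq_pos.2 h2) (pp (X.z x₀)))
  obtain ⟨ρ₁, hρ₁, h3⟩ := Metric.eventually_nhds_iff_ball.1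
    (qc.continuousAt.eventually (lt_mem_nhds hc'))
  obtain ⟨t, ht, hκt⟩ := X.ad.int
  have hs : 0 < l * Real.conjExponent t + 1 := add_pos_of_nonneg_of_pos
    (mul_nonneg hl (Real.HolderConjugate.conjExponent ht).symm.nonneg) one_pos
  obtain ⟨ρ₂, hρ₂, A, h4⟩ := X.ro.tub _ h1 _ hs
  have hρ := lt_min hρ₁ hρ₂
  have hS : IsOpen (Oz X.p X.σ g ∩ X.z ⁻¹' ball (X.z x₀) (min ρ₁ ρ₂)) :=
    zc.isOpen_inter_preimage hO isOpen_ball
  have hi : ∀ i : ℕ, (1 : ℝ) / (i + 1) ∈ Ioc (0 : ℝ) 1 := fun i =>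
    ⟨Nat.one_div_pos_of_nat, (div_le_one (Nat.cast_add_one_pos i)).2 (le_add_of_nonneg_left
      (Nat.cast_nonneg i))⟩
  refine ⟨x₀, h0, min ρ₁ ρ₂ / 2, half_pos hρ, ne_top_of_le_ne_top ?_ (lintegral_mono_set
    (t := Oz X.p X.σ g ∩ X.z ⁻¹' ball (X.z x₀) (min ρ₁ ρ₂)) fun x hx => ⟨hx.1, ?_⟩)⟩
  swap
  · have h5 := (TUB.le_nsq _).trans hx.2
    exact mem_ball_iff_norm.2 (((pow_le_pow_iff_left₀ (norm_nonneg _) (half_pos hρ).le
      two_ne_zero).1 h5).trans_lt (half_lt_self hρ))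
  have key : ∀ᵐ x ∂(M.mu X.H).restrict (Oz X.p X.σ g ∩ X.z ⁻¹' ball (X.z x₀) (min ρ₁ ρ₂)),
      ENNReal.ofReal (Real.exp (-(l * Ul X.U (X.z x))) * ((hp X.a X.b x)⁻¹ * md X x)) ≤
        ENNReal.ofReal (C / c * C₂) * (ENNReal.ofReal (X.κ x ^ t) + liminf (fun i : ℕ =>
          ENNReal.ofReal (Real.exp (-((l * Real.conjExponent t + 1) *
            X.U (1 / ((i : ℝ) + 1)) (X.z x))))) atTop) := by
    rw [ae_restrict_iff' hS.measurableSet]
    filter_upwards [X.ro.fin] with x hf hx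
    obtain ⟨b1, -, -, b2, b3, -, b4, b5⟩ := hb x hx.1
    obtain ⟨u1, -, u2, -⟩ := (hw x (hg.sub hx.1)).2 hf
    rw [(ENNReal.tendsto_ofReal (u2.const_mul (l * Real.conjExponent t + 1)).neg.rexp).liminf_eq,
      ← ENNReal.ofReal_add (Real.rpow_nonneg b1.le t) (Real.exp_pos _).le]
    have c1 := (lt_div_iff₀ (pp _)).1 (h3 _ (ball_subset_ball (min_le_left _ _) hx.2))
    have c2 : c < C * normSq (X.a 0 x * X.b 0 x) := by
      refine lt_of_mul_lt_mul_right ?_ (pp (X.z x)).le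
      rw [mul_right_comm]
      exact c1.trans_le (hinv x hx.1.1)
    have c3 : 0 < C := pos_of_mul_pos_left (hc.trans c2) (normSq_nonneg _)
    have c4 : normSq (X.a 0 x * X.b 0 x) ≤ hp X.a X.b x := le_trans
      (le_mul_of_one_le_right (normSq_nonneg _) (le_add_of_nonneg_right (TUB.nsq0 _))) b5
    have c5 : (hp X.a X.b x)⁻¹ ≤ C / c := by
      rw [le_div_iff₀ hc, inv_mul_le_iff₀ b2, mul_comm]
      exact c2.le.trans (mul_le_mul_of_nonneg_left c4 c3.le)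
    have c6 : 0 ≤ C / c * C₂ := by positivity
    rw [← ENNReal.ofReal_mul c6]
    refine ENNReal.ofReal_le_ofReal (le_trans ?_
      (mul_le_mul_of_nonneg_left (TUB.young b1.le u1 ht) c6))
    exact (mul_le_mul_of_nonneg_left (mul_le_mul c5 b4 b3.le (div_pos c3 hc).le)
      (Real.exp_pos _).le).trans_eq (by ring)
  have hsub : Oz X.p X.σ g ∩ X.z ⁻¹' ball (X.z x₀) (min ρ₁ ρ₂) ⊆
      {x | 0 < X.p x ∧ X.z x ∈ ball (X.z x₀) ρ₂} :=
    fun x hx => ⟨hx.1.1, ball_subset_ball (min_le_right _ _) hx.2⟩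
  refine ne_top_of_le_ne_top ?_ (lintegral_mono_ae key)
  rw [lintegral_const_mul' _ _ ENNReal.ofReal_ne_top, lintegral_add_left'
    (((hm _ cκ).pow_const t).ennreal_ofReal.restrict)]
  refine ENNReal.mul_ne_top ENNReal.ofReal_ne_top (ENNReal.add_ne_top.2 ⟨ne_top_of_le_ne_top hκt
    (lintegral_mono_set fun x hx => ⟨hx.1.1, hx.1.2.1⟩), ne_top_of_le_ne_top
      (ENNReal.ofReal_ne_top (r := A)) ((lintegral_liminf_le' fun i => ?_).trans
        (liminf_le_of_frequently_le' (Frequently.of_forall fun i =>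
          le_trans (lintegral_mono_set hsub) (h4 _ (hi i)))))⟩)
  exact (hm _ (Real.continuous_exp.comp_continuousOn (continuousOn_const.mul
    ((X.ro.up.sm _ (hi i).1).continuous.comp_continuousOn zc)).neg)).ennreal_ofReal.restrict

end Pool.Agent.Lib.KU
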