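import Pool.Agent.Lib.KU.Blue
import Pool.Agent.Lib.KJ.B_KIT

/-! Project ku, row VAN: square integrable sections have square integrable powers. -/

open scoped Classical Topology ContDiff ComplexOrder Matrix ENNReal
open Set MeasureTheory Complex Metric Filter

noncomputable section

namespace Pool.Agent.Lib.KU

open Pool.Agent.Lib.SV (E nsq)
open Pool.Agent.Lib.HS32
open Pool.Agent.Lib.KH (HoK Jo)
open Pool.Agent.Lib.RBR (O0 Oz)

theorem uVAN (hKIT : St_KIT) (rKIT : RBR.St_KIT) (rMB : RBR.St_MB) : St_VAN := by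
  intro n k r r₁ r₂ M _ X Θ a g F j ex sb j0 hF hJ
  obtain ⟨op, -, T0, ae0, -, -, -, -, -, -, k11, -⟩ :=
    rKIT n k M X.H X.p X.σ X.z X.θ X.T X.m X.D X.C X.fr
  obtain ⟨ms, -, -, -, -, -, -, m8, -⟩ := rMB n k r r₁ r₂ M X
  obtain ⟨og, ae, -, -, me, -, -, cκ, cT, -⟩ := hKIT n k r r₁ r₂ M X g sb
  have : IsFiniteMeasure (M.mu X.H) := (mMU n M X.H X.fr.kae.toMet).2.1
  obtain ⟨s₀, rem⟩ := X.fr.rem
  obtain ⟨s₁, c₁, lo⟩ := X.ad.lo
  have f4 : Jo M X.H (Oz X.p X.σ g)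
      (fun x => normSq (F x) * (X.T x ^ (X.N * j) * X.p x ^ s₁)) ≠ ⊤ := by
    refine ne_top_of_le_ne_top (ENNReal.mul_ne_top (ENNReal.ofReal_ne_top (r := c₁)) hJ) ?_
    unfold Jo
    rw [← lintegral_const_mul' _ _ ENNReal.ofReal_ne_top]
    refine setLIntegral_mono' og.measurableSet fun x hx => ?_
    have h0 : x ∈ O0 X.p X.σ := ⟨hx.1, hx.2.1⟩
    have a1 := lo x h0
    rw [← ENNReal.ofReal_mul
      (pos_of_mul_pos_left ((pow_pos hx.1 _).trans_le a1) (X.ad.k0 x h0).le).le]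
    refine ENNReal.ofReal_le_ofReal ?_
    nlinarith [mul_le_mul_of_nonneg_left a1
      (mul_nonneg (normSq_nonneg (F x)) (pow_pos (T0 x hx.1) (X.N * j)).le)]
  obtain ⟨G, b1, b2⟩ := rem g sb.tm sb.nz _ _ F hF f4
  obtain ⟨s', tm⟩ := k11 (X.N * j) (s₀ * (s₁ + 1))
  obtain ⟨hG, C, bd⟩ := ex.zar _ G (Nat.mul_pos X.ro.N0 j0) (tm G b1).2 (by
    unfold Jo at hJ ⊢
    rw [Measure.restrict_eq_self_of_ae_mem ae] at hJ
    rw [Measure.restrict_eq_self_of_ae_mem ae0]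
    exact (lintegral_congr_ae (ae.mono fun x hx => by simp only [b2 x hx])).trans_ne hJ)
  have sub : X.O ⊆ {x | 0 < X.p x} := fun x hx => (m8 x hx).1.1
  refine ⟨X.O.indicator G, fun i i0 => ⟨?_, fun x hx => ?_, ?_⟩,
    fun y hy => (indicator_of_mem (sb.sub hy) G).trans (b2 y hy)⟩
  · obtain ⟨-, h2, -, h4, -⟩ := KJ.bKIT n M _ op
    exact (KJ.bKIT n M _ ms.op).2.2.1 _ _ ((h4 _ ((h2 G G hG hG).2.2.2.1 i)).2.1 _ sub)
      fun x hx => by rw [Pi.pow_apply, indicator_of_mem hx]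
  · rw [Pi.pow_apply, indicator_of_notMem hx, zero_pow i0.ne']
  obtain ⟨t, t1, ht⟩ := X.ad.int
  have fin : ∫⁻ x, ENNReal.ofReal (C ^ i) * (1 + ENNReal.ofReal (X.κ x ^ t)) ∂M.mu X.H ≠ ⊤ := by
    unfold Jo at ht
    rw [Measure.restrict_eq_self_of_ae_mem ae0] at ht
    rw [lintegral_const_mul' _ _ ENNReal.ofReal_ne_top, lintegral_add_left measurable_const]
    exact ENNReal.mul_ne_top ENNReal.ofReal_ne_top (ENNReal.add_ne_top.2 ⟨by simp, ht⟩)
  have mρ := me (fun x => X.κ x * X.T x ^ ((1 : ℝ) / X.d))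
    (cκ.mul ((cT.mono fun x hx => hx.1).rpow_const fun x hx => Or.inl (T0 x hx.1).ne'))
  unfold KJ.Iv RBR.Mo.μ RBR.mf
  rw [lintegral_withDensity_eq_lintegral_mul_non_measurable₀ _ mρ.restrict.ennreal_ofReal
    (ae_of_all _ fun _ => ENNReal.ofReal_lt_top)]
  refine ne_top_of_le_ne_top fin (le_trans (setLIntegral_mono' ms.op.measurableSet fun x hx => ?_)
    (setLIntegral_le_lintegral X.O _))
  have hT := T0 x (sub hx)
  have hκ := X.ad.k0 x (m8 x hx).1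
  have a0 : 0 ≤ normSq (G x) * X.T x ^ (X.N * j) := mul_nonneg (normSq_nonneg _) (by positivity)
  have a1 : normSq (G x) * X.T x ^ (X.N * j) ≤ C := by simpa using bd x (sub hx)
  have a2 : X.κ x ≤ 1 + X.κ x ^ t := by
    rcases le_total (X.κ x) 1 with h | h
    · linarith [Real.rpow_pos_of_pos hκ t]
    · linarith [Real.self_le_rpow_of_one_le h t1.le]
  have e : X.T x ^ ((1 : ℝ) / X.d) * X.u (i * j) x = (X.T x ^ (X.N * j)) ^ i := by
    rw [RBR.Mo.u, RBR.uu, ← Real.rpow_add hT, add_sub_cancel, ← Nat.cast_mul, Real.rpow_natCast,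
      ← pow_mul, mul_comm i, mul_assoc]
  rw [Pi.mul_apply, ← ENNReal.ofReal_mul (by positivity), ← ENNReal.ofReal_one,
    ← ENNReal.ofReal_add zero_le_one (by positivity),
    ← ENNReal.ofReal_mul (pow_nonneg (a0.trans a1) _)]
  refine ENNReal.ofReal_le_ofReal (le_trans (le_of_eq ?_)
    (mul_le_mul (pow_le_pow_left₀ a0 a1 i) a2 hκ.le (pow_nonneg (a0.trans a1) _)))
  beta_reduce
  rw [Pi.pow_apply, indicator_of_mem hx, map_pow, pow_zero, div_one, mul_pow, ← e]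
  ring

end Pool.Agent.Lib.KU
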