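import Pool.Agent.Lib.RBR.All
import Pool.Agent.Lib.KU.B_AM
import Pool.Agent.Lib.KU.B_B1
import Pool.Agent.Lib.KU.B_CNT
import Pool.Agent.Lib.KU.B_DIV
import Pool.Agent.Lib.KU.B_DM
import Pool.Agent.Lib.KU.B_DM2
import Pool.Agent.Lib.KU.B_DQ
import Pool.Agent.Lib.KU.B_EXT
import Pool.Agent.Lib.KU.B_FIN
import Pool.Agent.Lib.KU.B_GRN
import Pool.Agent.Lib.KU.B_GRW
import Pool.Agent.Lib.KU.B_HLD
import Pool.Agent.Lib.KU.B_HQ1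
import Pool.Agent.Lib.KU.B_HQD
import Pool.Agent.Lib.KU.B_INV
import Pool.Agent.Lib.KU.B_K6M
import Pool.Agent.Lib.KU.B_KIT
import Pool.Agent.Lib.KU.B_LDU
import Pool.Agent.Lib.KU.B_LW
import Pool.Agent.Lib.KU.B_MO
import Pool.Agent.Lib.KU.B_PK
import Pool.Agent.Lib.KU.B_REM
import Pool.Agent.Lib.KU.B_SG
import Pool.Agent.Lib.KU.B_TUB
import Pool.Agent.Lib.KU.B_VAN
import Pool.Agent.Lib.K5.All

/-! Project ku: the assembly. -/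

namespace Pool.Agent.Lib.KU

theorem aKIT : St_KIT := uKIT RBR.aKIT RBR.rMSR

theorem aLW : St_LW := uLW RBR.aKIT

theorem aREM : St_REM := uREM RBR.aKIT

theorem aEXT : St_EXT := uEXT aKIT aLW aREM RBR.aKIT

theorem aDM : St_DM :=
  uDM uDM2 (uAM aLW RBR.aKIT RBR.aMB) (uDQ uLDU (uHQD uHQ1 RBR.aKIT) aLW aKIT uHLD RBR.rHOL) aEXT
    (uVAN aKIT RBR.aKIT RBR.aMB) RBR.aKIT

theorem aTR : St_TR := uTR (uMO RBR.aR) (uSG aDM aEXT aKIT RBR.aMD)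

theorem aPK : St_PK :=
  uPK (uTUB (uINV aKIT RBR.aKIT) aKIT RBR.aKIT RBR.aMW) aLW aKIT aREM RBR.aHQA RBR.aCHK RBR.aMW
    RBR.aKIT

theorem aDIV : St_DIV :=
  uDIV (uFIN (uB1 aPK uGRW aLW aKIT aREM RBR.aKIT) aKIT RBR.aMW RBR.aKIT) aLW aKIT aREM RBR.aHQA
    RBR.aKIT KJ.aKIT KJ.aSKK

theorem aK6 : St_K6 := uK6 aTR (uGRN RBR.aKIT) (uK6M aDIV uCNT RBR.aKIT)

theorem aK5 : St_K5 := K5.aK5 aK6 aTR

end Pool.Agent.Lib.KU
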