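import Pool.Agent.Lib.KU.Blue
import Pool.Agent.Lib.KH.All

/-! Project ku, row HQ1: the theorem of Hörmander for weights that almost decrease. -/

open scoped Classical Topology ContDiff ENNReal
open Set MeasureTheory Complex Filter

noncomputable section

namespace Pool.Agent.Lib.KU

open Pool.Agent.Lib.HS32
open Pool.Agent.Lib.KH (Jo lden)

theorem uHQ1 : St_HQ1 := by
  intro n M _ H O ε ρ hH hC hW hL hA ph β Γ hβ hD hfin
  obtain ⟨k1, k2, -⟩ := KH.bKIT n M H O hH.toMet hC.1
  have hO : MeasurableSet O := hC.1.measurableSet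
  have cΓ : ContinuousOn Γ O := (k1 ℂ _ hD.sg).1
  have aeO : ∀ᵐ x ∂(M.mu H).restrict O, x ∈ O := ae_restrict_mem hO
  have mph : AEMeasurable (fun x => Real.exp (-ph x)) ((M.mu H).restrict O) :=
    (Real.continuous_exp.comp_continuousOn (k1 ℝ _ hD.sf).1.neg).aemeasurable hO
  have mρ : ∀ i, AEMeasurable (fun x => ENNReal.ofReal (Real.exp (-ρ i x)))
      ((M.mu H).restrict O) := fun i => ((Real.continuous_exp.comp_continuousOn
        (k1 ℝ _ (hW.sm i)).1.neg).aemeasurable hO).ennreal_ofReal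
  have ml : AEMeasurable (lden ρ) ((M.mu H).restrict O) := by
    refine ⟨_, Measurable.liminf fun i => (mρ i).measurable_mk, ?_⟩
    filter_upwards [ae_all_iff.2 fun i => (mρ i).ae_eq_mk] with x hx
    exact congrArg (fun f => liminf f atTop) (funext hx)
  choose A hA using hA
  have le1 : ∀ i, ∀ x ∈ O, ENNReal.ofReal (Real.exp (-(ρ i x + A i))) ≤ lden ρ x :=
    fun i x hx => le_liminf_of_le (by isBoundedDefault) ((eventually_ge_atTop i).mono fun j hj =>
      ENNReal.ofReal_le_ofReal (Real.exp_le_exp.2 (neg_le_neg (hA i x hx j hj))))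
  have hac : (M.mu H).restrict O ≪ ((M.mu H).restrict O).withDensity (lden ρ) := by
    refine withDensity_absolutelyContinuous' ml ?_
    filter_upwards [aeO] with x hx
    exact (lt_of_lt_of_le (ENNReal.ofReal_pos.2 (Real.exp_pos _)) (le1 0 x hx)).ne'
  have mβ : AEMeasurable β ((M.mu H).restrict O) := hβ.mono_ac hac
  have wd0 : ∀ c : M.X → ℝ, AEMeasurable c ((M.mu H).restrict O) →
      ∫⁻ x, ENNReal.ofReal (c x * Real.exp (-ph x)) ∂((M.mu H).restrict O).withDensity (lden ρ) =
        ∫⁻ x in O, ENNReal.ofReal (c x * Real.exp (-ph x)) * lden ρ x ∂M.mu H := fun c hc =>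
    (lintegral_withDensity_eq_lintegral_mul₀ ml (hc.mul mph).ennreal_ofReal).trans
      (lintegral_congr fun x => mul_comm _ _)
  have key : ∀ c : M.X → ℝ, AEMeasurable c ((M.mu H).restrict O) →
      ∫⁻ x, ENNReal.ofReal (c x * Real.exp (-ph x))
        ∂((M.mu H).restrict O).withDensity (lden ρ) ≠ ⊤ →
      ∀ i, Jo M H O (fun x => c x * Real.exp (-(ph x + ρ i x))) ≠ ⊤ := fun c hc h i => by
    rw [wd0 c hc] at h
    refine ne_top_of_le_ne_top
      (ENNReal.mul_ne_top (ENNReal.ofReal_ne_top (r := Real.exp (A i))) h) ?_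
    rw [← lintegral_const_mul' _ _ ENNReal.ofReal_ne_top]
    refine lintegral_mono_ae ?_
    filter_upwards [aeO] with x hx
    refine le_trans (le_of_eq ?_) (mul_le_mul_right (mul_le_mul_right (le1 i x hx) _) _)
    rw [mul_left_comm, ← ENNReal.ofReal_mul (Real.exp_pos _).le, ← Real.exp_add, KH.KHM.split,
      mul_comm, show A i + -(ρ i x + A i) = -ρ i x by ring]
  have mΓ : AEMeasurable (fun x => normSq (Γ x)) ((M.mu H).restrict O) :=
    (continuous_normSq.comp_continuousOn cΓ).aemeasurable hO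
  by_cases hb : ∫⁻ x, ENNReal.ofReal (β x * Real.exp (-ph x))
    ∂((M.mu H).restrict O).withDensity (lden ρ) = ⊤
  · exact ⟨fun _ => 0, fun e _ z _ _ => Eventually.of_forall fun w => differentiableAt_const _,
      hb ▸ le_top⟩
  obtain ⟨F, hF, hle⟩ := KH.aKHL n M H O ε ρ ph β Γ hH hC hW hL mβ hD
    fun i => ⟨key β mβ hb i, key _ mΓ hfin i⟩
  refine ⟨F, hF, ?_⟩
  rwa [wd0 _ mβ, wd0 (fun x => normSq (Γ x - F x))
    ((continuous_normSq.comp_continuousOn (cΓ.sub (k1 ℂ _ (k2 F hF)).1)).aemeasurable hO)]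

end Pool.Agent.Lib.KU
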