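import Pool.Agent.Lib.KU.Defs

/-! Project ku: domination, the sections with all negative moments and the Kodaira dimension.
Blueprint. -/

open scoped Classical Topology ContDiff ComplexOrder Matrix ENNReal
open Set MeasureTheory Complex Metric Filter

set_option linter.unusedVariables false

noncomputable section

namespace Pool.Agent.Lib.KU

open Pool.Agent.Lib.SV (E nsq)
open Pool.Agent.Lib.HS32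
open Pool.Agent.Lib.KH (OnK SmK HoK HqB Jo Pol Cmp Wq Lb lden)
open Pool.Agent.Lib.KJ (tq hp PsK Iv Fd Pw Dq Oq)
open Pool.Agent.Lib.RBR (Bq Tm Nz O0 Oz Frm Adj Mo Ul)
open Pool.Agent.Lib.NV6.J (mon pv Dv)

/-! ### Weights -/

/-- The theorem of Hörmander for weights that almost decrease. -/
def St_HQ1 : Prop := ∀ (n : ℕ) (M : Mf n) [M.Cpt] (H : M.Fam (Mat n)) (O : Set M.X)
  (ε : ℕ → ℝ) (ρ : ℕ → M.X → ℝ), M.Kae H → Cmp M H O → Wq M H O ε ρ → Lb M O ρ →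
  (∀ i, ∃ A, ∀ x ∈ O, ∀ j ≥ i, ρ j x ≤ ρ i x + A) →
  HqB M O (((M.mu H).restrict O).withDensity (lden ρ))

/-- The potentials. -/
def St_DM2 : Prop := ∀ (n : ℕ) (M : Mf n) [M.Cpt] (H Θ : M.Fam (Mat n)) (p N : M.X → ℝ)
  (a : ℝ → M.X → ℝ), M.Kae H → M.Clo Θ → Continuous p → (∀ x, 0 ≤ p x) → Ze M H Θ a →
  DK.Dom M H Θ {x | 0 < p x} N → ∃ δ α C ε u, Du H Θ {x | 0 < p x} N δ α C ε u

/-- The limit density of the potentials. -/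
def St_LDU : Prop := ∀ (n : ℕ) (M : Mf n) [M.Cpt] (H Θ : M.Fam (Mat n)) (O : Set M.X)
  (N : M.X → ℝ) (δ α C : ℝ) (ε : ℕ → ℝ) (u : ℕ → M.X → ℝ) (t : ℝ), M.Met H → IsOpen O →
  (∀ᵐ x ∂M.mu H, x ∈ O) → (∀ x ∈ O, 0 < N x) → Du H Θ O N δ α C ε u → 0 < t →
  AEMeasurable (lden fun i x => t * u i x) (M.mu H) ∧
  (∃ c > (0 : ℝ), ∀ x ∈ O, ENNReal.ofReal (c * N x ^ (t * δ)) ≤ lden (fun i x => t * u i x) x) ∧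
  ∫⁻ x, lden (fun i x => t * u i x) x ^ (α / t) ∂M.mu H ≠ ⊤

/-- The theorem of Hörmander for the measure of domination. -/
def St_HQD : Prop := ∀ (n k r r₁ r₂ : ℕ) (M : Mf n) [M.Cpt] (X : Mo M k r r₁ r₂)
  (Θ : M.Fam (Mat n)) (a : ℝ → M.X → ℝ) (N : M.X → ℝ) (δ α C : ℝ) (ε : ℕ → ℝ) (u : ℕ → M.X → ℝ)
  (g : M.X → ℂ) (y : ℝ), Ex X Θ a → Du X.H Θ {x | 0 < X.p x} N δ α C ε u → Sb X g → 0 < y →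
  HqB M (Oz X.p X.σ g) (((M.mu X.H).restrict (Oz X.p X.σ g)).withDensity fun x =>
    ENNReal.ofReal (X.κ x * X.T x ^ ((1 : ℝ) / X.d + y)) * lden (fun i x => y * X.d * u i x) x)

/-- Lower bounds. -/
def St_LW : Prop := ∀ (n k r r₁ r₂ : ℕ) (M : Mf n) [M.Cpt] (X : Mo M k r r₁ r₂) (g : M.X → ℂ),
  Sb X g → (∀ c > (0 : ℝ), Lw X.p (Oz X.p X.σ g) fun _ => c) ∧
  (∀ v v', Lw X.p (Oz X.p X.σ g) v → Lw X.p (Oz X.p X.σ g) v' →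
    Lw X.p (Oz X.p X.σ g) fun x => v x * v' x) ∧
  (∀ v, Lw X.p (Oz X.p X.σ g) v → (∀ x ∈ Oz X.p X.σ g, 0 < v x) ∧
    (∀ t ≥ (0 : ℝ), Lw X.p (Oz X.p X.σ g) fun x => v x ^ t) ∧
    (∀ (v' : M.X → ℝ) (C : ℝ), (∀ x ∈ Oz X.p X.σ g, 0 ≤ v' x ∧ v x ≤ C * v' x) →
      Lw X.p (Oz X.p X.σ g) v') ∧
    ∃ t > (0 : ℝ), Jo M X.H (Oz X.p X.σ g) (fun x => v x ^ (-t)) ≠ ⊤) ∧
  (∀ (ι : Type) [Fintype ι] (f : ι → M.X → ℂ), (∀ i, Tm X.p (f i)) →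
    ((∀ x ∈ Oz X.p X.σ g, 0 < nsq (f · x)) → Lw X.p (Oz X.p X.σ g) fun x => (nsq (f · x))⁻¹) ∧
    ∀ i, (∀ x ∈ Oz X.p X.σ g, f i x ≠ 0) → Lw X.p (Oz X.p X.σ g) fun x => nsq (f · x)) ∧
  Lw X.p (Oz X.p X.σ g) X.κ ∧ ∀ t : ℝ, Lw X.p (Oz X.p X.σ g) (fun x => X.T x ^ t) ∧
    Lw X.p (Oz X.p X.σ g) (fun x => tq X.a X.b x ^ t) ∧
    Lw X.p (Oz X.p X.σ g) (fun x => hp X.a X.b x ^ t) ∧
    Lw X.p (Oz X.p X.σ g) fun x => (1 + nsq (X.z x)) ^ t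

/-- The open set, the measures and the functions of the model. -/
def St_KIT : Prop := ∀ (n k r r₁ r₂ : ℕ) (M : Mf n) [M.Cpt] (X : Mo M k r r₁ r₂) (g : M.X → ℂ),
  Sb X g → IsOpen (Oz X.p X.σ g) ∧ (∀ᵐ x ∂M.mu X.H, x ∈ Oz X.p X.σ g) ∧
  (∀ f f' : M.X → ℝ, ContinuousOn f {x | 0 < X.p x} → ContinuousOn f' {x | 0 < X.p x} →
    (∀ x ∈ Oz X.p X.σ g, f x ≤ f' x) → ∀ x, 0 < X.p x → f x ≤ f' x) ∧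
  (∀ f : M.X → ℂ, ContinuousOn f {x | 0 < X.p x} → (∀ x ∈ Oz X.p X.σ g, f x = 0) →
    ∀ x, 0 < X.p x → f x = 0) ∧
  (∀ f : M.X → ℝ, ContinuousOn f (Oz X.p X.σ g) → AEMeasurable f (M.mu X.H)) ∧
  (∀ (ρ : M.X → ℝ≥0∞) (v : M.X → ℝ), AEMeasurable ρ (M.mu X.H) → Lw X.p (Oz X.p X.σ g) v →
    (∀ᵐ x ∂M.mu X.H, ENNReal.ofReal (v x) ≤ ρ x) →
    KJ.Ms M (Oz X.p X.σ g) (((M.mu X.H).restrict (Oz X.p X.σ g)).withDensity ρ) ∧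
    KQ.Lo M (Oz X.p X.σ g) (((M.mu X.H).restrict (Oz X.p X.σ g)).withDensity ρ) ∧
    ∀ f : M.X → ℝ, AEMeasurable f (M.mu X.H) →
      Iv (((M.mu X.H).restrict (Oz X.p X.σ g)).withDensity ρ) f =
        ∫⁻ x in Oz X.p X.σ g, ρ x * ENNReal.ofReal (f x) ∂M.mu X.H) ∧
  (∀ g', Tm X.p g' → Nz X.p g' → Sb X (fun x => g x * g' x) ∧
    Oz X.p X.σ (fun x => g x * g' x) = Oz X.p X.σ g ∩ {x | g' x ≠ 0}) ∧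
  ContinuousOn X.κ (Oz X.p X.σ g) ∧ ContinuousOn X.T {x | 0 < X.p x} ∧
  ContinuousOn (tq X.a X.b) (Oz X.p X.σ g) ∧ ContinuousOn (hp X.a X.b) {x | 0 < X.p x} ∧
  ContinuousOn (md X) (Oz X.p X.σ g) ∧ AEMeasurable (fun x => Ul X.U (X.z x)) (M.mu X.H) ∧
  ∃ C > (0 : ℝ), ∀ x ∈ Oz X.p X.σ g, 0 < X.κ x ∧ 0 < X.T x ∧ 0 < tq X.a X.b x ∧ 0 < hp X.a X.b x ∧
    0 < md X x ∧ X.T x ^ X.N * tq X.a X.b x ≤ C ∧ md X x ≤ C * X.κ x ∧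
    normSq (X.a 0 x * X.b 0 x) * (1 + nsq (X.z x)) ≤ hp X.a X.b x

/-- Square integrable functions. -/
def St_REM : Prop := ∀ (n k r r₁ r₂ : ℕ) (M : Mf n) [M.Cpt] (X : Mo M k r r₁ r₂) (g : M.X → ℂ)
  (v : M.X → ℝ), Sb X g → Lw X.p (Oz X.p X.σ g) v →
  (∃ η, Tm X.p η ∧ (∀ x ∈ Oz X.p X.σ g, η x ≠ 0) ∧ ∀ F, HoK M (Oz X.p X.σ g) F →
    Jo M X.H (Oz X.p X.σ g) (fun x => normSq (F x) * v x) ≠ ⊤ →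
    ∃ F', Tm X.p F' ∧ ∀ x ∈ Oz X.p X.σ g, F' x = F x * η x) ∧
  Fd {F | HoK M (Oz X.p X.σ g) F ∧ (∀ x ∉ Oz X.p X.σ g, F x = 0) ∧
    Jo M X.H (Oz X.p X.σ g) (fun x => normSq (F x) * v x) ≠ ⊤}

/-- Bounded sections extend. -/
def St_EXT : Prop := ∀ (n k r r₁ r₂ : ℕ) (M : Mf n) [M.Cpt] (X : Mo M k r r₁ r₂) (g : M.X → ℂ)
  (j : ℕ), Sb X g → (∀ F, HoK M (Oz X.p X.σ g) F →
    (∃ C, ∀ x ∈ Oz X.p X.σ g, normSq (F x) ≤ C * tq X.a X.b x ^ j) →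
    ∃ F', Bq X.p X.T (X.N * j) 0 F' ∧ ∀ x ∈ Oz X.p X.σ g, F' x = F x) ∧
  Fd {F | HoK M (Oz X.p X.σ g) F ∧ (∀ y ∉ Oz X.p X.σ g, F y = 0) ∧
    ∃ C, ∀ y ∈ Oz X.p X.σ g, normSq (F y) ≤ C * tq X.a X.b y ^ j}

/-- Square integrable sections have square integrable powers. -/
def St_VAN : Prop := ∀ (n k r r₁ r₂ : ℕ) (M : Mf n) [M.Cpt] (X : Mo M k r r₁ r₂)
  (Θ : M.Fam (Mat n)) (a : ℝ → M.X → ℝ) (g F : M.X → ℂ) (j : ℕ), Ex X Θ a → Sb X g → 0 < j →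
  HoK M (Oz X.p X.σ g) F →
  Jo M X.H (Oz X.p X.σ g) (fun x => normSq (F x) * X.T x ^ (X.N * j) * X.κ x) ≠ ⊤ →
  ∃ s, Pw M X.O X.μ X.h X.u j s ∧ ∀ y ∈ Oz X.p X.σ g, s y = F y

/-- The moments do not depend on the density. -/
def St_HLD : Prop := ∀ (Y : Type) [MeasurableSpace Y] (μ : Measure Y) [IsFiniteMeasure μ]
  (W f : Y → ℝ≥0∞) (v : Y → ℝ) (s : ℝ), AEMeasurable W μ → AEMeasurable f μ → AEMeasurable v μ →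
  0 < s → (∀ᵐ y ∂μ, 0 < v y ∧ ENNReal.ofReal (v y) ≤ W y) →
  ∫⁻ y, ENNReal.ofReal (v y ^ (-s)) ∂μ ≠ ⊤ → (∀ t : ℕ, ∫⁻ y, W y * f y ^ t ∂μ ≠ ⊤) →
  ∀ t : ℕ, ∫⁻ y, f y ^ t ∂μ ≠ ⊤

/-- The ample function of a family of forms. -/
def St_AM : Prop := ∀ (n k r r₁ r₂ : ℕ) (M : Mf n) [M.Cpt] (X : Mo M k r r₁ r₂) (m e : ℕ)
  (Q : Fin m → MvPolynomial (Fin r) ℂ) (A : M.X → ℝ), KJ.Fm X.O X.h e Q →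
  (∀ y, A y = nsq (X.h · y) * nsq (fun i => pv X.h (Q i) y) ^ 2) →
  (∃ g η, Am X g A η ∧ Oq X.O X.h Q = Oz X.p X.σ g ∧ Lw X.p (Oz X.p X.σ g) A) ∧
    ∃ (ι : Type) (_ : Fintype ι) (_ : Nonempty ι) (f : ι → M.X → ℂ), (∀ i, Tm X.p (f i)) ∧
      ∀ y, A y = ∑ i, normSq (f i y)

/-- The measure of domination. -/
def St_DQ : Prop := ∀ (n k r r₁ r₂ : ℕ) (M : Mf n) [M.Cpt] (X : Mo M k r r₁ r₂)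
  (Θ : M.Fam (Mat n)) (a : ℝ → M.X → ℝ) (g η : M.X → ℂ) (A : M.X → ℝ) (δ α C : ℝ) (ε : ℕ → ℝ)
  (u : ℕ → M.X → ℝ), Ex X Θ a → Am X g A η → Lw X.p (Oz X.p X.σ g) A → (∀ y, 0 ≤ A y) →
  Du X.H Θ {x | 0 < X.p x} (fun y => 1 + A y) δ α C ε u →
  ∃ ν x θ, Dq M (Oz X.p X.σ g) ν (tq X.a X.b) A x θ ∧ Pk X (Oz X.p X.σ g) ν A x θ ∧
    ∀ j : ℕ, x ≤ j → ∀ F, HoK M (Oz X.p X.σ g) F →
      Iv ν (fun y => normSq (F y) * (tq X.a X.b y ^ (-(j - x)) * A y ^ (-θ))) ≠ ⊤ →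
      Jo M X.H (Oz X.p X.σ g) (fun y => normSq (F y) * X.T y ^ (X.N * j) * X.κ y) ≠ ⊤

/-- Domination. -/
def St_DM : Prop := ∀ (n k r r₁ r₂ : ℕ) (M : Mf n) [M.Cpt] (X : Mo M k r r₁ r₂)
  (Θ : M.Fam (Mat n)) (a : ℝ → M.X → ℝ), Ex X Θ a →
  KJ.Dm M X.O X.μ X.h X.u (tq X.a X.b) (Pk X)

/-- The sections with all negative moments. -/
def St_SG : Prop := ∀ (n k r r₁ r₂ : ℕ) (M : Mf n) [M.Cpt] (X : Mo M k r r₁ r₂)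
  (Θ : M.Fam (Mat n)) (a : ℝ → M.X → ℝ), Ex X Θ a →
  ∃ (g : M.X → ℂ) (A : M.X → ℝ) (η : M.X → ℂ) (N₁ r₀ : ℕ) (s : Fin r₀ → M.X → ℂ), Sg X g A η N₁ s

/-- The model of a context. -/
def St_MO : Prop := ∀ (n : ℕ) (M : Mf n) [M.Cpt] (X : Tk M),
  ∃ (r r₁ r₂ : ℕ) (Y : Mo M X.k r r₁ r₂), X.Is Y ∧ Ex Y X.Θ X.a

/-! ### The Kodaira dimension -/

/-- Tame functions have polynomial growth on the base. -/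
def St_GRW : Prop := ∀ (n k r r₁ r₂ : ℕ) (M : Mf n) [M.Cpt] (X : Mo M k r r₁ r₂) (F : M.X → ℂ),
  Tm X.p F → ∃ (Q : MvPolynomial (Fin k) ℂ) (b : ℕ) (C : ℝ), Q ≠ 0 ∧ ∀ x, 0 < X.p x →
    normSq (MvPolynomial.eval (X.z x) Q) ≤ C * (1 + nsq (X.z x)) ^ b ∧
    normSq (MvPolynomial.eval (X.z x) Q * F x) ≤ C * (1 + nsq (X.z x)) ^ b

/-- The inverse of a tame function has polynomial growth on the base. -/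
def St_INV : Prop := ∀ (n k r r₁ r₂ : ℕ) (M : Mf n) [M.Cpt] (X : Mo M k r r₁ r₂) (F : M.X → ℂ),
  Tm X.p F → Nz X.p F → ∃ (Q : MvPolynomial (Fin k) ℂ) (b : ℕ) (C : ℝ), Q ≠ 0 ∧ ∀ x, 0 < X.p x →
    normSq (MvPolynomial.eval (X.z x) Q) ≤ C * (1 + nsq (X.z x)) ^ b * normSq (F x)

/-- A tube of finite mass. -/
def St_TUB : Prop := ∀ (n k r r₁ r₂ : ℕ) (M : Mf n) [M.Cpt] (X : Mo M k r r₁ r₂) (g : M.X → ℂ)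
  (l : ℝ), Sb X g → 0 ≤ l → ∃ x₀ ∈ Oz X.p X.σ g, ∃ ρ > (0 : ℝ),
    Jo M X.H (Oz X.p X.σ g ∩ {x | nsq (X.z x - X.z x₀) ≤ ρ ^ 2}) (fun x =>
      Real.exp (-(l * Ul X.U (X.z x))) * ((hp X.a X.b x)⁻¹ * md X x)) ≠ ⊤

/-- The peak function. -/
def St_PK : Prop := ∀ (n k r r₁ r₂ : ℕ) (M : Mf n) [M.Cpt] (X : Mo M k r r₁ r₂) (g : M.X → ℂ)
  (l : ℝ), Sb X g → 0 ≤ l → ∃ (F : M.X → ℂ) (J : ℕ), HoK M (Oz X.p X.σ g) F ∧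
    (∃ x ∈ Oz X.p X.σ g, F x ≠ 0) ∧ Jo M X.H (Oz X.p X.σ g) (fun x => normSq (F x) *
      (Real.exp (-(l * Ul X.U (X.z x))) * ((1 + nsq (X.z x)) ^ J)⁻¹ *
        ((hp X.a X.b x)⁻¹ * md X x))) ≠ ⊤

/-- The multiplier. -/
def St_B1 : Prop := ∀ (n k r r₁ r₂ : ℕ) (M : Mf n) [M.Cpt] (X : Mo M k r r₁ r₂) (g : M.X → ℂ)
  (l : ℝ), Sb X g → 0 ≤ l → ∃ (B : M.X → ℂ) (e A : ℕ) (C : ℝ), Tm X.p B ∧ Nz X.p B ∧ 0 < A ∧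
    (∀ x ∈ Oz X.p X.σ g, normSq (B x) ≤ C * hp X.a X.b x ^ e) ∧
    Jo M X.H (Oz X.p X.σ g) (fun x => normSq (B x) *
      (Real.exp (-(l * Ul X.U (X.z x))) * ((hp X.a X.b x ^ A)⁻¹ * md X x))) ≠ ⊤

/-- The condition of Skoda. -/
def St_FIN : Prop := ∀ (n k r r₁ r₂ r₀ : ℕ) (M : Mf n) [M.Cpt] (X : Mo M k r r₁ r₂)
  (g η : M.X → ℂ) (A : M.X → ℝ) (N₁ : ℕ) (s : Fin r₀ → M.X → ℂ) (c : ℕ), Sg X g A η N₁ s →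
  ∃ (b₀ : M.X → ℂ) (c₂ : ℝ), Tm X.p b₀ ∧ Nz X.p b₀ ∧ 0 < c₂ ∧ ∀ (Q t : ℕ) (γ : M.X → ℂ), 0 < Q →
    Bq X.p X.T (X.N * Q) c γ → Jo M X.H (Oz X.p X.σ g) (fun x => normSq (γ x * b₀ x) *
      ((tq X.a X.b x ^ Q)⁻¹ * A x ^ (-c₂) * (tq X.a X.b x ^ N₁ / nsq (s · x)) ^ t * md X x)) ≠ ⊤

/-- The division. -/
def St_DIV : Prop := ∀ (n k r r₁ r₂ r₀ : ℕ) (M : Mf n) [M.Cpt] (X : Mo M k r r₁ r₂)
  (g η : M.X → ℂ) (A : M.X → ℝ) (N₁ : ℕ) (s : Fin r₀ → M.X → ℂ) (c : ℕ), Sg X g A η N₁ s →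
  ∃ (b₀ : M.X → ℂ) (V : Submodule ℂ (M.X → ℂ)) (j₀ : ℕ), Tm X.p b₀ ∧ Nz X.p b₀ ∧
    FiniteDimensional ℂ V ∧ ∀ (Q q : ℕ) (γ : M.X → ℂ), N₁ * (j₀ + q) < Q →
      Q ≤ N₁ * (j₀ + q + 1) → Bq X.p X.T (X.N * Q) c γ →
      Dv (Oz X.p X.σ g) s q V fun x => γ x * b₀ x

/-- The count. -/
def St_CNT : Prop := ∀ (Y : Type) (O : Set Y) (r q m : ℕ) (s : Fin r → Y → ℂ)
  (V : Submodule ℂ (Y → ℂ)) (f : Fin m → Y → ℂ), FiniteDimensional ℂ V → Io O f →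
  (∀ i, Dv O s q V (f i)) → ∃ (m' : ℕ) (I : Fin m' → Fin q → Fin r),
    m ≤ Module.finrank ℂ V * m' ∧ Io O fun l => mon s (I l)

/-- The levels may be taken divisible by `N`. -/
def St_GRN : Prop := ∀ (n k r r₁ r₂ : ℕ) (M : Mf n) [M.Cpt] (X : Mo M k r r₁ r₂) (c δ : ℕ),
  Gro X.p X.T 1 c δ → ∃ c', Gro X.p X.T X.N c' δ

/-- The Kodaira dimension on the model. -/
def St_K6M : Prop := ∀ (n k r r₁ r₂ r₀ : ℕ) (M : Mf n) [M.Cpt] (X : Mo M k r r₁ r₂)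
  (g η : M.X → ℂ) (A : M.X → ℝ) (N₁ : ℕ) (s : Fin r₀ → M.X → ℂ) (c δ : ℕ), Sg X g A η N₁ s →
  Gro X.p X.T X.N c δ → Gro X.p X.T 1 0 δ

theorem uTR (hMO : St_MO) (hSG : St_SG) : St_TR := fun n M _ X => by
  obtain ⟨r, r₁, r₂, Y, h1, h2⟩ := hMO n M X
  obtain ⟨g, A, η, N₁, r₀, s, h⟩ := hSG n _ r r₁ r₂ M Y _ _ h2
  exact ⟨r, r₁, r₂, Y, g, A, η, N₁, r₀, s, h1, h⟩

theorem uK6 (hTR : St_TR) (hGRN : St_GRN) (hK : St_K6M) : St_K6 := fun n M _ X c δ h => by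
  obtain ⟨r, r₁, r₂, Y, g, A, η, N₁, r₀, s, h1, h2⟩ := hTR n M X
  rw [← h1.p, ← h1.T] at h ⊢
  obtain ⟨c', h3⟩ := hGRN n _ r r₁ r₂ M Y c δ h
  exact hK n _ r r₁ r₂ r₀ M Y g η A N₁ s c' δ h2 h3

end Pool.Agent.Lib.KU
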